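import Pool.Agent.P.MP_c64be1_ag.Ell.Val

/-! The pole order filtration. -/

namespace Pool.Agent.P.MP_c64be1_ag.Ell

open WithZero Module Filter

/-- Vectors that are independent modulo a subspace. -/
theorem finrank_add_le {k V T : Type} [Field k] [AddCommGroup V] [Module k V] [Fintype T]
    {W W' : Submodule k V} [FiniteDimensional k W'] (h : W ≤ W') (φ : T → V) (hφ : ∀ j, φ j ∈ W')
    (hi : ∀ a : T → k, ∑ j, a j • φ j ∈ W → a = 0) :
    finrank k W + Fintype.card T ≤ finrank k W' := by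
  have : FiniteDimensional k W := Submodule.finiteDimensional_of_le h
  let g : (W × (T → k)) →ₗ[k] V := W.subtype.coprod (Fintype.linearCombination k φ)
  have hg : ∀ p, g p = (p.1 : V) + ∑ j, p.2 j • φ j := fun p => by
    simp [g, Fintype.linearCombination_apply]
  have hmem : ∀ p, g p ∈ W' := fun p => by
    rw [hg]
    exact add_mem (h p.1.2) (Submodule.sum_mem _ fun j _ => Submodule.smul_mem _ _ (hφ j))
  have hinj : Function.Injective (g.codRestrict W' hmem) := by
    rw [← LinearMap.ker_eq_bot, LinearMap.ker_codRestrict, LinearMap.ker_eq_bot']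
    intro p hp
    rw [hg] at hp
    have h2 : p.2 = 0 := by
      refine hi _ ?_
      rw [eq_neg_of_add_eq_zero_right hp]
      exact neg_mem p.1.2
    have h1 : p.1 = 0 := by
      rw [h2] at hp
      simpa using hp
    exact Prod.ext h1 h2
  have := LinearMap.finrank_le_finrank_of_injective hinj
  simpa [Module.finrank_prod] using this

/-- `A t = ∑ j < m, a (t + j)` is monotone and bounded, hence eventually constant. -/
theorem eventually_const (a : ℤ → ℕ) {m : ℕ} (hm : 0 < m) (C : ℕ) (hC : ∀ t, a t ≤ C)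
    (h : ∀ t, a t ≤ a (t + m)) : ∀ᶠ t in atTop, a (t + m) = a t := by
  let A : ℤ → ℕ := fun t => ∑ j ∈ Finset.range m, a (t + j)
  have hA : ∀ t, A (t + 1) + a t = A t + a (t + m) := fun t => by
    have h1 := Finset.sum_range_succ (fun j : ℕ => a (t + j)) m
    have h2 := Finset.sum_range_succ' (fun j : ℕ => a (t + j)) m
    have h3 : A (t + 1) = ∑ j ∈ Finset.range m, a (t + ((j + 1 : ℕ) : ℤ)) :=
      Finset.sum_congr rfl fun j _ => by rw [Nat.cast_succ, add_assoc, add_comm (1 : ℤ)]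
    simp only [Nat.cast_zero, add_zero] at h2
    rw [h3, ← h2, h1]
  have hmono : Monotone A := monotone_int_of_le_succ fun t => by
    have := hA t
    have := h t
    omega
  have hbdd : BddAbove (Set.range A) := by
    refine ⟨m * C, ?_⟩
    rintro _ ⟨t, rfl⟩
    calc A t ≤ ∑ _j ∈ Finset.range m, C := Finset.sum_le_sum fun j _ => hC _
      _ = m * C := by simp
  obtain ⟨t0, ht0⟩ := Nat.sSup_mem (Set.range_nonempty A) hbdd
  have hle : ∀ t, A t ≤ A t0 := fun t => ht0 ▸ le_csSup hbdd ⟨t, rfl⟩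
  filter_upwards [eventually_ge_atTop t0] with t ht
  have h1 := hmono ht
  have h2 := hle (t + 1)
  have h3 := hA t
  have h4 := h t
  omega

/-- A bound for the dimension of a quotient. -/
theorem quot_bound_Filt {k V : Type} [Field k] [AddCommGroup V] [Module k V]
    {W W' : Submodule k V} [FiniteDimensional k W] (h : W ≤ W') (r : ℕ)
    (H : ∀ φ : Fin (r + 1) → V, (∀ j, φ j ∈ W') → ∃ a : Fin (r + 1) → k, a ≠ 0 ∧
      ∑ j, a j • φ j ∈ W) : FiniteDimensional k W' ∧ finrank k W' ≤ finrank k W + r := by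
  let f : W' →ₗ[k] V ⧸ W := W.mkQ ∘ₗ W'.subtype
  have h1 : Module.rank k (LinearMap.range f) ≤ r := by
    by_contra hlt
    have h2 : ((r + 1 : ℕ) : Cardinal) ≤ Module.rank k (LinearMap.range f) := by
      rw [Nat.cast_succ]
      exact Cardinal.natCast_add_one_le_iff.2 (not_le.1 hlt)
    obtain ⟨g, hg⟩ := exists_linearIndependent_of_le_rank h2
    choose φ hφ using fun j => (g j).2
    obtain ⟨a, ha, haW⟩ := H (fun j => φ j) fun j => (φ j).2
    refine ha (funext (Fintype.linearIndependent_iff.1 hg a (Subtype.ext ?_)))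
    have h3 := (Submodule.Quotient.mk_eq_zero W).2 haW
    rw [← Submodule.mkQ_apply, map_sum] at h3
    rw [Submodule.coe_sum, Submodule.coe_zero, ← h3]
    refine Finset.sum_congr rfl fun j _ => ?_
    rw [Submodule.coe_smul, map_smul, ← hφ j]
    rfl
  have hk : LinearMap.ker f = W.comap W'.subtype := by
    rw [LinearMap.ker_comp, Submodule.ker_mkQ]
  have h4 : Module.rank k (LinearMap.ker f) = finrank k W := by
    rw [hk, (Submodule.comapSubtypeEquivOfLe h).rank_eq, finrank_eq_rank]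
  have h5 : Module.rank k W' ≤ ((finrank k W + r : ℕ) : Cardinal) := by
    rw [← LinearMap.rank_range_add_rank_ker f, h4, Nat.cast_add, add_comm]
    exact add_le_add_right h1 _
  exact ⟨Module.rank_lt_aleph0_iff.1 (h5.trans_lt (Cardinal.natCast_lt_aleph0)),
    finrank_le_of_rank_le h5⟩

/-- Too many vectors are dependent. -/
theorem dep_Filt {K ι : Type} [Field K] [Fintype ι] (φ : Fin (Fintype.card ι + 1) → ι → K) :
    ¬ LinearIndependent K φ := fun h => by
  have := h.fintype_card_le_finrank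
  simp at this

namespace Crv

variable {k K : Type} [Field k] [Field K] [Algebra k K] (c : Crv k K) {ι : Type}

theorem B_mono {t t' : ℤ} (h : t ≤ t') : c.B ι t ≤ c.B ι t' := by
  intro φ hφ
  rw [mem_B] at hφ ⊢
  exact fun a => (hφ a).trans (exp_le_exp.2 h)

theorem smul_mem_B {z : K} {m t : ℤ} (hz : c.v z ≤ exp m) {φ : ι → K} (hφ : φ ∈ c.B ι t) :
    z • φ ∈ c.B ι (t + m) := by
  rw [mem_B] at hφ ⊢
  intro a
  rw [Pi.smul_apply, smul_eq_mul, map_mul, exp_add, mul_comm (exp t)]
  exact mul_le_mul' hz (hφ a)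

theorem mem_B_of_smul {z : K} {m t : ℤ} (hz : c.v z = exp m) {φ : ι → K}
    (hφ : z • φ ∈ c.B ι (t + m)) : φ ∈ c.B ι t := by
  rw [mem_B] at hφ ⊢
  intro a
  have := hφ a
  rw [Pi.smul_apply, smul_eq_mul, map_mul, exp_add, mul_comm (exp t), hz] at this
  exact le_of_mul_le_mul_left this exp_pos

/-- Sketch: among any `r + 1` vectors of `G ⊓ B (t+1)` there is a relation `∑ z j • φ j = 0` over
`K`; divide by a coefficient of largest valuation, write `z j = a j + (v < 1)` with `c.res`; then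
`∑ a j • φ j ∈ B t` with `a ≠ 0`.  So the quotient `(G ⊓ B (t+1)) / (G ⊓ B t)` has rank at most
`r` (`rank_le`, `LinearIndependent` families in the quotient have at most `r` members). -/
theorem step (G : Submodule k (ι → K)) (r : ℕ)
    (hG : ∀ φ : Fin (r + 1) → ι → K, (∀ j, φ j ∈ G) → ¬ LinearIndependent K φ) (t : ℤ)
    [FiniteDimensional k ↥(G ⊓ c.B ι t)] : FiniteDimensional k ↥(G ⊓ c.B ι (t + 1)) ∧
      finrank k ↥(G ⊓ c.B ι (t + 1)) ≤ finrank k ↥(G ⊓ c.B ι t) + r := by
  refine quot_bound_Filt (inf_le_inf_left G (c.B_mono (by omega))) r fun φ hφ => ?_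
  obtain ⟨z, hz, i, hi⟩ := Fintype.not_linearIndependent_iff.1 (hG φ fun j => (hφ j).1)
  obtain ⟨i0, -, hi0⟩ := Finset.exists_max_image Finset.univ (fun j => c.v (z j))
    Finset.univ_nonempty
  have hv0 : c.v (z i0) ≠ 0 := by
    intro h0
    have := hi0 i (Finset.mem_univ _)
    rw [h0, le_zero_iff, Valuation.zero_iff] at this
    exact hi this
  have hz0 : z i0 ≠ 0 := fun h0 => hv0 (by rw [h0, map_zero])
  have hw : ∀ j, c.v (z j / z i0) ≤ 1 := fun j => by
    rw [map_div₀]
    exact div_le_one_of_le₀ (hi0 j (Finset.mem_univ _)) zero_le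
  choose a ha using fun j => c.res _ (hw j)
  refine ⟨a, fun h0 => ?_, Submodule.sum_mem _ (fun j _ => Submodule.smul_mem _ _ (hφ j).1), ?_⟩
  · have := ha i0
    rw [h0, div_self hz0] at this
    simp at this
  · have h1 : ∑ j, (z j / z i0) • φ j = 0 := by
      have : ∑ j, (z j / z i0) • φ j = (z i0)⁻¹ • ∑ j, z j • φ j := by
        rw [Finset.smul_sum]
        exact Finset.sum_congr rfl fun j _ => by rw [smul_smul, div_eq_inv_mul]
      rw [this, hz, smul_zero]
    have h2 : ∑ j, a j • φ j = -∑ j, (z j / z i0 - algebraMap k K (a j)) • φ j := by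
      simp only [sub_smul, Finset.sum_sub_distrib, h1, zero_sub, neg_neg, algebraMap_smul]
    rw [h2]
    refine neg_mem (Submodule.sum_mem _ fun j _ => ?_)
    have h3 : c.v (z j / z i0 - algebraMap k K (a j)) ≤ exp (-1 : ℤ) := by
      rw [← lt_mul_exp_iff_le exp_ne_zero, ← exp_add]
      simpa using ha j
    have h4 := c.smul_mem_B h3 (hφ j).2
    rwa [show t + 1 + -1 = t by ring] at h4

/-- Iterate `step`. -/
theorem steps (G : Submodule k (ι → K)) (r : ℕ)
    (hG : ∀ φ : Fin (r + 1) → ι → K, (∀ j, φ j ∈ G) → ¬ LinearIndependent K φ) (t : ℤ)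
    [FiniteDimensional k ↥(G ⊓ c.B ι t)] (n : ℕ) : FiniteDimensional k ↥(G ⊓ c.B ι (t + n)) ∧
      finrank k ↥(G ⊓ c.B ι (t + n)) ≤ finrank k ↥(G ⊓ c.B ι t) + r * n := by
  induction n with
  | zero =>
    rw [Nat.cast_zero, add_zero]
    exact ⟨inferInstance, by simp⟩
  | succ n ih =>
    obtain ⟨h1, h2⟩ := ih
    obtain ⟨h3, h4⟩ := c.step G r hG (t + n)
    rw [Nat.cast_succ, ← add_assoc]
    refine ⟨h3, h4.trans ?_⟩
    rw [mul_add, mul_one]
    omega

/-- `steps` with `r = card ι`, and monotonicity for `t ≤ D`. -/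
theorem fd [Fintype ι] (G : Submodule k (ι → K)) {D : ℤ} (hD : G ⊓ c.B ι D = ⊥) (t : ℤ) :
    FiniteDimensional k ↥(G ⊓ c.B ι t) := by
  have hb : FiniteDimensional k ↥(G ⊓ c.B ι D) := by
    rw [hD]; infer_instance
  rcases le_total t D with h | h
  · exact Submodule.finiteDimensional_of_le (inf_le_inf_left G (c.B_mono h))
  · obtain ⟨n, hn⟩ := Int.eq_ofNat_of_zero_le (sub_nonneg.2 h)
    have := (c.steps G (Fintype.card ι) (fun φ _ => dep_Filt φ) D n).1
    rwa [← hn, add_sub_cancel] at this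

/-- From `fd` with `ι = Unit` and `M_inf_B`. -/
theorem fd_L (e : ℕ) (t : ℤ) : FiniteDimensional k (c.L e t) := by
  have := c.fd (c.M Unit) (c.M_inf_B Unit) t
  have h : c.L e t ≤ (c.M Unit ⊓ c.B Unit t).map (LinearMap.proj ()) := by
    intro z hz
    refine ⟨fun _ => z, ⟨c.mem_M.2 fun _ => c.R_le_zero e hz.1, c.mem_B.2 fun _ => hz.2⟩, rfl⟩
  exact Submodule.finiteDimensional_of_le h

/-- Induction on `n` with `exists_deg` and `finrank_add_le` (for `n = 1` use the constant `1`). -/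
theorem le_finrank_L (e n : ℕ) : n ≤ finrank k (c.L e (2 ^ e * n)) := by
  induction n with
  | zero => exact Nat.zero_le _
  | succ n ih =>
    have := c.fd_L e (2 ^ e * ((n + 1 : ℕ) : ℤ))
    have hp : (0 : ℤ) < 2 ^ e := by positivity
    by_cases hn : n = 0
    · subst hn
      have := finrank_add_le (T := Unit) (W := ⊥) (W' := c.L e (2 ^ e * ((0 + 1 : ℕ) : ℤ)))
        bot_le (fun _ => (1 : K)) (fun _ => c.mem_L.2 ⟨one_mem _, by
          rw [map_one, ← exp_zero, exp_le_exp]; positivity⟩) (fun a ha => by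
          funext u
          simpa using ha)
      simpa using this
    · obtain ⟨g, hg, hv⟩ := c.exists_deg e (j := n + 1) (by omega)
      have hle : c.L e (2 ^ e * (n : ℤ)) ≤ c.L e (2 ^ e * ((n + 1 : ℕ) : ℤ)) := by
        intro z hz
        refine c.mem_L.2 ⟨hz.1, (c.mem_L.1 hz).2.trans (exp_le_exp.2 ?_)⟩
        push_cast
        nlinarith
      have := finrank_add_le (T := Unit) hle (fun _ => g) (fun _ => c.mem_L.2 ⟨hg, hv.le⟩)
        (fun a ha => by
          funext u
          by_contra h0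
          have h1 := (c.mem_L.1 ha).2
          rw [Fintype.sum_unique, Algebra.smul_def, map_mul, c.vk _ h0, one_mul, hv,
            exp_le_exp] at h1
          push_cast at h1
          nlinarith)
      rw [Fintype.card_unique] at this
      omega

/-- Sketch: let `f t = finrank (G ⊓ B t)`, `a t = f (t + n) - f t ≤ card ι * n`.  The image
`z • (G ⊓ B (t + n))` and `G ⊓ B (t + m)` lie in `G ⊓ B (t + n + m)` and meet in `z • (G ⊓ B t)`,
so `a t ≤ a (t + m)`, and equality (eventually true by `eventually_const`) says that their sum is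
everything. -/
theorem surj_top [Fintype ι] (G : Submodule k (ι → K)) {D : ℤ} (hD : G ⊓ c.B ι D = ⊥) {z : K}
    {m : ℕ} (hm : 0 < m) (hz : c.v z = exp (m : ℤ)) (hG : ∀ φ ∈ G, z • φ ∈ G) (n : ℕ) :
    ∀ᶠ t : ℤ in atTop, ∀ ψ ∈ G ⊓ c.B ι (t + n), ∃ φ ∈ G, ψ - z • φ ∈ c.B ι t := by
  have hfd := c.fd G hD
  have hz0 : z ≠ 0 := fun h0 => by
    rw [h0, map_zero] at hz
    exact exp_ne_zero hz.symm
  let Z : (ι → K) →ₗ[k] (ι → K) := (LinearMap.lsmul K (ι → K) z).restrictScalars k
  have hZ : ∀ φ, Z φ = z • φ := fun _ => rfl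
  have hZi : Function.Injective Z := fun φ ψ h => smul_right_injective _ hz0 h
  let f : ℤ → ℕ := fun t => finrank k ↥(G ⊓ c.B ι t)
  have hmono : ∀ {t t' : ℤ}, t ≤ t' → f t ≤ f t' := fun {t t'} h =>
    Submodule.finrank_mono (inf_le_inf_left G (c.B_mono h))
  have hU : ∀ t : ℤ, (G ⊓ c.B ι (t + n)).map Z ⊔ G ⊓ c.B ι (t + m) ≤ G ⊓ c.B ι (t + m + n) := by
    intro t
    refine sup_le ?_ (inf_le_inf_left G (c.B_mono (by omega)))
    rintro _ ⟨φ, hφ, rfl⟩
    refine ⟨hG φ hφ.1, ?_⟩
    have := c.smul_mem_B hz.le hφ.2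
    rwa [add_right_comm] at this
  have hsum : ∀ t : ℤ, f (t + n) + f (t + m) ≤
      finrank k ↥((G ⊓ c.B ι (t + n)).map Z ⊔ G ⊓ c.B ι (t + m)) + f t := by
    intro t
    have h1 := Submodule.finrank_sup_add_finrank_inf_eq ((G ⊓ c.B ι (t + n)).map Z)
      (G ⊓ c.B ι (t + m))
    have h2 : finrank k ↥((G ⊓ c.B ι (t + n)).map Z) = f (t + n) :=
      (LinearEquiv.finrank_eq (Submodule.equivMapOfInjective Z hZi _)).symm
    have h3 : (G ⊓ c.B ι (t + n)).map Z ⊓ (G ⊓ c.B ι (t + m)) ≤ (G ⊓ c.B ι t).map Z := by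
      rintro _ ⟨⟨φ, hφ, rfl⟩, h⟩
      exact ⟨φ, ⟨hφ.1, c.mem_B_of_smul hz h.2⟩, rfl⟩
    have h4 := (Submodule.finrank_mono h3).trans (Submodule.finrank_map_le Z _)
    simp only [f] at h2 ⊢
    omega
  have hev := eventually_const (fun t => f (t + n) - f t) hm (Fintype.card ι * n)
    (fun t => by
      have := (c.steps G (Fintype.card ι) (fun φ _ => dep_Filt φ) t n).2
      simp only [f]
      omega)
    (fun t => by
      have h1 := hsum t
      have h2 : _ ≤ f (t + m + n) := Submodule.finrank_mono (hU t)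
      show f (t + n) - f t ≤ f (t + m + n) - f (t + m)
      omega)
  obtain ⟨t0, ht0⟩ := eventually_atTop.1 hev
  filter_upwards [eventually_ge_atTop (t0 + m)] with s hs ψ hψ
  obtain ⟨t, rfl⟩ : ∃ t, s = t + m := ⟨s - m, by ring⟩
  have h1 : f (t + m + n) - f (t + m) = f (t + n) - f t := ht0 t (by omega)
  have h2 := hsum t
  have h3 : f t ≤ f (t + n) := hmono (by omega)
  have h4 : f (t + m) ≤ f (t + m + n) := hmono (by omega)
  have h5 := Submodule.eq_of_le_of_finrank_le (hU t) (by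
    show f (t + m + n) ≤ _
    omega)
  rw [← h5] at hψ
  obtain ⟨_, ⟨φ, hφ, rfl⟩, u, hu, rfl⟩ := Submodule.mem_sup.1 hψ
  refine ⟨φ, hφ.1, ?_⟩
  rw [hZ, add_sub_cancel_left]
  exact hu.2

end Crv

end Pool.Agent.P.MP_c64be1_ag.Ell
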