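import Pool.Agent.P.MP_c64be1_ag.Ell.Split
import Pool.Agent.P.MP_c64be1_ag.Ell.Filt

/-! The slope bound for Frobenius pushforwards on the supersingular curve. -/

namespace Pool.Agent.P.MP_c64be1_ag.Ell.Crv

open WithZero Module Filter

variable {k K : Type} [Field k] [Field K] [Algebra k K] (c : Crv k K) {ι : Type}

/-- The slope bound at level `e`. -/
def BD (N : Submodule k (ι → K)) (D : ℤ) (e : ℕ) : Prop :=
  ∀ W : Submodule (c.F e) (ι → K), FiniteDimensional (c.F e) W → ∀ᶠ t : ℤ in atTop,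
    (2 ^ e : ℤ) * finrank k ↥(W.restrictScalars k ⊓ N ⊓ c.B ι t) ≤ finrank (c.F e) W * (t - D)

theorem two_le_BD {V : Type} [AddCommGroup V] [Module k V] (P : Submodule k (V × V))
    (A A₀ A₁ : Submodule k V) [FiniteDimensional k A] [FiniteDimensional k A₀]
    [FiniteDimensional k A₁] (T : V →ₗ[k] V)
    (h0 : ∀ p ∈ P, p.1 + T p.2 ∈ A₀) (h1 : ∀ p ∈ P, p.1 + T p.2 = 0 → p.2 ∈ A₁)
    (h2 : ∀ a ∈ A, (a, (0 : V)) ∈ P) (h3 : ∀ a ∈ A, ∃ b, (b, a) ∈ P) :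
    2 * finrank k A ≤ finrank k A₀ + finrank k A₁ := by
  let f : P →ₗ[k] V := (LinearMap.fst k V V + T ∘ₗ LinearMap.snd k V V) ∘ₗ P.subtype
  let g : P →ₗ[k] V := LinearMap.snd k V V ∘ₗ P.subtype
  have hf := LinearMap.rank_range_add_rank_ker f
  have hg := LinearMap.rank_range_add_rank_ker g
  have e1 : Module.rank k (LinearMap.range f) ≤ Module.rank k A₀ := by
    apply Submodule.rank_mono
    rintro _ ⟨p, rfl⟩
    exact h0 p.1 p.2
  have e2 : Module.rank k (LinearMap.ker f) ≤ Module.rank k A₁ := by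
    let u : LinearMap.ker f →ₗ[k] A₁ :=
      LinearMap.codRestrict A₁ (g ∘ₗ (LinearMap.ker f).subtype) fun p => h1 p.1.1 p.1.2 p.2
    refine LinearMap.rank_le_of_injective u ?_
    intro p p' hp
    have hp2 : p.1.1.2 = p'.1.1.2 := congrArg Subtype.val hp
    have hp1 : p.1.1.1 + T p.1.1.2 = 0 := p.2
    have hp1' : p'.1.1.1 + T p'.1.1.2 = 0 := p'.2
    rw [hp2, ← hp1'] at hp1
    exact Subtype.ext (Subtype.ext (Prod.ext (add_right_cancel hp1) hp2))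
  have e3 : Module.rank k A ≤ Module.rank k (LinearMap.range g) := by
    apply Submodule.rank_mono
    intro a ha
    obtain ⟨b, hb⟩ := h3 a ha
    exact ⟨⟨(b, a), hb⟩, rfl⟩
  have e4 : Module.rank k A ≤ Module.rank k (LinearMap.ker g) := by
    let u : A →ₗ[k] P :=
      LinearMap.codRestrict P (LinearMap.inl k V V ∘ₗ A.subtype) fun a => h2 a.1 a.2
    let w : A →ₗ[k] LinearMap.ker g := LinearMap.codRestrict (LinearMap.ker g) u fun a => rfl
    refine LinearMap.rank_le_of_injective w ?_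
    intro a b hab
    exact Subtype.ext (congrArg (fun p : LinearMap.ker g => p.1.1.1) hab)
  have e5 : Module.rank k A + Module.rank k A ≤ Module.rank k A₀ + Module.rank k A₁ :=
    calc Module.rank k A + Module.rank k A
        ≤ Module.rank k (LinearMap.range g) + Module.rank k (LinearMap.ker g) := add_le_add e3 e4
      _ = Module.rank k (LinearMap.range f) + Module.rank k (LinearMap.ker f) := by rw [hf, hg]
      _ ≤ _ := add_le_add e1 e2
  rw [← Module.finrank_eq_rank k A, ← Module.finrank_eq_rank k A₀,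
    ← Module.finrank_eq_rank k A₁] at e5
  have e6 : finrank k A + finrank k A ≤ finrank k A₀ + finrank k A₁ := by exact_mod_cast e5
  omega

theorem inf_bot_BD {e : ℕ} (W : Submodule (c.F e) (ι → K)) (N : Submodule k (ι → K)) {D : ℤ}
    (hD : N ⊓ c.B ι D = ⊥) : W.restrictScalars k ⊓ N ⊓ c.B ι D = ⊥ := by
  rw [inf_assoc, hD, inf_bot_eq]

theorem smul_mem_BD {e : ℕ} (W : Submodule (c.F e) (ι → K)) (N : Submodule k (ι → K))
    (hN : ∀ g ∈ c.R 0, ∀ φ ∈ N, g • φ ∈ N) {z : K} (hz : z ∈ c.R e) :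
    ∀ φ ∈ W.restrictScalars k ⊓ N, z • φ ∈ W.restrictScalars k ⊓ N := by
  intro φ hφ
  exact ⟨W.smul_mem ⟨z, c.R_le_F hz⟩ hφ.1, hN z (c.R_le_zero e hz) φ hφ.2⟩

/-- `steps` for `G = W ⊓ N` starting at `t = D`; `r + 1` vectors of `W` are dependent over `F 0`,
hence over `K`. -/
theorem bd_zero (N : Submodule k (ι → K)) {D : ℤ} (hD : N ⊓ c.B ι D = ⊥) : c.BD N D 0 := by
  intro W hW
  have hb := c.inf_bot_BD W N hD
  have hG : ∀ φ : Fin (finrank (c.F 0) W + 1) → ι → K, (∀ j, φ j ∈ W.restrictScalars k ⊓ N) →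
      ¬ LinearIndependent K φ := by
    intro φ hφ hli
    have h1 : LinearIndependent (c.F 0) φ := hli.restrict_scalars' (c.F 0)
    have h2 : LinearIndependent (c.F 0) fun j => (⟨φ j, (hφ j).1⟩ : W) :=
      LinearIndependent.of_comp W.subtype h1
    have h3 := h2.fintype_card_le_finrank
    simp at h3
  have : FiniteDimensional k ↥(W.restrictScalars k ⊓ N ⊓ c.B ι D) := by
    rw [hb]
    infer_instance
  filter_upwards [eventually_ge_atTop D] with t ht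
  obtain ⟨n, rfl⟩ := Int.le.dest ht
  have h := (c.steps (W.restrictScalars k ⊓ N) _ hG D n).2
  rw [hb, finrank_bot, zero_add] at h
  rw [pow_zero, one_mul, add_sub_cancel_left]
  exact_mod_cast h

/-- Sketch (`q = 2 ^ e`, `X = c.X e`, `Y = c.Y e`, `G = W ⊓ N`, `G t = G ⊓ B t`).  `G` is stable
under `X ^ 2` and `Y ^ 2`.  Let `P t = {(v₀, v₁) ∈ G × G | v₁ ∈ B t, Y ^ 2 • v₀ + X ^ 4 • v₁ ∈
B (t + 6 q)}`.  The projection `P t → G t`, `(v₀, v₁) ↦ v₁` has kernel `G t × 0` and is onto for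
large `t` by `surj_top` (`z = Y ^ 2`, `m = 6 q`, `n = 2 q`, applied at `t + 6 q` to
`ψ = -X ^ 4 • v₁`); so `dim (P t) ≥ 2 dim (G t)`.  The map `(v₀, v₁) ↦ v₀ + X • v₁` sends `P t` to
`W₀ ⊓ N ⊓ B t` because `Y ^ 2 • (v₀ + X • v₁) = (Y ^ 2 • v₀ + X ^ 4 • v₁) + (X * Y) • v₁` in
characteristic two (`eqn_e`), and `(v₀, v₁) ↦ v₁` embeds its kernel in `W₁ ⊓ N ⊓ B t`
(`rank_split`).  Add the two bounds of level `e` for `t ≥ D`. -/
theorem bd_succ [Fintype ι] (N : Submodule k (ι → K)) {D : ℤ} (hD : N ⊓ c.B ι D = ⊥) (e : ℕ)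
    (hN : ∀ g ∈ c.R 0, ∀ φ ∈ N, g • φ ∈ N) (h : c.BD N D e) : c.BD N D (e + 1) := by
  intro W hW
  obtain ⟨W₀, W₁, f0, f1, hr, hW0, hW1⟩ := c.rank_split e W
  have hX2 : c.X e ^ 2 ∈ c.R (e + 1) := c.X_succ e ▸ c.X_mem_R (e + 1)
  have hY2 : c.Y e ^ 2 ∈ c.R (e + 1) := c.Y_succ e ▸ c.Y_mem_R (e + 1)
  have hX4 : c.X e ^ 4 ∈ c.R (e + 1) := by
    have := (c.R (e + 1)).mul_mem hX2 hX2
    rwa [← pow_add] at this
  have vY2 : c.v (c.Y e ^ 2) = exp (((6 * 2 ^ e : ℕ) : ℤ)) := by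
    rw [pow_two, map_mul, c.vY, ← exp_add]
    congr 1
    push_cast
    ring
  have vX4 : c.v (c.X e ^ 4) = exp (8 * 2 ^ e : ℤ) := by
    rw [show c.X e ^ 4 = c.X e * c.X e * (c.X e * c.X e) by ring]
    simp only [map_mul, c.vX, ← exp_add]
    congr 1
    ring
  have vXY : c.v (-(c.X e * c.Y e)) ≤ exp (((6 * 2 ^ e : ℕ) : ℤ)) := by
    rw [Valuation.map_neg, map_mul, c.vX, c.vY, ← exp_add, exp_le_exp]
    push_cast
    have : (0 : ℤ) ≤ 2 ^ e := by positivity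
    linarith
  have hb := c.inf_bot_BD W N hD
  have hs := c.surj_top (W.restrictScalars k ⊓ N) hb (m := 6 * 2 ^ e) (by positivity) vY2
    (c.smul_mem_BD W N hN hY2) (2 * 2 ^ e)
  have hs' := (tendsto_atTop_add_const_right atTop (((6 * 2 ^ e : ℕ) : ℤ)) tendsto_id).eventually hs
  filter_upwards [hs', h W₀ f0, h W₁ f1, eventually_ge_atTop D] with t ht h0 h1 hDt
  have := c.fd _ hb t
  have := c.fd _ (c.inf_bot_BD W₀ N hD) t
  have := c.fd _ (c.inf_bot_BD W₁ N hD) t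
  let Sm : K → (ι → K) →ₗ[k] (ι → K) := fun z => (LinearMap.lsmul K (ι → K) z).restrictScalars k
  let P : Submodule k ((ι → K) × (ι → K)) :=
    (W.restrictScalars k ⊓ N).prod (W.restrictScalars k ⊓ N ⊓ c.B ι t) ⊓
      (c.B ι (t + ((6 * 2 ^ e : ℕ) : ℤ))).comap
        (Sm (c.Y e ^ 2) ∘ₗ LinearMap.fst k _ _ + Sm (c.X e ^ 4) ∘ₗ LinearMap.snd k _ _)
  have hP : ∀ p : (ι → K) × (ι → K), p ∈ P ↔ (p.1 ∈ W.restrictScalars k ⊓ N ∧
      p.2 ∈ W.restrictScalars k ⊓ N ⊓ c.B ι t) ∧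
      c.Y e ^ 2 • p.1 + c.X e ^ 4 • p.2 ∈ c.B ι (t + ((6 * 2 ^ e : ℕ) : ℤ)) := fun p => Iff.rfl
  have hXN : c.X e ∈ c.R 0 := c.R_le_zero e (c.X_mem_R e)
  have key := two_le_BD P (W.restrictScalars k ⊓ N ⊓ c.B ι t)
    (W₀.restrictScalars k ⊓ N ⊓ c.B ι t) (W₁.restrictScalars k ⊓ N ⊓ c.B ι t) (Sm (c.X e))
    (by
      intro p hp
      obtain ⟨⟨a1, a2⟩, a3⟩ := (hP p).1 hp
      change p.1 + c.X e • p.2 ∈ _
      refine ⟨⟨hW0 _ a1.1 _ a2.1.1, N.add_mem a1.2 (hN _ hXN _ a2.1.2)⟩, ?_⟩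
      refine c.mem_B_of_smul vY2 ?_
      have hq : c.Y e ^ 2 * c.X e = c.X e ^ 4 + -(c.X e * c.Y e) := by
        linear_combination c.X e * c.eqn_e e
      have : c.Y e ^ 2 • (p.1 + c.X e • p.2) =
          (c.Y e ^ 2 • p.1 + c.X e ^ 4 • p.2) + (-(c.X e * c.Y e)) • p.2 := by
        rw [smul_add, smul_smul, hq, add_smul, add_assoc]
      rw [this]
      exact Submodule.add_mem _ a3 (c.smul_mem_B vXY a2.2))
    (by
      intro p hp hz
      obtain ⟨⟨a1, a2⟩, -⟩ := (hP p).1 hp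
      have hz' : c.X e • p.2 = -p.1 := eq_neg_of_add_eq_zero_right hz
      exact ⟨⟨hW1 _ a2.1.1 (hz' ▸ W.neg_mem a1.1), a2.1.2⟩, a2.2⟩)
    (by
      intro a ha
      refine (hP _).2 ⟨⟨ha.1, Submodule.zero_mem _⟩, ?_⟩
      simp only [smul_zero, add_zero]
      exact c.smul_mem_B vY2.le ha.2)
    (by
      intro a ha
      have m1 : -(c.X e ^ 4 • a) ∈ W.restrictScalars k ⊓ N ⊓
          c.B ι (id t + ((6 * 2 ^ e : ℕ) : ℤ) + ((2 * 2 ^ e : ℕ) : ℤ)) := by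
        refine Submodule.neg_mem _ ⟨c.smul_mem_BD W N hN hX4 a ha.1, ?_⟩
        have := c.smul_mem_B vX4.le ha.2
        have e8 : id t + ((6 * 2 ^ e : ℕ) : ℤ) + ((2 * 2 ^ e : ℕ) : ℤ) = t + 8 * 2 ^ e := by
          push_cast
          simp only [id]
          ring
        rw [e8]
        exact this
      obtain ⟨φ, hφ, hφ'⟩ := ht _ m1
      refine ⟨φ, (hP _).2 ⟨⟨hφ, ha⟩, ?_⟩⟩
      have := Submodule.neg_mem _ hφ'
      rw [neg_sub, sub_neg_eq_add] at this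
      exact this)
  have key' : (2 : ℤ) * finrank k ↥(W.restrictScalars k ⊓ N ⊓ c.B ι t) ≤
      finrank k ↥(W₀.restrictScalars k ⊓ N ⊓ c.B ι t) +
        finrank k ↥(W₁.restrictScalars k ⊓ N ⊓ c.B ι t) := by exact_mod_cast key
  have hr' : (finrank (c.F e) W₀ : ℤ) + finrank (c.F e) W₁ ≤ finrank (c.F (e + 1)) W := by
    exact_mod_cast hr
  have hq : (0 : ℤ) ≤ 2 ^ e := by positivity
  have b1 := mul_le_mul_of_nonneg_left key' hq
  have b2 := mul_le_mul_of_nonneg_right hr' (sub_nonneg.2 hDt)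
  rw [pow_succ]
  linarith

theorem bd [Fintype ι] (N : Submodule k (ι → K)) {D : ℤ} (hD : N ⊓ c.B ι D = ⊥)
    (hN : ∀ g ∈ c.R 0, ∀ φ ∈ N, g • φ ∈ N) (e : ℕ) : c.BD N D e := by
  induction e with
  | zero => exact c.bd_zero N hD
  | succ e ih => exact c.bd_succ N hD e hN ih

end Pool.Agent.P.MP_c64be1_ag.Ell.Crv
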