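import Pool.Agent.P.MP_c64be1_ag.Ell.Defs2

/-! The tangent criterion at sums of products of linear forms. -/

namespace Pool.Agent.P.MP_c64be1_ag.Ell

open MvPolynomial Module

/-- As `taylor` in `Dense.lean`: induction on `F`. -/
theorem taylor' {σ τ : Type} [Fintype τ] [DecidableEq τ] (z a : τ → MvPolynomial σ ℂ)
    (F : MvPolynomial τ ℂ) : ∃ γ : Polynomial (MvPolynomial σ ℂ), ∀ ε : ℂ,
      aeval (fun p => z p + ε • a p) F =
        aeval z F + ε • (∑ p, a p * aeval z (pderiv p F) + ε • γ.eval (C ε)) := by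
  induction F using MvPolynomial.induction_on with
  | C r => exact ⟨0, fun ε => by simp⟩
  | add p q hp hq =>
    obtain ⟨γ₁, h₁⟩ := hp
    obtain ⟨γ₂, h₂⟩ := hq
    refine ⟨γ₁ + γ₂, fun ε => ?_⟩
    simp only [map_add, h₁, h₂, mul_add, Finset.sum_add_distrib, Polynomial.eval_add, smul_add]
    abel
  | mul_X p w hp =>
    obtain ⟨γ, h⟩ := hp
    refine ⟨γ * Polynomial.C (z w) + Polynomial.C ((∑ v, a v * aeval z (pderiv v p)) * a w)
      + Polynomial.X * γ * Polynomial.C (a w), fun ε => ?_⟩
    have hs : ∑ v, a v * aeval z (pderiv v (p * X w)) =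
        (∑ v, a v * aeval z (pderiv v p)) * z w + aeval z p * a w := by
      simp only [Derivation.leibniz, smul_eq_mul, mul_add, Finset.sum_add_distrib,
        Finset.sum_mul, pderiv_X, map_add, map_mul, aeval_X]
      rw [add_comm]
      congr 1
      · refine Finset.sum_congr rfl fun v _ => by ring
      · rw [Finset.sum_eq_single w]
        · simp [mul_comm]
        · intro v _ hv
          simp [hv]
        · simp
    rw [map_mul, h, aeval_X, hs, map_mul, aeval_X]
    simp only [Polynomial.eval_add, Polynomial.eval_mul, Polynomial.eval_C, Polynomial.eval_X,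
      smul_eq_C_mul]
    ring

theorem span_pow_Chow {σ τ : Type} (z : τ → MvPolynomial σ ℂ) (k : ℕ) :
    Submodule.span ℂ (Set.range z) ^ k =
      (homogeneousSubmodule τ ℂ k).map (aeval z : MvPolynomial τ ℂ →ₐ[ℂ] _).toLinearMap := by
  rw [← homogeneousSubmodule_one_pow, Submodule.map_pow]
  congr 1
  simp [homogeneousSubmodule_one_eq_span_X, Submodule.map_span, ← Set.range_comp,
    Function.comp_def]

theorem pderiv_prod_zero_Chow {τ κ : Type} [DecidableEq τ] [DecidableEq κ] (p : τ) (f : κ → τ)
    (s : Finset κ) (h : ∀ t ∈ s, f t ≠ p) :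
    pderiv p (∏ t ∈ s, (X (f t) : MvPolynomial τ ℂ)) = 0 := by
  induction s using Finset.induction_on with
  | empty => simp
  | insert a s ha ih =>
    rw [Finset.prod_insert ha, Derivation.leibniz,
      ih fun t ht => h t (Finset.mem_insert_of_mem ht),
      pderiv_X_of_ne (h a (Finset.mem_insert_self _ _))]
    simp

theorem pderiv_Chow {Γ : Type} [Fintype Γ] [DecidableEq Γ] {k : ℕ} (g : Γ) (t₀ : Fin k) :
    pderiv (g, t₀) (∑ g', ∏ t, (X (g', t) : MvPolynomial (Γ × Fin k) ℂ)) =
      ∏ t ∈ Finset.univ.erase t₀, X (g, t) := by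
  rw [map_sum, Finset.sum_eq_single g]
  · rw [← Finset.mul_prod_erase _ _ (Finset.mem_univ t₀), Derivation.leibniz,
      pderiv_prod_zero_Chow (g, t₀) (fun t => (g, t)) _
        fun t ht e => Finset.ne_of_mem_erase ht (congrArg Prod.snd e), pderiv_X_self]
    simp
  · intro g' _ hg
    exact pderiv_prod_zero_Chow (g, t₀) (fun t => (g', t)) _
      fun t _ e => hg (congrArg Prod.fst e)
  · simp

/-- Sketch: follow `secantFills_of_tangent` with `zdense_of_curves`.  Let `τ = Γ × Fin k`,
`F = ∑ g, ∏ t, X (g, t)`, so `pderiv (g, t₀) F = ∏ t ∈ univ.erase t₀, X (g, t)`.  Elements of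
`Tan z` have the form `∑ i, (aeval (z i) (w i) + ∑ p, a i p * aeval (z i) (pderiv p F))` with `w i`
homogeneous of degree `k` and `a i p` linear (these form a submodule that contains the generators;
`span (range (z i)) ^ k` is the image of the forms of degree `k` under `aeval (z i)`).  The curve is
`∑ i, aeval (z i + ε • a i) (F + ε • w i)`, each term lies in the `k`-th power of the span of
`card Γ * k ≤ r` linear forms (`mem_subCone_of_le`, `finrank_range_le_card`). -/
theorem chow_fills {σ I Γ : Type} [Fintype σ] [Fintype I] [Fintype Γ] {k r s : ℕ}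
    (hs : Fintype.card I ≤ s) (hr : r ≤ Fintype.card σ) (hΓ : k * Fintype.card Γ ≤ r)
    (z : I → Γ → Fin k → MvPolynomial σ ℂ) (hz : ∀ i g t, (z i g t).IsHomogeneous 1)
    (h : homogeneousSubmodule σ ℂ k ≤ Tan z) : SecantFills σ k r s := by
  classical
  refine secantFills_mono hr hs ?_
  let F : MvPolynomial (Γ × Fin k) ℂ := ∑ g, ∏ t, X (g, t)
  have hF : F.IsHomogeneous k := by
    refine IsHomogeneous.sum _ _ _ fun g _ => ?_
    have := IsHomogeneous.prod (Finset.univ : Finset (Fin k))
      (fun t => (X (g, t) : MvPolynomial (Γ × Fin k) ℂ)) (fun _ => 1)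
      (fun t _ => isHomogeneous_X ℂ _)
    simpa using this
  let Z : I → Γ × Fin k → MvPolynomial σ ℂ := fun i p => z i p.1 p.2
  have hZ : ∀ i p, (Z i p).IsHomogeneous 1 := fun i p => hz i p.1 p.2
  let N : Submodule ℂ (MvPolynomial σ ℂ) :=
    { carrier := {x | ∃ (w : I → MvPolynomial (Γ × Fin k) ℂ) (a : I → Γ × Fin k → MvPolynomial σ ℂ),
        (∀ i, (w i).IsHomogeneous k) ∧ (∀ i p, (a i p).IsHomogeneous 1) ∧
        x = ∑ i, (aeval (Z i) (w i) + ∑ p, a i p * aeval (Z i) (pderiv p F))}
      add_mem' := by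
        rintro _ _ ⟨w, a, hw, ha, rfl⟩ ⟨w', a', hw', ha', rfl⟩
        refine ⟨w + w', a + a', fun i => (hw i).add (hw' i), fun i p => (ha i p).add (ha' i p), ?_⟩
        simp only [Pi.add_apply, map_add, add_mul, Finset.sum_add_distrib]
        abel
      zero_mem' := ⟨0, 0, fun i => isHomogeneous_zero _ _ _, fun i p => isHomogeneous_zero _ _ _,
        by simp⟩
      smul_mem' := by
        rintro c _ ⟨w, a, hw, ha, rfl⟩
        refine ⟨c • w, c • a, fun i => (homogeneousSubmodule _ ℂ k).smul_mem c (hw i),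
          fun i p => (homogeneousSubmodule _ ℂ 1).smul_mem c (ha i p), ?_⟩
        simp only [Pi.smul_apply, map_smul, smul_add, Finset.smul_sum, smul_mul_assoc] }
  have hN : Tan z ≤ N := by
    refine sup_le (iSup_le fun i => ?_) (iSup_le fun i => iSup_le fun g => iSup_le fun t₀ => ?_)
    · rw [span_pow_Chow]
      rintro _ ⟨w, hw, rfl⟩
      refine ⟨Pi.single i w, 0, fun j => ?_, fun i p => isHomogeneous_zero _ _ _, ?_⟩
      · by_cases e : j = i
        · subst e; rw [Pi.single_eq_same]; exact hw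
        · rw [Pi.single_eq_of_ne e]; exact isHomogeneous_zero _ _ _
      · rw [Finset.sum_eq_single i]
        · simp [Z]
        · intro j _ hj
          simp [Pi.single_eq_of_ne hj]
        · simp
    · intro x hx
      obtain ⟨b, hb, rfl⟩ := Submodule.mem_mul_span_singleton.1 hx
      refine ⟨0, fun j p => if j = i ∧ p = (g, t₀) then b else 0,
        fun i => isHomogeneous_zero _ _ _, fun j p => ?_, ?_⟩
      · by_cases e : j = i ∧ p = (g, t₀)
        · simp only [if_pos e]; exact hb
        · simp only [if_neg e]; exact isHomogeneous_zero _ _ _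
      · rw [Finset.sum_eq_single i]
        · rw [Finset.sum_eq_single (g, t₀)]
          · rw [pderiv_Chow]
            simp [Z]
          · intro p _ hp
            simp [hp]
          · simp
        · intro j _ hj
          simp [hj]
        · simp
  have hae : ∀ (y : Γ × Fin k → MvPolynomial σ ℂ), (∀ p, (y p).IsHomogeneous 1) →
      ∀ w : MvPolynomial (Γ × Fin k) ℂ, w.IsHomogeneous k → aeval y w ∈ subCone σ k r := by
    intro y hy w hw
    refine mem_subCone_of_le hr (U := Submodule.span ℂ (Set.range y))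
      (Submodule.span_le.2 ?_) ((finrank_range_le_card y).trans ?_) ?_
    · rintro _ ⟨p, rfl⟩; exact hy p
    · rw [Fintype.card_prod, Fintype.card_fin, mul_comm]; exact hΓ
    · rw [span_pow_Chow]; exact ⟨w, hw, rfl⟩
  refine zdense_of_curves (fun G hG => isHomogeneous_of_mem_sums hG) (∑ i, aeval (Z i) F)
    (IsHomogeneous.sum _ _ _ fun i _ => ?_) fun τ hτ => ?_
  · have := IsHomogeneous.aeval hF (Z i) (n := 1) (hZ i)
    rwa [one_mul] at this
  obtain ⟨w, a, hw, ha, rfl⟩ := hN (h hτ)
  choose γ hγ using fun i => taylor' (Z i) (a i) F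
  choose δ hδ using fun i => taylor' (Z i) (a i) (w i)
  let Θ : Polynomial (MvPolynomial σ ℂ) := ∑ i,
    (Polynomial.C (aeval (Z i) (w i) + ∑ p, a i p * aeval (Z i) (pderiv p F))
    + Polynomial.X * (γ i + Polynomial.C (∑ p, a i p * aeval (Z i) (pderiv p (w i)))
      + Polynomial.X * δ i))
  refine ⟨fun ε => Θ.eval (C ε), continuous_coeff_eval Θ, ?_, fun ε => ?_⟩
  · simp [Θ, Polynomial.eval_finsetSum]
  · let φ : I → MvPolynomial (Γ × Fin k) ℂ →ₐ[ℂ] MvPolynomial σ ℂ :=
      fun i => aeval (fun p => Z i p + ε • a i p)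
    let e : I ≃ Fin (Fintype.card I) := Fintype.equivFin I
    refine ⟨fun j => φ (e.symm j) (F + ε • w (e.symm j)), fun j => ?_, ?_⟩
    · exact hae _ (fun p => (hZ _ p).add ((homogeneousSubmodule σ ℂ 1).smul_mem ε (ha _ p))) _
        (hF.add ((homogeneousSubmodule _ ℂ k).smul_mem ε (hw _)))
    · rw [Equiv.sum_comp e.symm (fun i => φ i (F + ε • w i))]
      simp only [Θ, Polynomial.eval_finsetSum, Finset.smul_sum, ← Finset.sum_add_distrib]
      refine Finset.sum_congr rfl fun i _ => ?_
      simp only [φ, map_add, map_smul, hγ, hδ]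
      simp only [Polynomial.eval_add, Polynomial.eval_mul,
        Polynomial.eval_C, Polynomial.eval_X, smul_eq_C_mul]
      ring

end Pool.Agent.P.MP_c64be1_ag.Ell
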