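import Pool.Agent.P.MP_c64be1_ag.Ell.Defs

/-! The first moment count over a finite field. -/

namespace Pool.Agent.P.MP_c64be1_ag.Ell

open Module

variable {F T Q : Type} [Field F] [AddCommGroup T] [Module F T] [AddCommGroup Q] [Module F Q]

/-- For fixed `φ` the vectors `u` with `ε (∑ a, u a • φ a) = 0` form the kernel of a linear map
whose range is the image of the span of `φ`; count with `Module.card_eq_pow_finrank` (or
`Module.natCard_eq_pow_finrank`) and rank-nullity. -/
theorem card_ker [Finite F] {ι : Type} [Fintype ι] (ε : T →ₗ[F] Q) (φ : ι → T) :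
    Nat.card {u : ι → F // ε (∑ a, u a • φ a) = 0} *
      Nat.card F ^ finrank F ((Submodule.span F (Set.range φ)).map ε) =
      Nat.card F ^ Fintype.card ι := by
  classical
  let g : (ι → F) →ₗ[F] Q := ε.comp (Fintype.linearCombination F φ)
  have hr : LinearMap.range g = (Submodule.span F (Set.range φ)).map ε := by
    rw [LinearMap.range_comp, Fintype.range_linearCombination]
  have hk : Nat.card {u : ι → F // ε (∑ a, u a • φ a) = 0} = Nat.card (LinearMap.ker g) :=
    Nat.card_congr (Equiv.subtypeEquivRight fun u => by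
      rw [LinearMap.mem_ker, LinearMap.comp_apply, Fintype.linearCombination_apply])
  rw [hk, ← hr, Module.natCard_eq_pow_finrank (K := F) (V := LinearMap.ker g), ← pow_add,
    add_comm, LinearMap.finrank_range_add_finrank_ker, Module.finrank_fintype_fun_eq_card]

/-- The number of families that satisfy all equations for a fixed `φ`. -/
theorem card_sol_Count [Fintype F] [DecidableEq Q] {s : ℕ} (ε : Fin s → T →ₗ[F] Q) {ι κ : Type}
    [Fintype ι] [Fintype κ] [DecidableEq ι] [DecidableEq κ] (φ : ι → T) :
    (Finset.univ.filter fun w : Fin s → κ → ι → F =>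
        ∀ i e, ε i (∑ a, w i e a • φ a) = 0).card *
      Fintype.card F ^ (Fintype.card κ *
        ∑ i, finrank F ((Submodule.span F (Set.range φ)).map (ε i))) =
      Fintype.card (Fin s → κ → ι → F) := by
  have e : (Finset.univ.filter fun w : Fin s → κ → ι → F =>
        ∀ i e, ε i (∑ a, w i e a • φ a) = 0) =
      Fintype.piFinset fun i => Fintype.piFinset fun _ : κ =>
        Finset.univ.filter fun u : ι → F => ε i (∑ a, u a • φ a) = 0 := by
    ext w
    simp [Fintype.mem_piFinset]
  have k : ∀ i, (Finset.univ.filter fun u : ι → F => ε i (∑ a, u a • φ a) = 0).card *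
      Fintype.card F ^ finrank F ((Submodule.span F (Set.range φ)).map (ε i)) =
      Fintype.card F ^ Fintype.card ι := by
    intro i
    have := card_ker (ε i) φ
    rwa [Nat.card_eq_fintype_card, Nat.card_eq_fintype_card, Fintype.card_subtype] at this
  rw [e, Fintype.card_piFinset, Finset.mul_sum, ← Finset.prod_pow_eq_pow_sum,
    ← Finset.prod_mul_distrib, Fintype.card_pi]
  refine Finset.prod_congr rfl fun i _ => ?_
  rw [Fintype.card_piFinset, Finset.prod_const, Finset.card_univ, mul_comm (Fintype.card κ),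
    pow_mul, ← mul_pow, k, Fintype.card_fun, Fintype.card_fun]

/-- The count for a finite dimensional space. -/
theorem core_Count [Finite F] [FiniteDimensional F T] {s : ℕ} (ε : Fin s → T →ₗ[F] Q) (α β : ℕ)
    (h : ∀ S : Submodule F T, S ≠ ⊥ → β * finrank F S < α * ∑ i, finrank F (S.map (ε i))) :
    ∃ N : ℕ, ∀ (ι κ : Type) [Fintype ι] [Fintype κ], N ≤ Fintype.card ι →
      α * Fintype.card ι ≤ β * Fintype.card κ → ∃ w : Fin s → κ → ι → F,
        ∀ φ : ι → T, (∀ i e, ε i (∑ a, w i e a • φ a) = 0) → φ = 0 := by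
  classical
  have : Fintype F := Fintype.ofFinite F
  have : Finite T := Module.finite_of_finite F
  have : Fintype T := Fintype.ofFinite T
  have : Finite (Submodule F T) :=
    Finite.of_injective (fun S : Submodule F T => (S : Set T)) SetLike.coe_injective
  have : Fintype (Submodule F T) := Fintype.ofFinite _
  set C := Fintype.card (Submodule F T) with hC
  set f := Fintype.card F with hf
  have hf2 : 2 ≤ f := Fintype.one_lt_card
  refine ⟨β * C + 1, fun ι κ _ _ hN hαβ => ?_⟩
  set n := Fintype.card ι with hn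
  set m := Fintype.card κ with hm
  set Tot := Fintype.card (Fin s → κ → ι → F) with hTot
  let G : (ι → T) → Finset (Fin s → κ → ι → F) := fun φ =>
    Finset.univ.filter fun w => ∀ i e, ε i (∑ a, w i e a • φ a) = 0
  let Φ : Submodule F T → Finset (ι → T) := fun S =>
    Finset.univ.filter fun φ => Submodule.span F (Set.range φ) = S
  have hΦ : ∀ S, (Φ S).card ≤ f ^ (finrank F S * n) := by
    intro S
    have h1 : Φ S ⊆ Fintype.piFinset fun _ : ι => Finset.univ.filter fun x : T => x ∈ S := by
      intro φ hφ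
      rw [Fintype.mem_piFinset]
      intro a
      rw [Finset.mem_filter]
      refine ⟨Finset.mem_univ _, ?_⟩
      rw [← (Finset.mem_filter.1 hφ).2]
      exact Submodule.subset_span ⟨a, rfl⟩
    refine (Finset.card_le_card h1).trans (le_of_eq ?_)
    rw [Fintype.card_piFinset, Finset.prod_const, Finset.card_univ, ← Fintype.card_subtype,
      pow_mul, Module.card_eq_pow_finrank (K := F) (V := S)]
  have hG : ∀ S, S ≠ ⊥ → ∀ φ ∈ Φ S, (G φ).card * f ^ (finrank F S * n + C) ≤ Tot := by
    intro S hS φ hφ
    have e : Submodule.span F (Set.range φ) = S := (Finset.mem_filter.1 hφ).2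
    have h1 := card_sol_Count (κ := κ) ε φ
    rw [e] at h1
    have h2 := h S hS
    set ρ := ∑ i, finrank F (S.map (ε i))
    set d := finrank F S
    have h3 : β * (d * n + C) < β * (m * ρ) := by
      calc β * (d * n + C) < n * (β * d) + (β * C + 1) := by nlinarith
        _ ≤ n * (β * d + 1) := by nlinarith
        _ ≤ n * (α * ρ) := Nat.mul_le_mul_left _ h2
        _ = (α * n) * ρ := by ring
        _ ≤ (β * m) * ρ := Nat.mul_le_mul_right _ hαβ
        _ = β * (m * ρ) := by ring
    have h4 : d * n + C ≤ m * ρ := (Nat.lt_of_mul_lt_mul_left h3).le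
    exact (Nat.mul_le_mul_left _ (Nat.pow_le_pow_right (by omega) h4)).trans h1.le
  have hB : ∀ S, S ≠ ⊥ → ((Φ S).biUnion G).card * f ^ C ≤ Tot := by
    intro S hS
    have h0 : 0 < f ^ (finrank F S * n) := pow_pos (by omega) _
    refine Nat.le_of_mul_le_mul_left ?_ h0
    calc f ^ (finrank F S * n) * (((Φ S).biUnion G).card * f ^ C)
        = ((Φ S).biUnion G).card * f ^ (finrank F S * n + C) := by rw [pow_add]; ring
      _ ≤ (∑ φ ∈ Φ S, (G φ).card) * f ^ (finrank F S * n + C) :=
          Nat.mul_le_mul_right _ Finset.card_biUnion_le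
      _ = ∑ φ ∈ Φ S, (G φ).card * f ^ (finrank F S * n + C) := Finset.sum_mul _ _ _
      _ ≤ (Φ S).card * Tot := by
          simpa using Finset.sum_le_card_nsmul _ _ _ (hG S hS)
      _ ≤ f ^ (finrank F S * n) * Tot := Nat.mul_le_mul_right _ (hΦ S)
  let Bad : Finset (Fin s → κ → ι → F) :=
    (Finset.univ.filter fun S : Submodule F T => S ≠ ⊥).biUnion fun S => (Φ S).biUnion G
  have hBad : Bad.card * f ^ C ≤ C * Tot := by
    calc Bad.card * f ^ C
        ≤ (∑ S ∈ Finset.univ.filter fun S : Submodule F T => S ≠ ⊥,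
            ((Φ S).biUnion G).card) * f ^ C := Nat.mul_le_mul_right _ Finset.card_biUnion_le
      _ = ∑ S ∈ Finset.univ.filter fun S : Submodule F T => S ≠ ⊥,
            ((Φ S).biUnion G).card * f ^ C := Finset.sum_mul _ _ _
      _ ≤ (Finset.univ.filter fun S : Submodule F T => S ≠ ⊥).card * Tot := by
          simpa using Finset.sum_le_card_nsmul _ _ _
            fun S hS => hB S (Finset.mem_filter.1 hS).2
      _ ≤ C * Tot := Nat.mul_le_mul_right _ (Finset.card_le_univ _)
  have hTot0 : 0 < Tot := Fintype.card_pos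
  have hlt : Bad.card < Tot := by
    have h1 : C < f ^ C := Nat.lt_pow_self (by omega)
    refine Nat.lt_of_mul_lt_mul_right (a := f ^ C) (lt_of_le_of_lt hBad ?_)
    rw [mul_comm Tot]
    exact Nat.mul_lt_mul_of_pos_right h1 hTot0
  obtain ⟨w, -, hw⟩ := Finset.exists_mem_notMem_of_card_lt_card
    (s := Bad) (t := Finset.univ) (by rwa [Finset.card_univ])
  refine ⟨w, fun φ hφ => ?_⟩
  by_contra h0
  refine hw (Finset.mem_biUnion.2 ⟨Submodule.span F (Set.range φ),
    Finset.mem_filter.2 ⟨Finset.mem_univ _, fun e => h0 ?_⟩, Finset.mem_biUnion.2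
      ⟨φ, Finset.mem_filter.2 ⟨Finset.mem_univ _, rfl⟩,
        Finset.mem_filter.2 ⟨Finset.mem_univ _, hφ⟩⟩⟩)
  funext a
  exact Submodule.span_eq_bot.1 e _ ⟨a, rfl⟩

/-- Sketch.  `P` is finite, so it has finitely many subspaces, say `C`; take `N = β * C + 1`.
Let `f = card F ≥ 2`.  A family `w` is bad if some `φ ≠ 0` with values in `P` satisfies all the
equations.  Group `φ` by `S = span (range φ) ≠ ⊥`: there are at most `f ^ (finrank S * card ι)`
such `φ`, and for each of them the number of `w` is
`f ^ (s * card κ * card ι) / f ^ (card κ * ∑ i, rank i S)` by `card_ker`.  From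
`β * finrank S + 1 ≤ α * ∑ rank` and `α * card ι ≤ β * card κ` we get
`finrank S * card ι + C ≤ card κ * ∑ rank`, so the bad families number at most
`C * f ^ (s * card κ * card ι) / f ^ C`, less than all of them. -/
theorem counting [Finite F] {s : ℕ} (P : Submodule F T) [FiniteDimensional F P]
    (ε : Fin s → T →ₗ[F] Q) (α β : ℕ)
    (h : ∀ S : Submodule F T, S ≤ P → S ≠ ⊥ → β * finrank F S < α * ∑ i, finrank F (S.map (ε i))) :
    ∃ N : ℕ, ∀ (ι κ : Type) [Fintype ι] [Fintype κ], N ≤ Fintype.card ι →
      α * Fintype.card ι ≤ β * Fintype.card κ → ∃ w : Fin s → κ → ι → F,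
        ∀ φ : ι → T, (∀ a, φ a ∈ P) → (∀ i e, ε i (∑ a, w i e a • φ a) = 0) → φ = 0 := by
  obtain ⟨N, hN⟩ := core_Count (T := P) (fun i => (ε i).comp P.subtype) α β fun S hS => by
    have := h (S.map P.subtype) (Submodule.map_subtype_le P S) fun e => hS
      (Submodule.map_injective_of_injective P.injective_subtype (by rw [e, Submodule.map_bot]))
    rw [Submodule.finrank_map_subtype_eq] at this
    refine this.trans_eq (congrArg _ (Finset.sum_congr rfl fun i _ => ?_))
    rw [Submodule.map_comp]
  refine ⟨N, fun ι κ _ _ h1 h2 => ?_⟩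
  obtain ⟨w, hw⟩ := hN ι κ h1 h2
  refine ⟨w, fun φ hP hφ => ?_⟩
  have := hw (fun a => ⟨φ a, hP a⟩) fun i e => by
    simpa using hφ i e
  funext a
  exact congrArg Subtype.val (congrFun this a)

end Pool.Agent.P.MP_c64be1_ag.Ell
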