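import Pool.Agent.P.MP_c64be1_ag.Ell.Lin

/-! Crude covers of the monomials with a repeated block. -/

namespace Pool.Agent.P.MP_c64be1_ag.Ell

open MvPolynomial

/-- `Fintype.card_embedding_eq`, `Fintype.card_subtype_compl`. -/
theorem card_NI (j M : ℕ) : Nat.card {γ : Fin j → Fin M // ¬ Function.Injective γ} = NI j M := by
  classical
  have h1 : Fintype.card {γ : Fin j → Fin M // Function.Injective γ} = M.descFactorial j := by
    rw [Fintype.card_congr (Equiv.subtypeInjectiveEquivEmbedding (Fin j) (Fin M)),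
      Fintype.card_embedding_eq, Fintype.card_fin, Fintype.card_fin]
  rw [Nat.card_eq_fintype_card, Fintype.card_subtype_compl, h1, Fintype.card_fun, Fintype.card_fin,
    Fintype.card_fin, NI]

theorem extend_prop_Cover {α β γ : Type} {f : α → β} (hf : Function.Injective f) (g : α → γ)
    (j : β → γ) (P : γ → Prop) (hg : ∀ a, P (g a)) (hj : ∀ b, P (j b)) (b : β) :
    P (Function.extend f g j b) := by
  by_cases h : ∃ a, f a = b
  · obtain ⟨a, rfl⟩ := h
    rw [hf.extend_apply]
    exact hg a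
  · rw [Function.extend_apply' _ _ _ h]
    exact hj b

theorem exists_emb_Cover {α β : Type} [Finite α] [Finite β] (h : Nat.card α ≤ Nat.card β) :
    ∃ f : α → β, Function.Injective f := by
  have := Fintype.ofFinite α
  have := Fintype.ofFinite β
  rw [Nat.card_eq_fintype_card, Nat.card_eq_fintype_card] at h
  obtain ⟨f⟩ := Function.Embedding.nonempty_of_card_le h
  exact ⟨f, f.injective⟩

theorem prod_erase_zero_Cover {A : Type} [CommMonoid A] {k : ℕ} (f : Fin (k + 1) → A) :
    ∏ t ∈ Finset.univ.erase (0 : Fin (k + 1)), f t = ∏ u : Fin k, f u.succ := by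
  have h : Finset.univ.erase (0 : Fin (k + 1)) = Finset.univ.map (Fin.succEmb k) := by
    ext t
    refine Fin.cases ?_ (fun u => ?_) t
    · simp
    · simp
  rw [h, Finset.prod_map]
  rfl

/-- Embed `ι` in `Fin H × Fin g`.  An object is a non-injective `γ : Fin k → Fin M` with
`h : Fin k → Fin H`; `z (γ, h) g t` is the variable `(γ t, a)` if `a` has code `(h t, g)`, and zero
if there is no such `a`.  Use `prod_mem_pow`. -/
theorem cover1 {ι : Type} [Fintype ι] {k M g H s : ℕ} (hH : Fintype.card ι ≤ H * g)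
    (hs : NI k M * H ^ k ≤ s) : ∃ z : Fin s → Fin g → Fin k → MvPolynomial (Fin M × ι) ℂ,
      (∀ i g t, (z i g t).IsHomogeneous 1) ∧ ∀ p : Fin k → Fin M × ι,
        ¬ Function.Injective (fun t => (p t).1) → ∏ t, X (p t) ∈ Tan z := by
  obtain ⟨c, hc⟩ := exists_emb_Cover (α := ι) (β := Fin H × Fin g) (by
    rw [Nat.card_eq_fintype_card, Nat.card_prod, Nat.card_fin, Nat.card_fin]
    exact hH)
  obtain ⟨e, he⟩ := exists_emb_Cover
    (α := {γ : Fin k → Fin M // ¬ Function.Injective γ} × (Fin k → Fin H)) (β := Fin s) (by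
    rw [Nat.card_prod, card_NI, Nat.card_fun, Nat.card_fin, Nat.card_fin, Nat.card_fin]
    exact hs)
  let z' : {γ : Fin k → Fin M // ¬ Function.Injective γ} × (Fin k → Fin H) → Fin g → Fin k →
      MvPolynomial (Fin M × ι) ℂ := fun o a t =>
    Function.extend c (fun b => (X (o.1.1 t, b) : MvPolynomial (Fin M × ι) ℂ)) (fun _ => 0)
      (o.2 t, a)
  refine ⟨Function.extend e z' (fun _ _ _ => 0), fun i => ?_, fun p hp => ?_⟩
  · refine extend_prop_Cover he z' _ (fun y => ∀ a t, (y a t).IsHomogeneous 1) ?_ ?_ i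
    · intro o a t
      exact extend_prop_Cover hc _ _ (fun y : MvPolynomial (Fin M × ι) ℂ => y.IsHomogeneous 1)
        (fun b => isHomogeneous_X _ _) (fun b => isHomogeneous_zero _ _ _) _
    · intro b a t
      exact isHomogeneous_zero _ _ _
  · let o : {γ : Fin k → Fin M // ¬ Function.Injective γ} × (Fin k → Fin H) :=
      (⟨fun t => (p t).1, hp⟩, fun t => (c (p t).2).1)
    refine Submodule.mem_sup_left (Submodule.mem_iSup_of_mem (e o) ?_)
    refine prod_mem_pow _ _ fun t => Submodule.subset_span ⟨((c (p t).2).2, t), ?_⟩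
    change Function.extend e z' (fun _ _ _ => 0) (e o) (c (p t).2).2 t = X (p t)
    rw [he.extend_apply]
    change Function.extend c (fun b => (X ((p t).1, b) : MvPolynomial (Fin M × ι) ℂ)) (fun _ => 0)
      (c (p t).2) = X (p t)
    rw [hc.extend_apply]

/-- Embed the maps `p' : Fin k → Fin M × ι` with a repeated block in `Fin s × Fin g` and put
`z (code p') = Fin.cons 0 fun t => X (p' t)`.  For `p` with `t₁ ≠ t₂` in one block take
`t₀ ∉ {t₁, t₂}` and `p' = p ∘ t₀.succAbove` (`Fin.prod_univ_succAbove`). -/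
theorem cover2 {ι : Type} [Fintype ι] {k M g s : ℕ} (hk : 2 ≤ k)
    (hs : NI k M * Fintype.card ι ^ k ≤ s * g) :
    ∃ z : Fin s → Fin g → Fin (k + 1) → MvPolynomial (Fin M × ι) ℂ,
      (∀ i g t, (z i g t).IsHomogeneous 1) ∧ ∀ p : Fin (k + 1) → Fin M × ι,
        ¬ Function.Injective (fun t => (p t).1) → ∏ t, X (p t) ∈ Tan z := by
  obtain ⟨e, he⟩ := exists_emb_Cover
    (α := {γ : Fin k → Fin M // ¬ Function.Injective γ} × (Fin k → ι)) (β := Fin s × Fin g) (by
    rw [Nat.card_prod, card_NI, Nat.card_fun, Nat.card_prod, Nat.card_fin, Nat.card_fin,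
      Nat.card_fin, Nat.card_eq_fintype_card]
    exact hs)
  let z' : {γ : Fin k → Fin M // ¬ Function.Injective γ} × (Fin k → ι) → Fin (k + 1) →
      MvPolynomial (Fin M × ι) ℂ := fun o =>
    Fin.cons 0 fun t => X (o.1.1 t, o.2 t)
  refine ⟨fun i a => Function.extend e z' (fun _ _ => 0) (i, a), fun i a => ?_, fun p hp => ?_⟩
  · refine extend_prop_Cover he z' _ (fun y => ∀ t, (y t).IsHomogeneous 1) ?_ ?_ (i, a)
    · intro o t
      refine Fin.cases ?_ (fun u => ?_) t
      · exact isHomogeneous_zero _ _ _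
      · exact isHomogeneous_X _ _
    · intro b t
      exact isHomogeneous_zero _ _ _
  · obtain ⟨t₁, t₂, h12, hne⟩ := Function.not_injective_iff.1 hp
    obtain ⟨t₀, ht₀⟩ : ∃ t₀ : Fin (k + 1), t₀ ∉ ({t₁, t₂} : Finset (Fin (k + 1))) := by
      refine Finset.exists_mem_notMem_of_card_lt_card (s := {t₁, t₂}) (t := Finset.univ) ?_
        |>.imp fun t ht => ht.2
      have h2 : ({t₁, t₂} : Finset (Fin (k + 1))).card ≤ 2 := Finset.card_le_two
      rw [Finset.card_univ, Fintype.card_fin]
      omega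
    rw [Finset.mem_insert, Finset.mem_singleton, not_or] at ht₀
    obtain ⟨u₁, rfl⟩ := Fin.exists_succAbove_eq (Ne.symm ht₀.1)
    obtain ⟨u₂, rfl⟩ := Fin.exists_succAbove_eq (Ne.symm ht₀.2)
    have hni : ¬ Function.Injective fun u : Fin k => (p (t₀.succAbove u)).1 :=
      fun hi => hne (congrArg t₀.succAbove (hi h12))
    let o : {γ : Fin k → Fin M // ¬ Function.Injective γ} × (Fin k → ι) :=
      (⟨fun u => (p (t₀.succAbove u)).1, hni⟩, fun u => (p (t₀.succAbove u)).2)
    refine Submodule.mem_sup_right (Submodule.mem_iSup_of_mem (e o).1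
      (Submodule.mem_iSup_of_mem (e o).2 (Submodule.mem_iSup_of_mem 0 ?_)))
    rw [Fin.prod_univ_succAbove _ t₀]
    refine Submodule.mul_mem_mul (isHomogeneous_X _ _) (Submodule.subset_span ?_)
    rw [Set.mem_singleton_iff, prod_erase_zero_Cover]
    change _ = ∏ u : Fin k, Function.extend e z' (fun _ _ => 0) (e o) u.succ
    rw [he.extend_apply]
    rfl

theorem Tan_le_left {σ I I' Γ : Type} {k : ℕ} (z : I → Γ → Fin k → MvPolynomial σ ℂ)
    (z' : I' → Γ → Fin k → MvPolynomial σ ℂ) : Tan z ≤ Tan (Sum.elim z z') := by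
  refine sup_le_sup (iSup_le fun i => ?_) (iSup_le fun i => ?_)
  · exact le_iSup_of_le (Sum.inl i) le_rfl
  · exact le_iSup_of_le (Sum.inl i) le_rfl

theorem Tan_le_right {σ I I' Γ : Type} {k : ℕ} (z : I → Γ → Fin k → MvPolynomial σ ℂ)
    (z' : I' → Γ → Fin k → MvPolynomial σ ℂ) : Tan z' ≤ Tan (Sum.elim z z') := by
  refine sup_le_sup (iSup_le fun i => ?_) (iSup_le fun i => ?_)
  · exact le_iSup_of_le (Sum.inr i) le_rfl
  · exact le_iSup_of_le (Sum.inr i) le_rfl

end Pool.Agent.P.MP_c64be1_ag.Ell
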