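import Pool.Agent.P.MP_c64be1_ag.Ell.Count

/-! Adding a tensor factor. -/

namespace Pool.Agent.P.MP_c64be1_ag.Ell

open Module

variable {F T Q I J ι κ W : Type} [Field F] [AddCommGroup T] [Module F T] [AddCommGroup Q]
  [Module F Q]

/-- Reindex by `Equiv.arrowProdEquivProdArrow`; the product vanishes unless the second components
are `m`. -/
theorem sum_infl [Fintype J] [DecidableEq J] [Fintype ι] [Fintype W] [DecidableEq W]
    (u : J → ι → F) (m : J → W) (f : (J → ι × W) → Q) :
    ∑ A : J → ι × W, (∏ t, infl (u t) (m t) (A t)) • f A =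
      ∑ a : J → ι, (∏ t, u t (a t)) • f fun t => (a t, m t) := by
  refine (Fintype.sum_of_injective (fun (a : J → ι) t => (a t, m t))
    (fun a b hab => funext fun t => congrArg Prod.fst (congrFun hab t)) _ _ (fun A hA => ?_)
    fun a => ?_).symm
  · obtain ⟨t, ht⟩ : ∃ t, (A t).2 ≠ m t := by
      by_contra hc
      refine hA ⟨fun t => (A t).1, funext fun t => Prod.ext rfl ?_⟩
      by_contra h1
      exact hc ⟨t, fun h2 => h1 h2.symm⟩
    rw [Finset.prod_eq_zero (Finset.mem_univ t) (by rw [infl, if_neg ht]), zero_smul]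
  · simp only [infl, if_true]

theorem sum_succ_Tens [Fintype ι] {j : ℕ} (U : Fin (j + 1) → ι → F)
    (f : (Fin (j + 1) → ι) → Q) :
    ∑ A : Fin (j + 1) → ι, (∏ t, U t (A t)) • f A =
      ∑ a₀ : ι, U 0 a₀ • ∑ a : Fin j → ι, (∏ t, U t.succ (a t)) • f (Fin.cons a₀ a) := by
  rw [← (Fin.consEquiv fun _ : Fin (j + 1) => ι).sum_comp, Fintype.sum_prod_type]
  refine Finset.sum_congr rfl fun a₀ _ => ?_
  rw [Finset.smul_sum]
  refine Finset.sum_congr rfl fun a _ => ?_
  rw [smul_smul, Fin.prod_univ_succ]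
  rfl

/-- Reindex by `Fin.consEquiv` (or `Fin.insertNthEquiv`), `Fin.prod_univ_succ`. -/
theorem sum_cons [Fintype ι] {j : ℕ} (u₀ : ι → F) (u : Fin j → ι → F)
    (f : (Fin (j + 1) → ι) → Q) :
    ∑ A : Fin (j + 1) → ι, (∏ t, (Fin.cons u₀ u : Fin (j + 1) → ι → F) t (A t)) • f A =
      ∑ a₀ : ι, u₀ a₀ • ∑ a : Fin j → ι, (∏ t, u t (a t)) • f (Fin.cons a₀ a) := by
  rw [sum_succ_Tens]
  simp only [Fin.cons_zero, Fin.cons_succ]

theorem pfill_infl [Fintype J] [DecidableEq J] [Fintype ι] [Fintype W] [DecidableEq W]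
    {u : I → J → ι → F} (h : PFill u) :
    PFill fun (p : I × (J → W)) t => infl (u p.1 t) (p.2 t) := by
  intro ψ hψ
  funext A
  have h1 := h (fun a => ψ fun t => (a t, (A t).2)) fun i => by
    have h2 := sum_infl (Q := F) (u i) (fun t => (A t).2) ψ
    simp only [smul_eq_mul] at h2
    rw [← h2]
    exact hψ (i, fun t => (A t).2)
  exact congrFun h1 fun t => (A t).1

theorem tfill_infl [Fintype J] [DecidableEq J] [Fintype ι] [Fintype W] [DecidableEq W]
    {v : I → J → κ → ι → F} (h : TFill v) :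
    TFill fun i t (e : κ × W) => infl (v i t e.1) e.2 := by
  intro ψ hψ
  exact pfill_infl (W := W) h ψ fun p => hψ (p.1.1, fun t => (p.1.2 t, p.2 t))

/-- Dropping the first factor: apply `h` to `A ↦ if A 0 = a₀ then ψ (tail A) else 0`. -/
theorem tfill_tail [Fintype ι] [Nonempty ι] {j : ℕ} {v : I → Fin (j + 1) → κ → ι → F}
    (h : TFill v) : TFill fun i (t : Fin j) => v i t.succ := by
  intro ψ hψ
  have h1 := h (fun A => ψ (Fin.tail A)) fun p => by
    have h2 := sum_succ_Tens (Q := F) (fun t => v p.1 t (p.2 t)) fun A => ψ (Fin.tail A)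
    simp only [smul_eq_mul, Fin.tail_cons] at h2
    rw [h2]
    exact Finset.sum_eq_zero fun a₀ _ => mul_eq_zero_of_right _ (hψ (p.1, fun t => p.2 t.succ))
  funext a
  have h3 := congrFun h1 (Fin.cons (Classical.arbitrary ι) a)
  rw [Fin.tail_cons] at h3
  exact h3

theorem tfill_of_test [Fintype J] [DecidableEq J] [Fintype ι] {v : I → J → κ → ι → F}
    (h : Test (prodc v) (fun _ => (LinearMap.id : F →ₗ[F] F)) ⊤) : TFill v := by
  intro ψ hψ
  exact h ψ (fun _ => Submodule.mem_top) fun i => funext fun e => hψ (i, e)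

/-- With no factor the test is the injectivity of the maps `ev i` on `P`. -/
theorem test_zero [Fintype ι] (v : I → Fin 0 → κ → ι → F) (ev : I → T →ₗ[F] Q)
    (P : Submodule F T) (h : ∀ g ∈ P, (∀ i, ev i g = 0) → g = 0) : Test (prodc v) ev P := by
  intro φ hφ h0
  funext a
  refine h (φ a) (hφ a) fun i => ?_
  have h1 := congrFun (h0 i) Fin.elim0
  rw [eps_apply, Fintype.sum_eq_single a fun b hb => absurd (Subsingleton.elim b a) hb] at h1
  simpa [prodc] using h1

/-- Sketch.  Apply `counting` to the space `(Fin j → ι) → T`, the subspace `pi P`, the maps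
`eps (prodc v i) (ev i)`, `α = card κ`, `β = card ι` and the index types `ι × Fin n`, `κ × Fin n`
with `n = N + 1`; this gives `w`.  Put `v' i = Fin.cons (w i) fun t e => infl (v i t e.1) e.2`.
Given `Φ` and `A`, fix `μ t = (A t.succ).2`, let `φ a₀ a = Φ (cons a₀ fun t => (a t, μ t))`; the
equations for `cons e₀ fun t => (e t, μ t)` become those for `φ` by `sum_cons`, `sum_infl`. -/
theorem step_factor [Finite F] [Fintype ι] [Nonempty ι] [Fintype κ] {s j : ℕ}
    (v : Fin s → Fin j → κ → ι → F) (ev : Fin s → T →ₗ[F] Q) (P : Submodule F T)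
    [FiniteDimensional F P]
    (h : ∀ S : Submodule F ((Fin j → ι) → T), S ≤ (Submodule.pi Set.univ fun _ => P) → S ≠ ⊥ →
      Fintype.card ι * finrank F S <
        Fintype.card κ * ∑ i, finrank F (S.map (eps (prodc v i) (ev i)))) :
    ∃ (n : ℕ) (v' : Fin s → Fin (j + 1) → κ × Fin (n + 1) → ι × Fin (n + 1) → F),
      Test (prodc v') ev P := by
  have : FiniteDimensional F (Submodule.pi Set.univ fun _ : Fin j → ι => P) := by
    refine Submodule.finiteDimensional_of_le
      (S₂ := LinearMap.range (P.subtype.compLeft (Fin j → ι))) fun φ hφ => ?_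
    exact ⟨fun a => ⟨φ a, hφ a (Set.mem_univ a)⟩, rfl⟩
  obtain ⟨N, hN⟩ := counting (Submodule.pi Set.univ fun _ : Fin j → ι => P)
    (fun i => eps (prodc v i) (ev i)) (Fintype.card κ) (Fintype.card ι) h
  obtain ⟨w, hw⟩ := hN (ι × Fin (N + 1)) (κ × Fin (N + 1))
    (by
      rw [Fintype.card_prod, Fintype.card_fin]
      exact (Nat.le_succ N).trans (Nat.le_mul_of_pos_left _ Fintype.card_pos))
    (by
      rw [Fintype.card_prod, Fintype.card_prod]
      exact (mul_left_comm _ _ _).le)
  refine ⟨N, fun i => Fin.cons (w i) fun t e => infl (v i t e.1) e.2, fun Φ hΦ h0 => ?_⟩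
  funext A
  have h1 := hw (fun a₀ a => Φ (Fin.cons a₀ fun t => (a t, (A t.succ).2)))
    (fun a₀ a _ => hΦ _) fun i e₀ => by
      funext e
      have h2 := congrFun (h0 i) (Fin.cons e₀ fun t => (e t, (A t.succ).2))
      rw [eps_apply] at h2
      unfold prodc at h2
      rw [sum_succ_Tens (fun t => (Fin.cons (w i) fun t e => infl (v i t e.1) e.2 :
        Fin (j + 1) → κ × Fin (N + 1) → ι × Fin (N + 1) → F) t
          ((Fin.cons e₀ fun t => (e t, (A t.succ).2) : Fin (j + 1) → κ × Fin (N + 1)) t))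
        fun B => ev i (Φ B)] at h2
      simp only [Fin.cons_zero, Fin.cons_succ, sum_infl] at h2
      rw [map_sum, Finset.sum_apply]
      refine Eq.trans (Finset.sum_congr rfl fun a₀ _ => ?_) h2
      rw [map_smul, Pi.smul_apply]
      rfl
  have h3 := congrFun (congrFun h1 (A 0)) fun t => (A t.succ).1
  have h4 : (Fin.cons (A 0) fun t => ((A t.succ).1, (A t.succ).2) :
      Fin (j + 1) → ι × Fin (N + 1)) = A := Fin.cons_self_tail A
  rw [h4] at h3
  exact h3

end Pool.Agent.P.MP_c64be1_ag.Ell
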