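import Pool.Agent.P.MP_c64be1_ag.Ell.Defs2
import Pool.Agent.P.MP_c64be1_ag.Ell.Tens

/-! Filling a tensor space with points and lines of all directions. -/

namespace Pool.Agent.P.MP_c64be1_ag.Ell

theorem PFill.mono {F I I' J ι : Type} [Field F] [Fintype J] [DecidableEq J] [Fintype ι]
    {u : I → J → ι → F} {u' : I' → J → ι → F} (h : PFill u) (h' : ∀ i, ∃ i', u' i' = u i) :
    PFill u' := by
  intro ψ hψ
  refine h ψ fun i => ?_
  obtain ⟨i', e⟩ := h' i
  rw [← e]
  exact hψ i'

theorem pfill_of_single {F I J ι : Type} [Field F] [Fintype J] [DecidableEq J] [Fintype ι]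
    [DecidableEq ι] {u : I → J → ι → F} (h : ∀ a : J → ι, ∃ i, ∀ t, u i t = Pi.single (a t) 1) :
    PFill u := by
  intro ψ hψ
  funext a
  obtain ⟨i, hi⟩ := h a
  have h1 := hψ i
  simp only [hi] at h1
  rw [Finset.sum_eq_single a] at h1
  · simpa using h1
  · intro b _ hb
    obtain ⟨t, ht⟩ := Function.ne_iff.1 hb
    rw [Finset.prod_eq_zero (Finset.mem_univ t) (Pi.single_eq_of_ne ht _), zero_mul]
  · intro h2
    exact absurd (Finset.mem_univ a) h2

theorem list_Mix {X B : Type} [Nonempty X] [Fintype B] (S : Finset X)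
    (h : S.card ≤ Fintype.card B) : ∃ g : B → X, ∀ x ∈ S, ∃ b, x = g b := by
  obtain ⟨e⟩ := Function.Embedding.nonempty_of_card_le (α := S) (β := B) (by simpa using h)
  refine ⟨Function.extend e Subtype.val fun _ => Classical.arbitrary X, fun x hx => ⟨e ⟨x, hx⟩, ?_⟩⟩
  rw [e.injective.extend_apply]

/-- The lines in direction `t₀` are indexed by `{t // t ≠ t₀} → L`; choose `min μ (their number)`
of them and list the remaining points. -/
theorem slice_cover {J L : Type} [Fintype J] [DecidableEq J] [Fintype L] [Nonempty L] (t₀ : J)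
    {A B : Type} [Fintype A] [Fintype B]
    (h : Fintype.card L ^ Fintype.card J ≤ Fintype.card A * Fintype.card L + Fintype.card B) :
    ∃ (f : A → J → L) (g : B → J → L), ∀ a : J → L,
      (∃ l, ∀ t, t ≠ t₀ → a t = f l t) ∨ ∃ l, a = g l := by
  classical
  rcases le_total (Fintype.card ({t // t ≠ t₀} → L)) (Fintype.card A) with h1 | h1
  · obtain ⟨f, hf⟩ := list_Mix (B := A) (Finset.univ : Finset ({t // t ≠ t₀} → L)) h1
    refine ⟨fun l t => if ht : t ≠ t₀ then f l ⟨t, ht⟩ else Classical.arbitrary L,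
      fun _ _ => Classical.arbitrary L, fun a => Or.inl ?_⟩
    obtain ⟨l, hl⟩ := hf (fun t => a t) (Finset.mem_univ _)
    exact ⟨l, fun t ht => by simp only [dif_pos ht, ← hl]⟩
  · obtain ⟨e⟩ := Function.Embedding.nonempty_of_card_le h1
    let f : A → J → L := fun l t => if ht : t ≠ t₀ then e l ⟨t, ht⟩ else Classical.arbitrary L
    let r : A × L → J → L := fun p => Function.update (f p.1) t₀ p.2
    have hr : Function.Injective r := by
      rintro ⟨l, c⟩ ⟨l', c'⟩ hp
      have e1 : c = c' := by simpa [r] using congrFun hp t₀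
      have e2 : e l = e l' := by
        funext t
        have := congrFun hp t.1
        simpa only [r, f, Function.update_of_ne t.2, dif_pos t.2] using this
      rw [e1, e.injective e2]
    obtain ⟨g, hg⟩ := list_Mix (B := B) (Finset.univ \ Finset.univ.image r) (by
      rw [Finset.card_univ_sdiff, Finset.card_image_of_injective _ hr, Finset.card_univ,
        Fintype.card_prod, Fintype.card_fun]
      omega)
    refine ⟨f, g, fun a => ?_⟩
    by_cases ha : a ∈ Finset.univ.image r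
    · obtain ⟨p, -, rfl⟩ := Finset.mem_image.1 ha
      exact Or.inl ⟨p.1, fun t ht => Function.update_of_ne ht _ _⟩
    · exact Or.inr (hg a (Finset.mem_sdiff.2 ⟨Finset.mem_univ _, ha⟩))

/-- Slices along the first factor (`sum_cons`). -/
theorem pfill_slices {F I ι : Type} [Field F] [Fintype ι] [DecidableEq ι] {k : ℕ}
    {u : I → Fin (k + 1) → ι → F} {I' : ι → Type} (u' : ∀ a, I' a → Fin k → ι → F)
    (h : ∀ a, PFill (u' a)) (h' : ∀ a i', ∃ i, u i = Fin.cons (Pi.single a 1) (u' a i')) :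
    PFill u := by
  intro ψ hψ
  funext A
  have h1 := h (A 0) (fun a => ψ (Fin.cons (A 0) a)) fun i' => by
    obtain ⟨i, hi⟩ := h' (A 0) i'
    have h2 := hψ i
    have h3 := sum_cons (Pi.single (A 0) (1 : F)) (u' (A 0) i') ψ
    simp only [smul_eq_mul] at h3
    rw [hi, h3, Finset.sum_eq_single (A 0)] at h2
    · simpa using h2
    · intro b _ hb
      rw [Pi.single_eq_of_ne hb, zero_mul]
    · intro h4
      exact absurd (Finset.mem_univ _) h4
  have h2 := congrFun h1 (Fin.tail A)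
  simpa using h2

theorem gen_pfill_Mix {κ I J ι : Type} [Fintype J] [DecidableEq J] [Fintype ι]
    (u : (κ → ℂ) → I → J → ι → ℂ) (hu : ∀ i t b, (fun x => u x i t b) ∈ Sh.PF κ) {x₀ : κ → ℂ}
    (h : PFill (u x₀)) : ∀ᶠ x in Sh.gen κ, PFill (u x) :=
  Sh.gen_inj (fun i (a : J → ι) x => ∏ t, u x i t (a t))
    (fun i a => Sh.PF_prod _ fun t _ => hu i t (a t)) h

/-- The points and lines that are used in the slice `a`. -/
def slFam_Mix {J H Λ P : Type} [DecidableEq J] [DecidableEq H]
    (V : ((J × H) × P) ⊕ (H × Λ) ⊕ ((J × H) × Λ) → J → J × H → ℂ) (a : J × H) :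
    (P ⊕ (H × Λ)) ⊕ (Λ × (J × H)) → J → J × H → ℂ
  | Sum.inl (Sum.inl l) => V (Sum.inl (a, l))
  | Sum.inl (Sum.inr l) => V (Sum.inr (Sum.inl l))
  | Sum.inr p => Function.update (V (Sum.inr (Sum.inr (a, p.1)))) a.1 (Pi.single p.2 1)

theorem slice_gen_Mix {J H Λ P : Type} [Fintype J] [DecidableEq J] [Fintype H] [DecidableEq H]
    [Fintype Λ] [Fintype P] (a : J × H)
    (hn : Fintype.card (J × H) ^ Fintype.card J ≤
      Fintype.card Λ * Fintype.card (J × H) + Fintype.card (P ⊕ (H × Λ))) :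
    ∀ᶠ x in Sh.gen ((((J × H) × P) ⊕ (H × Λ) ⊕ ((J × H) × Λ)) × J × (J × H)),
      PFill (slFam_Mix (fun i t b => x (i, t, b)) a) := by
  have : Nonempty (J × H) := ⟨a⟩
  obtain ⟨f, g, hfg⟩ := slice_cover a.1 hn
  let G : ((J × H) × P) ⊕ (H × Λ) ⊕ ((J × H) × Λ) → J → J × H :=
    Sum.elim (fun p => g (Sum.inl p.2)) (Sum.elim (fun l => g (Sum.inr l)) fun p => f p.2)
  refine gen_pfill_Mix (fun x => slFam_Mix (fun i t b => x (i, t, b)) a) (fun i t b => ?_)
    (x₀ := fun q => (Pi.single (G q.1 q.2.1) 1 : J × H → ℂ) q.2.2) (pfill_of_single fun α => ?_)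
  · rcases i with (l | l) | p
    · exact Sh.PF_coord _
    · exact Sh.PF_coord _
    · by_cases ht : t = a.1
      · simp only [slFam_Mix, ht, Function.update_self]
        exact Sh.PF_const _
      · simp only [slFam_Mix, Function.update_of_ne ht]
        exact Sh.PF_coord _
  · rcases hfg α with ⟨l, hl⟩ | ⟨l | l, rfl⟩
    · refine ⟨Sum.inr (l, α a.1), fun t => ?_⟩
      by_cases ht : t = a.1
      · simp only [slFam_Mix, ht, Function.update_self]
      · simp only [slFam_Mix, Function.update_of_ne ht, hl t ht]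
        rfl
    · exact ⟨Sum.inl (Sum.inl l), fun t => rfl⟩
    · exact ⟨Sum.inl (Sum.inr l), fun t => rfl⟩

/-- Sketch (`L = Fin k × Fin h`).  Parameters: vectors `y p t`, `Y t₀ l t` in the last `k` factors.
The slice `a = (t', c)` uses the points `y (a, l)`, the lines `Y t'.succ (c, l)` in direction `t'`
and the points `Y 0 l` (shared by all slices).  For each slice `slice_cover` (with `A = Fin μ`,
`B = (Fin h × Fin μ) ⊕ Fin π`) and `pfill_of_single` give a parameter value where the slice is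
filled, so all slices are filled generically (`Sh.gen_inj`).  Prepend the basis vector of the slice
as first factor and use `pfill_slices`. -/
theorem mix_one (k h μ π : ℕ) (hk : 0 < k) (hh : 0 < h) (hn : (k * h) ^ k ≤ (k + 1) * h * μ + π) :
    ∃ (y : (Fin k × Fin h) × Fin π → Fin (k + 1) → Unit → Fin k × Fin h → ℂ)
      (Y : Fin (k + 1) → Fin h × Fin μ → Fin (k + 1) → Fin k × Fin h → ℂ),
      PFill (mixFam y Y) := by
  have h1 := fun a : Fin k × Fin h => slice_gen_Mix (Λ := Fin μ) (P := Fin π) a (by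
    simp only [Fintype.card_prod, Fintype.card_sum, Fintype.card_fin]
    exact hn.trans (le_of_eq (by ring)))
  obtain ⟨x, hx⟩ := (Filter.eventually_all.2 h1).exists
  let V : ((Fin k × Fin h) × Fin π) ⊕ (Fin h × Fin μ) ⊕ ((Fin k × Fin h) × Fin μ) → Fin k →
      Fin k × Fin h → ℂ := fun i t b => x (i, t, b)
  let Y : Fin (k + 1) → Fin h × Fin μ → Fin (k + 1) → Fin k × Fin h → ℂ :=
    Fin.cons (fun l => Fin.cons 0 (V (Sum.inr (Sum.inl l)))) fun t' l =>
      Fin.cons (Pi.single (t', l.1) 1) (V (Sum.inr (Sum.inr ((t', l.1), l.2))))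
  refine ⟨fun p t _ => (Fin.cons (Pi.single p.1 1) (V (Sum.inl p)) :
    Fin (k + 1) → Fin k × Fin h → ℂ) t, Y, pfill_slices (fun a => slFam_Mix V a) hx ?_⟩
  rintro a ((l | l) | p)
  · exact ⟨Sum.inl ((a, l), fun _ => ()), rfl⟩
  · refine ⟨Sum.inr (0, l, a), ?_⟩
    simp only [mixFam, Y, Fin.cons_zero, Fin.update_cons_zero, slFam_Mix]
  · refine ⟨Sum.inr (a.1.succ, (a.2, p.1), p.2), ?_⟩
    simp only [mixFam, Y, Fin.cons_succ, slFam_Mix, Fin.cons_update]

theorem infl_single_Mix {L W : Type} [DecidableEq L] [DecidableEq W] (a : L) (m : W) :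
    infl (Pi.single a (1 : ℂ)) m = Pi.single (a, m) 1 := by
  funext p
  simp only [infl, Pi.single_apply, Prod.ext_iff]
  by_cases h1 : p.1 = a <;> by_cases h2 : p.2 = m <;> simp [h1, h2]

/-- `pfill_infl` and `PFill.mono`, with `Y' t₀ (l, m) t = infl (Y t₀ l t) (Fin.insertNth t₀ w₀ m t)`
and `infl (Pi.single a 1) m = Pi.single (a, m) 1`. -/
theorem mix_infl {P Λ L W : Type} [Fintype L] [DecidableEq L] [Fintype W] [DecidableEq W]
    [Nonempty W] {k : ℕ} {y : P → Fin (k + 1) → Unit → L → ℂ}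
    {Y : Fin (k + 1) → Λ → Fin (k + 1) → L → ℂ} (h : PFill (mixFam y Y)) :
    ∃ (y' : P → Fin (k + 1) → W → L × W → ℂ)
      (Y' : Fin (k + 1) → Λ × (Fin k → W) → Fin (k + 1) → L × W → ℂ), PFill (mixFam y' Y') := by
  refine ⟨fun p t w => infl (y p t ()) w, fun t₀ q t => infl (Y t₀ q.1 t)
    ((Fin.insertNth t₀ (Classical.arbitrary W) q.2 : Fin (k + 1) → W) t),
    (pfill_infl (W := W) h).mono ?_⟩
  rintro ⟨⟨p, e⟩ | ⟨t₀, l, a⟩, m⟩
  · exact ⟨Sum.inl (p, m), rfl⟩
  · refine ⟨Sum.inr (t₀, (l, Fin.removeNth t₀ m), (a, m t₀)), funext fun t => ?_⟩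
    by_cases ht : t = t₀
    · simp only [mixFam, ht, Function.update_self, infl_single_Mix]
    · simp only [mixFam, Function.update_of_ne ht, Fin.insertNth_removeNth]

end Pool.Agent.P.MP_c64be1_ag.Ell
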