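import Pool.Agent.P.MP_c64be1_ag.Ell.Lin
import Pool.Agent.P.MP_c64be1_ag.Ell.Mix

/-! The main objects for small `r / n`. -/

namespace Pool.Agent.P.MP_c64be1_ag.Ell

open MvPolynomial

/-- The index set of the product vectors that the parameters `x` produce in the blocks `β`. -/
def DIdx {k M : ℕ} (s c : ℕ) (ι : Type) (β : Fin k → Fin M) : Type :=
  {p : Fin s × (Fin k → Finset (Fin M) × Fin c) // ∀ t, (p.2 t).1.card = k ∧ β t ∈ (p.2 t).1} ⊕
  {p : (Fin s × Finset (Fin M) × Fin c) × Fin M × Fin k × ι // p.1.2.1.card = k ∧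
    p.2.1 ∈ p.1.2.1 ∧ p.1.2.1.erase p.2.1 = (Finset.univ.erase p.2.2.1).image β}

/-- The product vectors that the parameters `x` produce in the blocks `β`. -/
def dFam {k M s c : ℕ} {ι : Type} [DecidableEq ι] (β : Fin k → Fin M)
    (x : (Fin s × Finset (Fin M) × Fin c) × Fin M × ι → ℂ) : DIdx s c ι β → Fin k → ι → ℂ
  | Sum.inl p => fun t a => x ((p.1.1, p.1.2 t), β t, a)
  | Sum.inr p => Function.update (fun t a => x (p.1.1, β t, a)) p.1.2.2.1 (Pi.single p.1.2.2.2 1)

end Pool.Agent.P.MP_c64be1_ag.Ell
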