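import Pool.Agent.P.MP_c64be1_ag.Ell.DDefs

/-! The main objects for small `r / n`. -/

namespace Pool.Agent.P.MP_c64be1_ag.Ell

open MvPolynomial

/-- Sketch.  Let `Bs = univ.image β`.  Choose injections `eP : P → Fin s`,
`eW : W → Finset (Fin M) × Fin c` with first components in `powersetCard (k - 1) Bsᶜ`, and
`eΛ : Λ → Fin s × Finset (Fin M) × Fin c` whose middle components are singletons `{b'}`, `b' ∉ Bs`.
Define `x ((i, G, j), b, a)`: if `(G ∩ Bs).card = 1` it is `y p t m a` for `i = eP p`,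
`(G \ Bs, j) = eW m`, `b = β t`; otherwise it is `Y t₀ l t a` for `(i, G \ Bs, j) = eΛ l`,
`Bs \ G = {β t₀}`, `b = β t` (`Function.extend`, value zero elsewhere).  The members of
`mixFam y Y` occur for `G t = insert (β t) (eW (m t)).1` and for `G = insert b' (Bs.erase (β t₀))`
(here `(G ∩ Bs).card = k - 1 ≠ 1`).  Conclude with `PFill.mono`. -/
theorem design_point {P W Λ ι : Type} [Fintype P] [Fintype W] [Fintype Λ] [Fintype ι]
    [DecidableEq ι] {k M c s : ℕ} (hk : 3 ≤ k) {y : P → Fin k → W → ι → ℂ}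
    {Y : Fin k → Λ → Fin k → ι → ℂ} (h : PFill (mixFam y Y)) (hP : Fintype.card P ≤ s)
    (hW : Fintype.card W ≤ (M - k).choose (k - 1) * c) (hΛ : Fintype.card Λ ≤ s * (M - k) * c)
    (β : Fin k → Fin M) (hβ : Function.Injective β) :
    ∃ x : (Fin s × Finset (Fin M) × Fin c) × Fin M × ι → ℂ, PFill (dFam β x) := by
  classical
  set Bs : Finset (Fin M) := Finset.univ.image β with hBs
  have hBc : Bs.card = k := by
    rw [hBs, Finset.card_image_of_injective _ hβ, Finset.card_univ, Fintype.card_fin]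
  have hBc' : Bsᶜ.card = M - k := by
    rw [Finset.card_compl, hBc, Fintype.card_fin]
  have hβB : ∀ t, β t ∈ Bs := fun t => Finset.mem_image_of_mem _ (Finset.mem_univ t)
  obtain ⟨eP⟩ : Nonempty (P ↪ Fin s) :=
    Function.Embedding.nonempty_of_card_le (by rwa [Fintype.card_fin])
  obtain ⟨eW⟩ : Nonempty (W ↪ ↥(Finset.powersetCard (k - 1) Bsᶜ) × Fin c) :=
    Function.Embedding.nonempty_of_card_le (by
      rwa [Fintype.card_prod, Fintype.card_coe, Finset.card_powersetCard, hBc', Fintype.card_fin])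
  obtain ⟨eΛ⟩ : Nonempty (Λ ↪ Fin s × ↥(Bsᶜ) × Fin c) :=
    Function.Embedding.nonempty_of_card_le (by
      rwa [Fintype.card_prod, Fintype.card_prod, Fintype.card_coe, hBc', Fintype.card_fin,
        Fintype.card_fin, ← mul_assoc])
  have hA : ∀ m t, β t ∉ ((eW m).1 : Finset (Fin M)) := fun m t hm =>
    Finset.mem_compl.1 ((Finset.mem_powersetCard.1 (eW m).1.2).1 hm) (hβB t)
  have hAc : ∀ m, ((eW m).1 : Finset (Fin M)).card = k - 1 := fun m =>
    (Finset.mem_powersetCard.1 (eW m).1.2).2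
  have hb : ∀ l, ((eΛ l).2.1 : Fin M) ∉ Bs := fun l => Finset.mem_compl.1 (eΛ l).2.1.2
  have hb' : ∀ l b, ((eΛ l).2.1 : Fin M) ∉ Bs.erase b := fun l b hm =>
    hb l (Finset.mem_of_mem_erase hm)
  let Φ : (P × W × Fin k) ⊕ (Λ × Fin k × Fin k) → (Fin s × Finset (Fin M) × Fin c) × Fin M :=
    Sum.elim (fun q => ((eP q.1, insert (β q.2.2) ((eW q.2.1).1 : Finset (Fin M)), (eW q.2.1).2),
      β q.2.2))
      (fun q => (((eΛ q.1).1, insert ((eΛ q.1).2.1 : Fin M) (Bs.erase (β q.2.1)), (eΛ q.1).2.2),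
      β q.2.2))
  have hmix : ∀ (m : W) (t : Fin k) (l : Λ) (t₀ : Fin k),
      insert (β t) ((eW m).1 : Finset (Fin M)) ≠
        insert ((eΛ l).2.1 : Fin M) (Bs.erase (β t₀)) := by
    intro m t l t₀ hG
    obtain ⟨t1, ht1⟩ : (({t, t₀} : Finset (Fin k))ᶜ).Nonempty := by
      rw [← Finset.card_pos, Finset.card_compl, Fintype.card_fin]
      have := Finset.card_le_two (a := t) (b := t₀)
      omega
    simp only [Finset.mem_compl, Finset.mem_insert, Finset.mem_singleton, not_or] at ht1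
    have h1 : β t1 ∈ insert ((eΛ l).2.1 : Fin M) (Bs.erase (β t₀)) :=
      Finset.mem_insert_of_mem (Finset.mem_erase.2 ⟨fun h2 => ht1.2 (hβ h2), hβB t1⟩)
    rw [← hG, Finset.mem_insert] at h1
    rcases h1 with h1 | h1
    · exact ht1.1 (hβ h1)
    · exact hA m t1 h1
  have hΦ : Function.Injective Φ := by
    rintro (⟨p, m, t⟩ | ⟨l, t₀, t⟩) (⟨p', m', t'⟩ | ⟨l', t₀', t'⟩) hq <;>
      simp only [Φ, Sum.elim_inl, Sum.elim_inr, Prod.mk.injEq] at hq
    · obtain ⟨⟨h1, h2, h3⟩, h4⟩ := hq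
      obtain rfl := hβ h4
      obtain rfl := eP.injective h1
      have h5 : ((eW m).1 : Finset (Fin M)) = (eW m').1 := by
        rw [← Finset.erase_insert (hA m t), h2, Finset.erase_insert (hA m' t)]
      obtain rfl := eW.injective (Prod.ext (Subtype.ext h5) h3)
      rfl
    · exact absurd hq.1.2.1 (hmix _ _ _ _)
    · exact absurd hq.1.2.1.symm (hmix _ _ _ _)
    · obtain ⟨⟨h1, h2, h3⟩, h4⟩ := hq
      obtain rfl := hβ h4
      have h5 : ((eΛ l).2.1 : Fin M) = (eΛ l').2.1 := by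
        have h6 := Finset.mem_insert_self ((eΛ l).2.1 : Fin M) (Bs.erase (β t₀))
        rw [h2, Finset.mem_insert] at h6
        exact h6.resolve_right (hb' l _)
      obtain rfl := eΛ.injective (Prod.ext h1 (Prod.ext (Subtype.ext h5) h3))
      have h7 : Bs.erase (β t₀) = Bs.erase (β t₀') := by
        rw [← Finset.erase_insert (hb' l (β t₀)), h2, Finset.erase_insert (hb' l (β t₀'))]
      have h8 : t₀ = t₀' := by
        by_contra h9
        have h10 : β t₀ ∈ Bs.erase (β t₀') := Finset.mem_erase.2 ⟨fun h2 => h9 (hβ h2), hβB t₀⟩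
        rw [← h7] at h10
        exact Finset.notMem_erase _ _ h10
      subst h8
      rfl
  let val : (P × W × Fin k) ⊕ (Λ × Fin k × Fin k) → ι → ℂ :=
    Sum.elim (fun q => y q.1 q.2.2 q.2.1) (fun q => Y q.2.1 q.1 q.2.2)
  have hx : ∀ q, Function.extend Φ val 0 (Φ q) = val q := hΦ.extend_apply val 0
  refine ⟨fun p => Function.extend Φ val 0 (p.1, p.2.1) p.2.2, h.mono ?_⟩
  rintro (⟨p, m⟩ | ⟨t₀, l, a₀⟩)
  · refine ⟨Sum.inl ⟨(eP p, fun t => (insert (β t) ((eW (m t)).1 : Finset (Fin M)),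
      (eW (m t)).2)), fun t => ⟨?_, Finset.mem_insert_self _ _⟩⟩, ?_⟩
    · rw [Finset.card_insert_of_notMem (hA _ _), hAc]
      omega
    · funext t a
      exact congrFun (hx (Sum.inl (p, m t, t))) a
  · refine ⟨Sum.inr ⟨(((eΛ l).1, insert ((eΛ l).2.1 : Fin M) (Bs.erase (β t₀)), (eΛ l).2.2),
      ((eΛ l).2.1 : Fin M), t₀, a₀), ?_, Finset.mem_insert_self _ _, ?_⟩, ?_⟩
    · rw [Finset.card_insert_of_notMem (hb' _ _), Finset.card_erase_of_mem (hβB _), hBc]
      omega
    · rw [Finset.erase_insert (hb' _ _), Finset.image_erase hβ]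
    · simp only [dFam, mixFam]
      congr 1
      funext t a
      exact congrFun (hx (Sum.inr (l, t₀, t))) a

end Pool.Agent.P.MP_c64be1_ag.Ell
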