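import Mathlib

/-! Definitions for the tensor filling theorem (elliptic curve and Frobenius argument). -/

namespace Pool.Agent.P.MP_c64be1_ag.Ell

open WithZero Module

/-- A valued field `K` over `k` with residue field `k`, of characteristic two, that contains a
point `(x, y)` of the curve `y ^ 2 + y = x ^ 3` with poles of orders two and three. -/
structure Crv (k K : Type) [Field k] [Field K] [Algebra k K] where
  v : Valuation K (WithZero (Multiplicative ℤ))
  x : K
  y : K
  vx : v x = exp 2
  vy : v y = exp 3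
  eqn : y ^ 2 + y = x ^ 3
  two : (2 : K) = 0
  vk : ∀ a : k, a ≠ 0 → v (algebraMap k K a) = 1
  res : ∀ z : K, v z ≤ 1 → ∃ a : k, v (z - algebraMap k K a) < 1

namespace Crv

variable {k K : Type} [Field k] [Field K] [Algebra k K] (c : Crv k K)

theorem v_smul_le (a : k) (z : K) : c.v (a • z) ≤ c.v z := by
  rw [Algebra.smul_def, map_mul]
  by_cases h : a = 0
  · simp [h]
  · rw [c.vk a h, one_mul]

/-- Elements with pole order at most `t`. -/
def ball (t : ℤ) : Submodule k K where
  carrier := {z | c.v z ≤ exp t}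
  add_mem' := fun ha hb => c.v.map_add_le ha hb
  zero_mem' := by simp
  smul_mem' := fun a z hz => (c.v_smul_le a z).trans hz

theorem mem_ball {t : ℤ} {z : K} : z ∈ c.ball t ↔ c.v z ≤ exp t := Iff.rfl

/-- Vectors whose entries have pole order at most `t`. -/
def B (ι : Type) (t : ℤ) : Submodule k (ι → K) := Submodule.pi Set.univ fun _ => c.ball t

theorem mem_B {ι : Type} {t : ℤ} {φ : ι → K} : φ ∈ c.B ι t ↔ ∀ a, c.v (φ a) ≤ exp t := by
  simp [B, Submodule.mem_pi, mem_ball]

/-- The Frobenius powers of the coordinates. -/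
def X (e : ℕ) : K := c.x ^ 2 ^ e

/-- The Frobenius powers of the coordinates. -/
def Y (e : ℕ) : K := c.y ^ 2 ^ e

/-- The coordinate ring at level `e`. -/
def R (e : ℕ) : Subalgebra k K := Algebra.adjoin k {c.X e, c.Y e}

/-- The function field at level `e`. -/
def F (e : ℕ) : IntermediateField k K := IntermediateField.adjoin k {c.X e, c.Y e}

/-- Regular functions at level `e` with pole order at most `t`. -/
def L (e : ℕ) (t : ℤ) : Submodule k K := Subalgebra.toSubmodule (c.R e) ⊓ c.ball t

theorem mem_L {e : ℕ} {t : ℤ} {z : K} : z ∈ c.L e t ↔ z ∈ c.R e ∧ c.v z ≤ exp t := Iff.rfl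

/-- Vectors of regular functions. -/
def M (ι : Type) : Submodule k (ι → K) :=
  Submodule.pi Set.univ fun _ => Subalgebra.toSubmodule (c.R 0)

theorem mem_M {ι : Type} {φ : ι → K} : φ ∈ c.M ι ↔ ∀ a, φ a ∈ c.R 0 := by
  simp [M, Submodule.mem_pi]

/-- The module generated by `S` over the coordinate ring at level `e`. -/
def genR {ι : Type} (e : ℕ) (S : Submodule k (ι → K)) : Submodule k (ι → K) :=
  Submodule.span k {ψ | ∃ g ∈ c.R e, ∃ φ ∈ S, ψ = g • φ}

/-- The module generated by `S` over the valuation ring at level `e`. -/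
def genO {ι : Type} (e : ℕ) (S : Submodule k (ι → K)) : Submodule k (ι → K) :=
  Submodule.span k {ψ | ∃ g ∈ c.F e, c.v g ≤ 1 ∧ ∃ φ ∈ S, ψ = g • φ}

/-- The vector space generated by `S` over the function field at level `e`. -/
def genF {ι : Type} (e : ℕ) (S : Submodule k (ι → K)) : Submodule (c.F e) (ι → K) :=
  Submodule.span (c.F e) (S : Set (ι → K))

/-- The function with a simple pole at level `e`. -/
def ω (e : ℕ) : K := c.X e ^ 2 / c.Y e

/-- Jets of order `2 ^ e` at `s` points of the curve, with values in `J`. -/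
structure Pts (e s : ℕ) (J : Type) [AddCommGroup J] [Module k J] where
  ev : Fin s → K →ₗ[k] J
  ξ : Fin s → J →ₗ[k] J
  η : Fin s → J →ₗ[k] J
  χ : Fin s → k
  χ' : Fin s → k
  hx : ∀ i, ∀ g ∈ c.R 0, ev i (c.x * g) = ξ i (ev i g)
  hy : ∀ i, ∀ g ∈ c.R 0, ev i (c.y * g) = η i (ev i g)
  hX : ∀ i, ∀ g ∈ c.R 0, ev i (c.X e * g) = χ i • ev i g
  hY : ∀ i, ∀ g ∈ c.R 0, ev i (c.Y e * g) = χ' i • ev i g

end Crv

section Lin

variable {F T Q I J ι κ : Type} [Field F] [AddCommGroup T] [Module F T] [AddCommGroup Q]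
  [Module F Q]

/-- The tensor product of the functionals with coefficients `cf` and the map `ev`. -/
def eps [Fintype ι] (cf : κ → ι → F) (ev : T →ₗ[F] Q) : (ι → T) →ₗ[F] (κ → Q) where
  toFun φ := fun e => ∑ a, cf e a • ev (φ a)
  map_add' φ ψ := by
    funext e
    simp [Finset.sum_add_distrib]
  map_smul' b φ := by
    funext e
    simp only [Pi.smul_apply, map_smul, RingHom.id_apply, Finset.smul_sum]
    exact Finset.sum_congr rfl fun a _ => smul_comm _ _ _

theorem eps_apply [Fintype ι] (cf : κ → ι → F) (ev : T →ₗ[F] Q) (φ : ι → T) (e : κ) :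
    eps cf ev φ e = ∑ a, cf e a • ev (φ a) := rfl

/-- No nonzero vector with entries in `P` is killed by all the maps. -/
def Test [Fintype ι] (cf : I → κ → ι → F) (ev : I → T →ₗ[F] Q) (P : Submodule F T) : Prop :=
  ∀ φ : ι → T, (∀ a, φ a ∈ P) → (∀ i, eps (cf i) (ev i) φ = 0) → φ = 0

/-- Coefficients of product functionals. -/
def prodc [Fintype J] (v : I → J → κ → ι → F) : I → (J → κ) → (J → ι) → F :=
  fun i e a => ∏ t, v i t (e t) (a t)

/-- The product vectors `u i` span the tensor space. -/
def PFill [Fintype J] [DecidableEq J] [Fintype ι] (u : I → J → ι → F) : Prop :=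
  ∀ ψ : (J → ι) → F, (∀ i, ∑ a, (∏ t, u i t (a t)) * ψ a = 0) → ψ = 0

/-- The tensor products of the spans of the vectors `v i t` span the tensor space. -/
def TFill [Fintype J] [DecidableEq J] [Fintype ι] (v : I → J → κ → ι → F) : Prop :=
  PFill fun (p : I × (J → κ)) t => v p.1 t (p.2 t)

/-- The vector `u ⊗ e_m`. -/
def infl {W : Type} [DecidableEq W] (u : ι → F) (m : W) : ι × W → F :=
  fun p => if p.2 = m then u p.1 else 0

end Lin

end Pool.Agent.P.MP_c64be1_ag.Ell
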