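import Pool.Agent.P.MP_c64be1_ag.Ell.Defs
import Pool.Agent.P.MP_c64be1_ag.Basic
import Pool.Agent.P.MP_c64be1_ag.Sh.Gen

/-! Definitions for the symmetric side. -/

namespace Pool.Agent.P.MP_c64be1_ag.Ell

open MvPolynomial

/-- The linear form in the variables of block `b` with coefficients `u`. -/
noncomputable def lin {Bl ι : Type} [Fintype ι] (b : Bl) (u : ι → ℂ) : MvPolynomial (Bl × ι) ℂ :=
  ∑ a, C (u a) * X (b, a)

/-- The sum of the tangent spaces at the forms `∑ g, ∏ t, z i g t` that is used here. -/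
noncomputable def Tan {σ I Γ : Type} {k : ℕ} (z : I → Γ → Fin k → MvPolynomial σ ℂ) :
    Submodule ℂ (MvPolynomial σ ℂ) :=
  (⨆ i, Submodule.span ℂ (Set.range fun p : Γ × Fin k => z i p.1 p.2) ^ k) ⊔
    ⨆ i, ⨆ g, ⨆ t₀, homogeneousSubmodule σ ℂ 1 *
      Submodule.span ℂ {∏ t ∈ Finset.univ.erase t₀, z i g t}

/-- Products of vectors of the point objects, and the vectors on the line objects. -/
def mixFam {P W Λ ι : Type} [DecidableEq ι] {k : ℕ} (y : P → Fin k → W → ι → ℂ)
    (Y : Fin k → Λ → Fin k → ι → ℂ) : (P × (Fin k → W)) ⊕ (Fin k × Λ × ι) → Fin k → ι → ℂ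
  | Sum.inl p => fun t => y p.1 t (p.2 t)
  | Sum.inr p => Function.update (Y p.1 p.2.1) p.1 (Pi.single p.2.2 1)

/-- The number of maps from `Fin j` to `Fin M` that are not injective. -/
def NI (j M : ℕ) : ℕ := M ^ j - M.descFactorial j

end Pool.Agent.P.MP_c64be1_ag.Ell
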