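import Pool.Agent.P.MP_c64be1_ag.Ell.DDefs

/-! The main objects for small `r / n`. -/

namespace Pool.Agent.P.MP_c64be1_ag.Ell

open MvPolynomial

theorem exists_enum_Design (k M c : ℕ) :
    ∃ (E : Fin (M.choose k * c) → Finset (Fin M) × Fin c)
      (e : Fin (M.choose k * c) → Fin k → Fin M), (∀ g, Function.Injective (e g)) ∧
      (∀ g, Finset.univ.image (e g) = (E g).1) ∧ ∀ q : Finset (Fin M) × Fin c,
        q.1.card = k → ∃ g, E g = q := by
  have hc : Fintype.card ((Finset.powersetCard k (Finset.univ : Finset (Fin M))) × Fin c) =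
      M.choose k * c := by
    rw [Fintype.card_prod, Fintype.card_coe, Finset.card_powersetCard, Finset.card_univ,
      Fintype.card_fin, Fintype.card_fin]
  let φ := (Fintype.equivFinOfCardEq hc).symm
  have hk : ∀ g, (φ g).1.1.card = k := fun g => (Finset.mem_powersetCard.1 (φ g).1.2).2
  refine ⟨fun g => ((φ g).1.1, (φ g).2), fun g => (φ g).1.1.orderEmbOfFin (hk g),
    fun g => ((φ g).1.1.orderEmbOfFin (hk g)).injective,
    fun g => Finset.image_orderEmbOfFin_univ _ _, fun q hq => ?_⟩
  refine ⟨φ.symm (⟨q.1, Finset.mem_powersetCard.2 ⟨Finset.subset_univ _, hq⟩⟩, q.2), ?_⟩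
  simp only [Equiv.apply_symm_apply]

theorem exists_x_Design {ι : Type} [Fintype ι] [DecidableEq ι] {k M c s : ℕ}
    (h : ∀ β : Fin k → Fin M, Function.Injective β →
      ∃ x : (Fin s × Finset (Fin M) × Fin c) × Fin M × ι → ℂ, PFill (dFam β x)) :
    ∃ x : (Fin s × Finset (Fin M) × Fin c) × Fin M × ι → ℂ,
      ∀ β : Fin k → Fin M, Function.Injective β → PFill (dFam β x) := by
  have h1 : ∀ β : Fin k → Fin M,
      ∀ᶠ x in Sh.gen ((Fin s × Finset (Fin M) × Fin c) × Fin M × ι),
        Function.Injective β → PFill (dFam β x) := by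
    intro β
    by_cases hβ : Function.Injective β
    · obtain ⟨x₀, hx₀⟩ := h β hβ
      have h2 := Sh.gen_inj
        (fun (i : DIdx s c ι β) (a : Fin k → ι) x => ∏ t, dFam β x i t (a t))
        (fun i a => Sh.PF_prod _ fun t _ => by
          cases i with
          | inl p => exact Sh.PF_coord _
          | inr p =>
            by_cases ht : t = p.1.2.2.1
            · simp only [dFam, ht, Function.update_self]
              exact Sh.PF_const _
            · simp only [dFam, Function.update_of_ne ht]
              exact Sh.PF_coord _) (x₀ := x₀) hx₀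
      exact h2.mono fun x hx _ => hx
    · exact Filter.Eventually.of_forall fun x hx => absurd hx hβ
  exact (Filter.eventually_all.2 h1).exists

/-- Sketch.  By `Sh.gen_inj` one `x` works for all injective `β`.  Index the products by
`Γ = powersetCard k univ × Fin c` and put `z i (G, j) t = lin (e G t) (x ((i, G, j), e G t, ·))`
with `e G = G.orderEmbOfFin`.  By `mono_mem` it suffices that the products of `lin (β t)` over the
members of `dFam β x` lie in `Tan z`: `prod_mem_pow` for the first kind; for the second kind split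
off the factor `t₀` and reindex the product over `G.erase b'`. -/
theorem design {ι : Type} [Fintype ι] [DecidableEq ι] {k M c s : ℕ}
    (h : ∀ β : Fin k → Fin M, Function.Injective β →
      ∃ x : (Fin s × Finset (Fin M) × Fin c) × Fin M × ι → ℂ, PFill (dFam β x)) :
    ∃ z : Fin s → Fin (M.choose k * c) → Fin k → MvPolynomial (Fin M × ι) ℂ,
      (∀ i g t, (z i g t).IsHomogeneous 1) ∧ ∀ p : Fin k → Fin M × ι,
        Function.Injective (fun t => (p t).1) → ∏ t, X (p t) ∈ Tan z := by
  obtain ⟨x, hx⟩ := exists_x_Design h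
  obtain ⟨E, e, he, hE, hs⟩ := exists_enum_Design k M c
  refine ⟨fun i g t => lin (e g t) fun a => x ((i, E g), e g t, a),
    fun i g t => lin_isHomogeneous _ _, fun p hp => ?_⟩
  refine mono_mem (hx _ hp) (fun t => (p t).1) _ (fun i => ?_) fun t => (p t).2
  cases i with
  | inl q =>
    obtain ⟨⟨i, q⟩, hq⟩ := q
    refine Submodule.mem_sup_left (Submodule.mem_iSup_of_mem i (prod_mem_pow _ _ fun t => ?_))
    obtain ⟨g, hg⟩ := hs (q t) (hq t).1
    have h1 : (p t).1 ∈ Finset.univ.image (e g) := by rw [hE g, hg]; exact (hq t).2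
    obtain ⟨t', -, ht'⟩ := Finset.mem_image.1 h1
    refine Submodule.subset_span ⟨(g, t'), ?_⟩
    simp only [dFam, hg, ht']
  | inr q =>
    obtain ⟨⟨⟨i, q⟩, b', t₀, a₀⟩, hG, hb', hq⟩ := q
    obtain ⟨g, hg⟩ := hs q hG
    have h1 : b' ∈ Finset.univ.image (e g) := by rw [hE g, hg]; exact hb'
    obtain ⟨t₁, -, ht₁⟩ := Finset.mem_image.1 h1
    refine Submodule.mem_sup_right (Submodule.mem_iSup_of_mem i (Submodule.mem_iSup_of_mem g
      (Submodule.mem_iSup_of_mem t₁ ?_)))
    rw [← Finset.mul_prod_erase _ _ (Finset.mem_univ t₀)]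
    refine Submodule.mul_mem_mul (lin_isHomogeneous _ _) (Submodule.subset_span ?_)
    rw [Set.mem_singleton_iff]
    have h2 : (Finset.univ.erase t₁).image (e g) =
        (Finset.univ.erase t₀).image fun t => (p t).1 := by
      rw [Finset.image_erase (he g), hE g, hg, ht₁]
      exact hq
    have h3 := Finset.prod_image (s := Finset.univ.erase t₁) (g := e g)
      (f := fun b => lin b fun a => x ((i, E g), b, a)) (he g).injOn
    have h4 := Finset.prod_image (s := Finset.univ.erase t₀) (g := fun t => (p t).1)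
      (f := fun b => lin b fun a => x ((i, E g), b, a)) hp.injOn
    rw [← h3, h2, h4]
    refine Finset.prod_congr rfl fun t ht => ?_
    simp only [dFam, Function.update_of_ne (Finset.ne_of_mem_erase ht), hg]

end Pool.Agent.P.MP_c64be1_ag.Ell
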