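import Pool.Agent.P.MP_c64be1_ag.Ell.Val

/-! The tower of function fields. -/

namespace Pool.Agent.P.MP_c64be1_ag.Ell.Crv

open WithZero Module Polynomial

variable {k K : Type} [Field k] [Field K] [Algebra k K] (c : Crv k K)

theorem R_le_F {e : ℕ} {z : K} (hz : z ∈ c.R e) : z ∈ c.F e :=
  IntermediateField.algebra_adjoin_le_adjoin k _ hz

/-- `IntermediateField.mem_adjoin_iff_div` or a closure induction. -/
theorem mem_F_iff {e : ℕ} {z : K} : z ∈ c.F e ↔ ∃ a ∈ c.R e, ∃ b ∈ c.R e, z = a / b :=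
  IntermediateField.mem_adjoin_iff_div

theorem v_F {e : ℕ} {z : K} (hz : z ∈ c.F e) (h0 : z ≠ 0) :
    ∃ j : ℤ, c.v z = exp (2 ^ e * j) := by
  obtain ⟨a, ha, b, hb, rfl⟩ := c.mem_F_iff.1 hz
  obtain ⟨i, hi⟩ := c.v_R ha (div_ne_zero_iff.1 h0).1
  obtain ⟨j, hj⟩ := c.v_R hb (div_ne_zero_iff.1 h0).2
  exact ⟨i - j, by rw [map_div₀, hi, hj, ← exp_sub, mul_sub]⟩

theorem F_succ_le (e : ℕ) : c.F (e + 1) ≤ c.F e := by
  refine IntermediateField.adjoin_le_iff.2 ?_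
  rintro z (rfl | rfl)
  · rw [c.X_succ]
    exact pow_mem (c.R_le_F (c.X_mem_R e)) 2
  · rw [c.Y_succ]
    exact pow_mem (c.R_le_F (c.Y_mem_R e)) 2

theorem R_decomp_Fld {e : ℕ} {z : K} (hz : z ∈ c.R e) :
    ∃ a ∈ c.R (e + 1), ∃ b ∈ c.R (e + 1), z = a + c.X e * b := by
  induction hz using Algebra.adjoin_induction with
  | mem x hx =>
    rcases hx with rfl | rfl
    · exact ⟨0, zero_mem _, 1, one_mem _, by ring⟩
    · refine ⟨_, c.Y_mem_R (e + 1), _, c.X_mem_R (e + 1), ?_⟩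
      rw [c.X_succ, c.Y_succ]
      linear_combination c.eqn_e e - c.Y e ^ 2 * c.two
  | algebraMap r => exact ⟨_, Subalgebra.algebraMap_mem _ r, 0, zero_mem _, by ring⟩
  | add x y _ _ hx hy =>
    obtain ⟨a, ha, b, hb, rfl⟩ := hx
    obtain ⟨a', ha', b', hb', rfl⟩ := hy
    exact ⟨a + a', add_mem ha ha', b + b', add_mem hb hb', by ring⟩
  | mul x y _ _ hx hy =>
    obtain ⟨a, ha, b, hb, rfl⟩ := hx
    obtain ⟨a', ha', b', hb', rfl⟩ := hy
    refine ⟨a * a' + c.X (e + 1) * (b * b'),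
      add_mem (mul_mem ha ha') (mul_mem (c.X_mem_R _) (mul_mem hb hb')), a * b' + a' * b,
      add_mem (mul_mem ha hb') (mul_mem ha' hb), ?_⟩
    rw [c.X_succ]
    ring

theorem sq_mem_Fld {e : ℕ} {z : K} (hz : z ∈ c.R e) : z ^ 2 ∈ c.R (e + 1) := by
  obtain ⟨a, ha, b, hb, rfl⟩ := c.R_decomp_Fld hz
  have : (a + c.X e * b) ^ 2 = a ^ 2 + c.X (e + 1) * b ^ 2 := by
    rw [c.X_succ]
    linear_combination (a * c.X e * b) * c.two
  rw [this]
  exact add_mem (pow_mem ha 2) (mul_mem (c.X_mem_R _) (pow_mem hb 2))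

/-- First `R e = R (e + 1) + X e * R (e + 1)` (adjoin induction, `Y = Y ^ 2 + X * X ^ 2` in
characteristic two) and `b ^ 2 ∈ R (e + 1)` for `b ∈ R e` (adjoin induction); then
`a / b = a * b / b ^ 2`. -/
theorem F_decomp {e : ℕ} {z : K} (hz : z ∈ c.F e) :
    ∃ a ∈ c.F (e + 1), ∃ b ∈ c.F (e + 1), z = a + c.X e * b := by
  obtain ⟨a, ha, b, hb, rfl⟩ := c.mem_F_iff.1 hz
  obtain ⟨p, hp, q, hq, h⟩ := c.R_decomp_Fld (mul_mem ha hb)
  have h2 := c.R_le_F (c.sq_mem_Fld hb)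
  refine ⟨p / b ^ 2, div_mem (c.R_le_F hp) h2, q / b ^ 2, div_mem (c.R_le_F hq) h2, ?_⟩
  rw [← mul_div_assoc, ← add_div, ← h]
  by_cases h0 : b = 0
  · simp [h0]
  · field_simp

/-- Parity: `v_F` at level `e + 1` and `vY`. -/
theorem Y_notMem (e : ℕ) : c.Y e ∉ c.F (e + 1) := by
  intro h
  have h0 : c.Y e ≠ 0 := by
    intro h1
    have := c.vY e
    rw [h1, map_zero] at this
    exact exp_ne_zero this.symm
  obtain ⟨j, hj⟩ := c.v_F h h0
  rw [c.vY, exp_inj, pow_succ] at hj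
  have h2 : (2 : ℤ) ^ e * 3 = 2 ^ e * (2 * j) := by linarith
  have h3 := mul_left_cancel₀ (pow_ne_zero e (two_ne_zero' ℤ)) h2
  omega

theorem ω_mem (e : ℕ) : c.ω e ∈ c.F e :=
  div_mem (pow_mem (c.R_le_F (c.X_mem_R e)) 2) (c.R_le_F (c.Y_mem_R e))

theorem v_ω (e : ℕ) : c.v (c.ω e) = exp (2 ^ e : ℤ) := by
  rw [ω, map_div₀, sq, map_mul, c.vX, c.vY, ← exp_add, ← exp_sub]
  congr 1
  ring

theorem drop_Fld {e n : ℕ} {z w : K} (hz : z ∈ c.F e) (hw : w ∈ c.F e)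
    (hv : c.v w = exp (2 ^ e * (n + 1 : ℕ) : ℤ)) (h : c.v z ≤ exp (2 ^ e * (n + 1 : ℕ) : ℤ)) :
    ∃ a : k, z - a • w ∈ c.F e ∧ c.v (z - a • w) ≤ exp (2 ^ e * n : ℤ) := by
  have h0 : w ≠ 0 := by
    intro h1
    rw [h1, map_zero] at hv
    exact exp_ne_zero hv.symm
  obtain ⟨a, ha⟩ := c.exists_cancel h0 (hv ▸ h)
  have hm : z - a • w ∈ c.F e := sub_mem hz (IntermediateField.smul_mem _ hw)
  refine ⟨a, hm, ?_⟩
  by_cases h1 : z - a • w = 0
  · rw [h1, map_zero]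
    exact zero_le
  · obtain ⟨j, hj⟩ := c.v_F hm h1
    rw [hj, hv, exp_lt_exp] at ha
    rw [hj, exp_le_exp]
    have hp : (0 : ℤ) < 2 ^ e := by positivity
    have h2 := lt_of_mul_lt_mul_left ha hp.le
    push_cast at h2
    exact mul_le_mul_of_nonneg_left (by omega) hp.le

theorem adelic_Fld {e : ℕ} (n : ℕ) : ∀ z ∈ c.F e, c.v z ≤ exp (2 ^ e * n : ℤ) →
    ∃ g ∈ c.R e, ∃ o ∈ c.F e, c.v o ≤ 1 ∧ ∃ a : k, z = g + o + a • c.ω e := by
  induction n with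
  | zero =>
    intro z hz h
    exact ⟨0, zero_mem _, z, hz, by simpa using h, 0, by simp⟩
  | succ n ih =>
    intro z hz h
    rcases Nat.eq_zero_or_pos n with rfl | hn
    · obtain ⟨a, hm, ha⟩ := c.drop_Fld hz (c.ω_mem e) (by rw [c.v_ω]; simp) h
      exact ⟨0, zero_mem _, _, hm, by simpa using ha, a, by simp⟩
    · obtain ⟨w, hw, hv⟩ := c.exists_deg e (j := n + 1) (by omega)
      obtain ⟨a, hm, ha⟩ := c.drop_Fld hz (c.R_le_F hw) hv h
      obtain ⟨g, hg, o, ho, hvo, b, hb⟩ := ih _ hm ha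
      refine ⟨g + a • w, add_mem hg (Subalgebra.smul_mem _ hw a), o, ho, hvo, b, ?_⟩
      rw [sub_eq_iff_eq_add.1 hb]
      abel

/-- Induction on `j` with `v z ≤ exp (2 ^ e * j)`: cancel the leading term by a multiple of an
element of `R e` (`exists_deg`, `j ≥ 2`) or of `ω` (`j = 1`); use `exists_cancel` and `v_F`. -/
theorem adelic {e : ℕ} {z : K} (hz : z ∈ c.F e) :
    ∃ g ∈ c.R e, ∃ o ∈ c.F e, c.v o ≤ 1 ∧ ∃ a : k, z = g + o + a • c.ω e := by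
  by_cases h0 : z = 0
  · exact c.adelic_Fld 0 z hz (by rw [h0, map_zero]; exact zero_le)
  · obtain ⟨j, hj⟩ := c.v_F hz h0
    refine c.adelic_Fld j.toNat z hz ?_
    rw [hj, exp_le_exp]
    exact mul_le_mul_of_nonneg_left (Int.self_le_toNat j) (by positivity)

end Pool.Agent.P.MP_c64be1_ag.Ell.Crv
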