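import Pool.Agent.P.MP_c64be1_ag.Ell.GrowthA

/-! Growth of the module generated by a space of sections. -/

namespace Pool.Agent.P.MP_c64be1_ag.Ell.Crv

open WithZero Module Filter

variable {k K : Type} [Field k] [Field K] [Algebra k K] (c : Crv k K) {ι : Type}

theorem smul_mem_genF_Growth (e : ℕ) {S : Submodule k (ι → K)} {z : K} (hz : z ∈ c.F e)
    {ψ : ι → K} (hψ : ψ ∈ c.genF e S) : z • ψ ∈ c.genF e S :=
  (c.genF e S).smul_mem (⟨z, hz⟩ : c.F e) hψ

theorem genF_dec_Growth (e : ℕ) {S S' : Submodule k (ι → K)} (hS : S' ≤ S) {ψ : ι → K}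
    (hψ : ψ ∈ c.genF e S') : ∀ z ∈ c.F e, ∃ φ' ∈ S',
      z • ψ - c.ω e • φ' ∈ c.genR e S ⊔ c.genO e S := by
  induction hψ using Submodule.span_induction with
  | mem φ hφ =>
    intro z hz
    obtain ⟨g, hg, o, ho, hv, a, rfl⟩ := c.adelic hz
    refine ⟨a • φ, S'.smul_mem a hφ, ?_⟩
    have e1 : (g + o + a • c.ω e) • φ - c.ω e • a • φ = g • φ + o • φ := by
      rw [add_smul, add_smul, smul_assoc, smul_comm a]
      abel
    rw [e1]
    exact Submodule.add_mem_sup (Submodule.subset_span ⟨g, hg, φ, hS hφ, rfl⟩)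
      (Submodule.subset_span ⟨o, ho, hv, φ, hS hφ, rfl⟩)
  | zero => exact fun z _ => ⟨0, zero_mem _, by simp⟩
  | add a b _ _ ha hb =>
    intro z hz
    obtain ⟨φ1, h1, k1⟩ := ha z hz
    obtain ⟨φ2, h2, k2⟩ := hb z hz
    refine ⟨φ1 + φ2, add_mem h1 h2, ?_⟩
    have e1 : z • (a + b) - c.ω e • (φ1 + φ2) = (z • a - c.ω e • φ1) + (z • b - c.ω e • φ2) := by
      rw [smul_add, smul_add]; abel
    rw [e1]
    exact add_mem k1 k2
  | smul b a _ ha =>
    intro z hz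
    obtain ⟨φ1, h1, k1⟩ := ha (z * b) (mul_mem hz b.2)
    refine ⟨φ1, h1, ?_⟩
    rw [mul_smul] at k1
    exact k1

theorem genR_mono_Growth (e : ℕ) {S S' : Submodule k (ι → K)} (hS : S' ≤ S) :
    c.genR e S' ≤ c.genR e S :=
  Submodule.span_mono fun _ ⟨g, hg, φ, hφ, h⟩ => ⟨g, hg, φ, hS hφ, h⟩

/-- Sketch.  `S₀ = {φ ∈ S | ω • φ ∈ genR ⊔ genO}` is a proper subspace; take `φ₀ ∈ S \ S₀` and a
hyperplane `S'` of `S` that contains `S₀` and not `φ₀` (kernel of a functional).  By `adelic`,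
`genF e S' ⊆ genR e S + genO e S + ω • S'`.  If `φ₀ ∈ genF e S'` then also `ω • φ₀`, so
`φ₀ - φ' ∈ S₀ ≤ S'` for some `φ' ∈ S'`, a contradiction. -/
theorem dichotomy (e : ℕ) (S : Submodule k (ι → K))
    (h : ¬ ∀ φ ∈ S, c.ω e • φ ∈ c.genR e S ⊔ c.genO e S) :
    ∃ (S' : Submodule k (ι → K)) (φ₀ : ι → K), S = S' ⊔ Submodule.span k {φ₀} ∧
      φ₀ ∉ c.genF e S' := by
  obtain ⟨φ₀, h0⟩ := not_forall.1 h
  obtain ⟨h1, h2⟩ := Classical.not_imp.1 h0
  obtain ⟨f, hf, hT⟩ := Submodule.exists_le_ker_of_notMem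
    (p := (c.genR e S ⊔ c.genO e S).comap
      ((LinearMap.lsmul K (ι → K) (c.ω e)).restrictScalars k)) (v := φ₀) h2
  refine ⟨S ⊓ LinearMap.ker f, φ₀, le_antisymm (fun φ hφ => ?_) (sup_le inf_le_left ?_),
    fun hF => ?_⟩
  · have e1 : φ = (φ - (f φ / f φ₀) • φ₀) + (f φ / f φ₀) • φ₀ := by abel
    rw [e1]
    refine Submodule.add_mem_sup ⟨sub_mem hφ (S.smul_mem _ h1), ?_⟩
      (Submodule.smul_mem _ _ (Submodule.mem_span_singleton_self _))
    change f _ = 0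
    rw [map_sub, map_smul, smul_eq_mul, div_mul_cancel₀ _ hf, sub_self]
  · rwa [Submodule.span_singleton_le_iff_mem]
  · obtain ⟨φ', k1, k2⟩ := c.genF_dec_Growth e (S := S) inf_le_left hF _ (c.ω_mem e)
    rw [← smul_sub] at k2
    have k3 : f (φ₀ - φ') = 0 := hT (x := φ₀ - φ') k2
    have k4 : f φ' = 0 := k1.2
    rw [map_sub, k4, sub_zero] at k3
    exact hf k3

/-- Sketch: the space `L e (2 ^ e * n) • φ₀` has dimension at least `n` (`le_finrank_L`) and meets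
`genF e S'` only in zero. -/
theorem growth_b [Fintype ι] (e : ℕ) (S' : Submodule k (ι → K)) (φ₀ : ι → K) {d : ℤ}
    (hS : S' ⊔ Submodule.span k {φ₀} ≤ c.M ι ⊓ c.B ι d) (h : φ₀ ∉ c.genF e S') (n : ℕ) :
    finrank k ↥(c.genR e S' ⊓ c.B ι (2 ^ e * n + d)) + n ≤
      finrank k ↥(c.genR e (S' ⊔ Submodule.span k {φ₀}) ⊓ c.B ι (2 ^ e * n + d)) := by
  have hM : S' ⊔ Submodule.span k {φ₀} ≤ c.M ι := hS.trans inf_le_left
  have h0 : φ₀ ∈ S' ⊔ Submodule.span k {φ₀} :=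
    Submodule.mem_sup_right (Submodule.mem_span_singleton_self _)
  have hD : c.genR e (S' ⊔ Submodule.span k {φ₀}) ⊓ c.B ι (-1) = ⊥ := by
    rw [eq_bot_iff, ← c.M_inf_B ι]
    exact inf_le_inf_right _ ((c.genR_le e hM).trans inf_le_right)
  have := c.fd _ hD (2 ^ e * n + d)
  obtain ⟨g, hg⟩ := exists_linearIndependent_of_le_finrank (c.le_finrank_L e n)
  have key := finrank_add_le (T := Fin n)
    (W := c.genR e S' ⊓ c.B ι (2 ^ e * n + d))
    (W' := c.genR e (S' ⊔ Submodule.span k {φ₀}) ⊓ c.B ι (2 ^ e * n + d))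
    (inf_le_inf_right _ (c.genR_mono_Growth e le_sup_left)) (fun j => (g j : K) • φ₀)
    (fun j => ⟨Submodule.subset_span ⟨g j, (g j).2.1, φ₀, h0, rfl⟩, by
      rw [add_comm]
      exact c.smul_mem_B (g j).2.2 (hS h0).2⟩)
    (fun a ha => by
      have e1 : ∑ j, a j • (g j : K) • φ₀ = ((∑ j, a j • g j : c.L e (2 ^ e * n)) : K) • φ₀ := by
        rw [Submodule.coe_sum, Finset.sum_smul]
        exact Finset.sum_congr rfl fun j _ => by rw [Submodule.coe_smul, smul_assoc]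
      rw [e1] at ha
      have hz : (∑ j, a j • g j : c.L e (2 ^ e * n)) = 0 := by
        generalize (∑ j, a j • g j : c.L e (2 ^ e * n)) = z at ha
        by_contra hne
        have hne' : (z : K) ≠ 0 := fun e0 => hne (Subtype.ext e0)
        have k1 : (z : K) • φ₀ ∈ c.genF e S' :=
          (c.genR_le e (le_sup_left.trans hM) ha.1).1
        have k2 := c.smul_mem_genF_Growth e (inv_mem (c.R_le_F z.2.1)) k1
        rw [smul_smul, inv_mul_cancel₀ hne', one_smul] at k2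
        exact h k2
      funext j
      exact Fintype.linearIndependent_iff.1 hg a hz j)
  rwa [Fintype.card_fin] at key

end Pool.Agent.P.MP_c64be1_ag.Ell.Crv
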