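import Pool.Agent.P.MP_c64be1_ag.Ell.Fld
import Pool.Agent.P.MP_c64be1_ag.Ell.Filt

/-! Growth of the module generated by a space of sections. -/

namespace Pool.Agent.P.MP_c64be1_ag.Ell.Crv

open WithZero Module Filter

variable {k K : Type} [Field k] [Field K] [Algebra k K] (c : Crv k K) {ι : Type}

theorem genR_le (e : ℕ) {S : Submodule k (ι → K)} (hS : S ≤ c.M ι) :
    c.genR e S ≤ (c.genF e S).restrictScalars k ⊓ c.M ι := by
  refine Submodule.span_le.2 ?_
  rintro ψ ⟨g, hg, φ, hφ, rfl⟩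
  refine ⟨?_, ?_⟩
  · have h1 : φ ∈ c.genF e S := Submodule.subset_span hφ
    exact (c.genF e S).smul_mem (⟨g, c.R_le_F hg⟩ : c.F e) h1
  · refine c.mem_M.2 fun a => ?_
    exact (c.R 0).mul_mem (c.R_le_zero e hg) (c.mem_M.1 (hS hφ) a)

theorem fd_genF (e : ℕ) (S : Submodule k (ι → K)) [FiniteDimensional k S] :
    FiniteDimensional (c.F e) (c.genF e S) := by
  obtain ⟨t, ht⟩ : S.FG := (Submodule.fg_iff_finiteDimensional S).2 inferInstance
  have h1 : c.genF e S = Submodule.span (c.F e) (t : Set (ι → K)) := by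
    rw [genF, ← ht, Submodule.span_span_of_tower]
  rw [h1]
  infer_instance

theorem drop_GrowthA (e : ℕ) (S : Submodule k (ι → K)) (n : ℕ) :
    ∀ g : Fin n → ι → K, (∀ j, g j ∈ S) →
      (∀ φ ∈ S, ∃ o : Fin n → K, (∀ j, o j ∈ c.F e ∧ c.v (o j) ≤ 1) ∧ φ = ∑ j, o j • g j) →
      ∃ (r : ℕ) (g : Fin r → ι → K), (∀ j, g j ∈ S) ∧ LinearIndependent (c.F e) g ∧
      ∀ φ ∈ S, ∃ o : Fin r → K, (∀ j, o j ∈ c.F e ∧ c.v (o j) ≤ 1) ∧ φ = ∑ j, o j • g j := by
  induction n with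
  | zero =>
    intro g hg h
    exact ⟨0, g, hg, linearIndependent_empty_type, h⟩
  | succ m ih =>
    intro g hg h
    by_cases hli : LinearIndependent (c.F e) g
    · exact ⟨m + 1, g, hg, hli, h⟩
    obtain ⟨z, hz, j1, hj1⟩ := Fintype.not_linearIndependent_iff.1 hli
    obtain ⟨j0, -, hj0⟩ := Finset.exists_max_image (Finset.univ : Finset (Fin (m + 1)))
      (fun j => c.v (z j : K)) Finset.univ_nonempty
    have hz1 : (z j1 : K) ≠ 0 := fun h0 => hj1 (Subtype.ext h0)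
    have hv0 : c.v (z j0 : K) ≠ 0 := by
      intro h0
      have h2 := hj0 j1 (Finset.mem_univ _)
      rw [h0] at h2
      exact hz1 (c.v.zero_iff.1 (le_antisymm h2 zero_le))
    have hz0 : (z j0 : K) ≠ 0 := fun h0 => hv0 (by rw [h0, map_zero])
    have hz' : ∑ j, (z j : K) • g j = 0 := hz
    rw [Fin.sum_univ_succAbove _ j0] at hz'
    refine ih (fun i => g (j0.succAbove i)) (fun i => hg _) fun φ hφ => ?_
    obtain ⟨o, ho, rfl⟩ := h φ hφ
    refine ⟨fun i => o (j0.succAbove i) - o j0 * ((z (j0.succAbove i) : K) / z j0), fun i => ⟨?_, ?_⟩,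
      ?_⟩
    · exact (c.F e).sub_mem (ho _).1 ((c.F e).mul_mem (ho _).1
        ((c.F e).div_mem (z _).2 (z _).2))
    · refine c.v.map_sub_le (ho _).2 ?_
      rw [map_mul, map_div₀]
      refine mul_le_one' (ho _).2 ?_
      exact div_le_one_of_le₀ (hj0 _ (Finset.mem_univ _)) zero_le
    · rw [Fin.sum_univ_succAbove _ j0]
      have h3 : g j0 = -∑ i, ((z (j0.succAbove i) : K) / z j0) • g (j0.succAbove i) := by
        have h4 : (z j0 : K) • g j0 = -∑ i, (z (j0.succAbove i) : K) • g (j0.succAbove i) :=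
          eq_neg_of_add_eq_zero_left hz'
        have h5 : g j0 = (z j0 : K)⁻¹ • ((z j0 : K) • g j0) := by
          rw [smul_smul, inv_mul_cancel₀ hz0, one_smul]
        rw [h5, h4, smul_neg, Finset.smul_sum]
        congr 1
        refine Finset.sum_congr rfl fun i _ => ?_
        rw [smul_smul, div_eq_inv_mul]
      rw [h3, smul_neg, Finset.smul_sum]
      simp only [sub_smul, Finset.sum_sub_distrib, smul_smul]
      abel

/-- Sketch: induction on the number of generators.  If a finite family that generates `S` over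
the valuation ring is dependent over `F e`, divide the relation by a coefficient of largest
valuation and drop that generator. -/
theorem exists_basisO (e : ℕ) (S : Submodule k (ι → K)) [FiniteDimensional k S] :
    ∃ (r : ℕ) (g : Fin r → ι → K), (∀ j, g j ∈ S) ∧ LinearIndependent (c.F e) g ∧
      ∀ φ ∈ S, ∃ o : Fin r → K, (∀ j, o j ∈ c.F e ∧ c.v (o j) ≤ 1) ∧ φ = ∑ j, o j • g j := by
  have b := Module.finBasis k S
  refine c.drop_GrowthA e S (finrank k S) (fun j => (b j : ι → K)) (fun j => (b j).2) fun φ hφ => ?_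
  refine ⟨fun j => algebraMap k K (b.repr ⟨φ, hφ⟩ j), fun j => ⟨(c.F e).algebraMap_mem _, ?_⟩, ?_⟩
  · by_cases h0 : b.repr ⟨φ, hφ⟩ j = 0
    · simp [h0]
    · exact (c.vk _ h0).le
  · have h1 := congrArg (fun x : S => (x : ι → K)) (b.sum_repr ⟨φ, hφ⟩)
    simp only [Submodule.coe_sum, Submodule.coe_smul] at h1
    simp only [algebraMap_smul]
    exact h1.symm

/-- Combinations of `g` with coefficients of bounded pole order. -/
def Co_GrowthA (e : ℕ) {r : ℕ} (g : Fin r → ι → K) (t : ℤ) : Submodule k (ι → K) where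
  carrier := {ψ | ∃ z : Fin r → K, (∀ j, z j ∈ c.F e ∧ c.v (z j) ≤ exp t) ∧ ψ = ∑ j, z j • g j}
  add_mem' := by
    rintro _ _ ⟨z, hz, rfl⟩ ⟨z', hz', rfl⟩
    refine ⟨z + z', fun j => ⟨(c.F e).add_mem (hz j).1 (hz' j).1,
      c.v.map_add_le (hz j).2 (hz' j).2⟩, ?_⟩
    simp [add_smul, Finset.sum_add_distrib]
  zero_mem' := ⟨0, fun j => ⟨(c.F e).zero_mem, by simp⟩, by simp⟩
  smul_mem' := by
    rintro a _ ⟨z, hz, rfl⟩
    refine ⟨a • z, fun j => ⟨(c.F e).smul_mem (hz j).1, (c.v_smul_le a _).trans (hz j).2⟩, ?_⟩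
    simp [Finset.smul_sum]

theorem Co_mono_GrowthA (e : ℕ) {r : ℕ} (g : Fin r → ι → K) {t t' : ℤ} (h : t ≤ t') :
    c.Co_GrowthA e g t ≤ c.Co_GrowthA e g t' := by
  rintro _ ⟨z, hz, rfl⟩
  exact ⟨z, fun j => ⟨(hz j).1, (hz j).2.trans (exp_le_exp.2 h)⟩, rfl⟩

theorem Co_le_B_GrowthA (e : ℕ) {r : ℕ} (g : Fin r → ι → K) {d : ℤ} (hg : ∀ j, g j ∈ c.B ι d)
    (t : ℤ) : c.Co_GrowthA e g t ≤ c.B ι (t + d) := by
  rintro _ ⟨z, hz, rfl⟩
  refine Submodule.sum_mem _ fun j _ => ?_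
  rw [add_comm]
  exact c.smul_mem_B (hz j).2 (hg j)

theorem single_mem_Co_GrowthA (e : ℕ) {r : ℕ} (g : Fin r → ι → K) {t : ℤ} {w : K}
    (hw : w ∈ c.F e) (hv : c.v w ≤ exp t) (j : Fin r) : w • g j ∈ c.Co_GrowthA e g t := by
  refine ⟨Pi.single j w, fun i => ?_, ?_⟩
  · by_cases h : i = j
    · subst h
      simpa using ⟨hw, hv⟩
    · simp [Pi.single_eq_of_ne h]
  · rw [Finset.sum_eq_single j]
    · simp
    · intro i _ h
      simp [Pi.single_eq_of_ne h]
    · simp

theorem smul_mem_sup_GrowthA (e : ℕ) (S : Submodule k (ι → K))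
    (h : ∀ φ ∈ S, c.ω e • φ ∈ c.genR e S ⊔ c.genO e S) {z : K} (hz : z ∈ c.F e) {φ : ι → K}
    (hφ : φ ∈ S) : z • φ ∈ c.genR e S ⊔ c.genO e S := by
  obtain ⟨g, hg, o, ho, hv, a, rfl⟩ := c.adelic hz
  rw [add_smul, add_smul, smul_assoc]
  refine Submodule.add_mem _ (Submodule.add_mem _ ?_ ?_) (Submodule.smul_mem _ a (h φ hφ))
  · exact Submodule.mem_sup_left (Submodule.subset_span ⟨g, hg, φ, hφ, rfl⟩)
  · exact Submodule.mem_sup_right (Submodule.subset_span ⟨o, ho, hv, φ, hφ, rfl⟩)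

/-- Sketch.  Take `g` from `exists_basisO` (so `r = finrank (genF e S)`), and `w = ω e`
(`v w = exp (2 ^ e)`).  By `adelic` and `h`, `z • φ ∈ genR ⊔ genO` for all `z ∈ F e`, `φ ∈ S`.
Let `Z n` be the space of `ψ ∈ genR e S` of the form `∑ j, z j • g j` with `z j ∈ F e`,
`v (z j) ≤ exp (2 ^ e * n)`.  Then `S ≤ Z 0`, `Z n ≤ genR ⊓ B (2 ^ e * n + d)` (finite dimensional
by `fd`, `genR_le`, `M_inf_B`), elements of `genO` have coordinates with `v ≤ 1`, and writing
`w ^ (n+1) • g j = ψ j + (element of genO)` gives `r` elements `ψ j ∈ Z (n+1)` that are independent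
modulo `Z n` (`finrank_add_le`). -/
theorem growth_a [Fintype ι] (e : ℕ) (S : Submodule k (ι → K)) [FiniteDimensional k S] {d : ℤ}
    (hS : S ≤ c.M ι ⊓ c.B ι d) (h : ∀ φ ∈ S, c.ω e • φ ∈ c.genR e S ⊔ c.genO e S) (n : ℕ) :
    n * finrank (c.F e) (c.genF e S) + finrank k S ≤
      finrank k ↥(c.genR e S ⊓ c.B ι (2 ^ e * n + d)) := by
  obtain ⟨r, g, hg, hli, hgen⟩ := c.exists_basisO e S
  have hr : finrank (c.F e) (c.genF e S) = r := by
    have h1 : c.genF e S = Submodule.span (c.F e) (Set.range g) := by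
      refine le_antisymm (Submodule.span_le.2 fun φ hφ => ?_) (Submodule.span_mono ?_)
      · obtain ⟨o, ho, rfl⟩ := hgen φ hφ
        refine Submodule.sum_mem _ fun j _ => ?_
        exact Submodule.smul_mem _ (⟨o j, (ho j).1⟩ : c.F e)
          (Submodule.subset_span (Set.mem_range_self j))
      · rintro _ ⟨j, rfl⟩
        exact hg j
    rw [h1, finrank_span_eq_card hli, Fintype.card_fin]
  have hO : c.genO e S ≤ c.Co_GrowthA e g 0 := by
    refine Submodule.span_le.2 ?_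
    rintro _ ⟨o', ho', hv', φ, hφ, rfl⟩
    obtain ⟨o, ho, rfl⟩ := hgen φ hφ
    refine ⟨fun j => o' * o j, fun j => ⟨(c.F e).mul_mem ho' (ho j).1, ?_⟩, ?_⟩
    · rw [map_mul, exp_zero]
      exact mul_le_one' hv' (ho j).2
    · simp [Finset.smul_sum, smul_smul]
  have hbot : c.genR e S ⊓ c.B ι (-1) = ⊥ := by
    refine eq_bot_iff.2 ?_
    rw [← c.M_inf_B ι]
    exact inf_le_inf_right _ ((c.genR_le e (hS.trans inf_le_left)).trans inf_le_right)
  have hle : ∀ t : ℤ, c.genR e S ⊓ c.Co_GrowthA e g t ≤ c.genR e S ⊓ c.B ι (t + d) := fun t =>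
    inf_le_inf_left _ (c.Co_le_B_GrowthA e g (fun j => (hS (hg j)).2) t)
  have hfd : ∀ t : ℤ, FiniteDimensional k ↥(c.genR e S ⊓ c.Co_GrowthA e g t) := fun t => by
    have := c.fd (c.genR e S) hbot (t + d)
    exact Submodule.finiteDimensional_of_le (hle t)
  have hpos : (0 : ℤ) < 2 ^ e := by positivity
  have key : ∀ n : ℕ, n * r + finrank k S ≤
      finrank k ↥(c.genR e S ⊓ c.Co_GrowthA e g (2 ^ e * n)) := by
    intro n
    induction n with
    | zero =>
      have := hfd (2 ^ e * (0 : ℕ))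
      rw [zero_mul, zero_add]
      refine Submodule.finrank_mono fun φ hφ => ⟨?_, ?_⟩
      · exact Submodule.subset_span ⟨1, (c.R e).one_mem, φ, hφ, (one_smul _ _).symm⟩
      · obtain ⟨o, ho, rfl⟩ := hgen φ hφ
        exact ⟨o, fun j => ⟨(ho j).1, by simpa using (ho j).2⟩, rfl⟩
    | succ n ih =>
      have := hfd (2 ^ e * (n + 1 : ℕ))
      have hw : c.ω e ^ (n + 1) ∈ c.F e := pow_mem (c.ω_mem e) _
      have hvw : c.v (c.ω e ^ (n + 1)) = exp (2 ^ e * (n + 1 : ℕ) : ℤ) := by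
        rw [map_pow, c.v_ω, ← exp_nsmul, nsmul_eq_mul, mul_comm]
      have hex : ∀ j, ∃ ψ ∈ c.genR e S, ∃ θ ∈ c.genO e S, ψ + θ = c.ω e ^ (n + 1) • g j :=
        fun j => Submodule.mem_sup.1 (c.smul_mem_sup_GrowthA e S h hw (hg j))
      choose ψ hψ θ hθ hsum using hex
      have hn0 : (0 : ℤ) ≤ 2 ^ e * (n : ℕ) := by positivity
      have hn1 : (2 : ℤ) ^ e * (n : ℕ) < 2 ^ e * (n + 1 : ℕ) := by
        push_cast
        nlinarith
      have h2 := finrank_add_le (k := k) (T := Fin r)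
        (W := c.genR e S ⊓ c.Co_GrowthA e g (2 ^ e * (n : ℕ)))
        (W' := c.genR e S ⊓ c.Co_GrowthA e g (2 ^ e * (n + 1 : ℕ)))
        (inf_le_inf_left _ (c.Co_mono_GrowthA e g hn1.le)) ψ (fun j => ⟨hψ j, ?_⟩) ?_
      · rw [Fintype.card_fin] at h2
        rw [add_mul, one_mul]
        omega
      · rw [eq_sub_of_add_eq (hsum j)]
        exact Submodule.sub_mem _ (c.single_mem_Co_GrowthA e g hw hvw.le j)
          (c.Co_mono_GrowthA e g (hn0.trans hn1.le) (hO (hθ j)))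
      · intro a ha
        have h3 : ∑ j, (a j • c.ω e ^ (n + 1)) • g j ∈ c.Co_GrowthA e g (2 ^ e * (n : ℕ)) := by
          have h4 : ∑ j, (a j • c.ω e ^ (n + 1)) • g j = ∑ j, a j • ψ j + ∑ j, a j • θ j := by
            rw [← Finset.sum_add_distrib]
            refine Finset.sum_congr rfl fun j _ => ?_
            rw [← smul_add, hsum, smul_assoc]
          rw [h4]
          exact Submodule.add_mem _ ha.2 (Submodule.sum_mem _ fun j _ =>
            Submodule.smul_mem _ _ (c.Co_mono_GrowthA e g hn0 (hO (hθ j))))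
        obtain ⟨z, hz, hzz⟩ := h3
        have h5 := Fintype.linearIndependent_iff.1 hli
          (fun j => (⟨a j • c.ω e ^ (n + 1) - z j,
            (c.F e).sub_mem ((c.F e).smul_mem hw) (hz j).1⟩ : c.F e)) (by
            show ∑ j, (a j • c.ω e ^ (n + 1) - z j) • g j = 0
            simp only [sub_smul, Finset.sum_sub_distrib]
            exact sub_eq_zero.2 hzz)
        funext j
        by_contra h0
        have h6 : a j • c.ω e ^ (n + 1) = z j := sub_eq_zero.1 (congrArg Subtype.val (h5 j))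
        have h7 := (hz j).2
        rw [← h6, Algebra.smul_def, map_mul, c.vk _ h0, one_mul, hvw, exp_le_exp] at h7
        exact absurd hn1 (not_lt.2 h7)
  rw [hr]
  have := c.fd (c.genR e S) hbot (2 ^ e * n + d)
  exact (key n).trans (Submodule.finrank_mono (hle _))

end Pool.Agent.P.MP_c64be1_ag.Ell.Crv
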