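import Pool.Agent.P.MP_c64be1_ag.Ell.BD
import Pool.Agent.P.MP_c64be1_ag.Ell.Growth

/-! The main inequality. -/

namespace Pool.Agent.P.MP_c64be1_ag.Ell.Crv

open WithZero Module Filter

variable {k K : Type} [Field k] [Field K] [Algebra k K] (c : Crv k K) {ι : Type}

theorem finrank_sup_Ineq {F V : Type} [Field F] [AddCommGroup V] [Module F V]
    (p : Submodule F V) [FiniteDimensional F p] {v : V} (hv : v ∉ p) :
    finrank F ↥(p ⊔ Submodule.span F {v}) = finrank F p + 1 := by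
  have h0 : v ≠ 0 := fun h => hv (h ▸ p.zero_mem)
  have h1 := Submodule.finrank_sup_add_finrank_inf_eq p (Submodule.span F {v})
  rw [(Submodule.disjoint_span_singleton_of_notMem hv).eq_bot, finrank_bot, add_zero,
    finrank_span_singleton h0] at h1
  exact h1

theorem finrank_le_sum_Ineq {F V Q I : Type} [Field F] [AddCommGroup V] [Module F V]
    [AddCommGroup Q] [Module F Q] [Fintype I] (A C : Submodule F V) [FiniteDimensional F A]
    [FiniteDimensional F C] (ε : I → V →ₗ[F] Q) (U : I → Submodule F Q)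
    [∀ i, FiniteDimensional F (U i)] (h1 : ∀ i, ∀ x ∈ A, ε i x ∈ U i)
    (h2 : ∀ x ∈ A, (∀ i, ε i x = 0) → x ∈ C) :
    finrank F A ≤ ∑ i, finrank F (U i) + finrank F C := by
  let f : A →ₗ[F] (∀ i, U i) :=
    LinearMap.pi fun i => ((ε i).domRestrict A).codRestrict (U i) fun x => h1 i x x.2
  have e1 := LinearMap.finrank_range_add_finrank_ker f
  have e2 : finrank F (LinearMap.range f) ≤ ∑ i, finrank F (U i) := by
    rw [← Module.finrank_pi_fintype]; exact Submodule.finrank_le _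
  have e3 : finrank F (LinearMap.ker f) ≤ finrank F C := by
    rw [← Submodule.finrank_map_subtype_eq]
    refine Submodule.finrank_mono ?_
    rintro x ⟨z, hz, rfl⟩
    refine h2 _ z.2 fun i => ?_
    exact congrArg Subtype.val (congrFun (LinearMap.mem_ker.1 hz) i)
  omega

theorem smul_mem_M_Ineq {g : K} (hg : g ∈ c.R 0) {φ : ι → K} (hφ : φ ∈ c.M ι) :
    g • φ ∈ c.M ι :=
  c.mem_M.2 fun a => mul_mem hg (c.mem_M.1 hφ a)

theorem cmp_Ineq [Fintype ι] (N : Submodule k (ι → K)) {D : ℤ} (hD : N ⊓ c.B ι D = ⊥)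
    (hN : ∀ g ∈ c.R 0, ∀ φ ∈ N, g • φ ∈ N) (e : ℕ) (W : Submodule (c.F e) (ι → K))
    (hW : FiniteDimensional (c.F e) W) (d : ℤ) : ∃ n : ℕ,
      (2 ^ e : ℤ) * finrank k ↥(W.restrictScalars k ⊓ N ⊓ c.B ι (2 ^ e * n + d)) ≤
        finrank (c.F e) W * (2 ^ e * n + d - D) := by
  obtain ⟨T, hT⟩ := eventually_atTop.1 (c.bd N hD hN e W hW)
  refine ⟨(T - d).toNat, hT _ ?_⟩
  have h1 : T - d ≤ ((T - d).toNat : ℤ) := Int.self_le_toNat _
  have h2 : (1 : ℤ) ≤ 2 ^ e := one_le_pow₀ (by norm_num)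
  have h3 : (0 : ℤ) ≤ ((T - d).toNat : ℤ) := Int.natCast_nonneg _
  nlinarith

theorem fd_inf_Ineq [Fintype ι] (G N : Submodule k (ι → K)) {D : ℤ} (hD : N ⊓ c.B ι D = ⊥)
    (t : ℤ) : FiniteDimensional k ↥(G ⊓ N ⊓ c.B ι t) :=
  c.fd (G ⊓ N) (D := D) (by rw [inf_assoc, hD, inf_bot_eq]) t

theorem genF_sup_Ineq (e : ℕ) (S' : Submodule k (ι → K)) (φ₀ : ι → K) :
    c.genF e (S' ⊔ Submodule.span k {φ₀}) = c.genF e S' ⊔ Submodule.span (c.F e) {φ₀} := by
  refine le_antisymm (Submodule.span_le.2 ?_) (sup_le (Submodule.span_mono ?_) ?_)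
  · have h : S' ⊔ Submodule.span k {φ₀} ≤
        (c.genF e S' ⊔ Submodule.span (c.F e) {φ₀}).restrictScalars k := by
      refine sup_le (fun x hx => ?_) (Submodule.span_le.2 ?_)
      · exact Submodule.mem_sup_left (Submodule.subset_span hx)
      · rintro x rfl
        exact Submodule.mem_sup_right (Submodule.subset_span rfl)
    exact fun x hx => h hx
  · exact fun x hx => Submodule.mem_sup_left hx
  · refine Submodule.span_le.2 ?_
    rintro x rfl
    exact Submodule.subset_span (Submodule.mem_sup_right (Submodule.subset_span rfl))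

theorem ev_lin_Ineq {J : Type} [AddCommGroup J] [Module k J] {e s : ℕ} (p : c.Pts e s J)
    (i : Fin s) {g : K} (hg : g ∈ c.R 0) :
    ∃ T : J →ₗ[k] J, ∀ h ∈ c.R 0, p.ev i (g * h) = T (p.ev i h) := by
  induction hg using Algebra.adjoin_induction with
  | mem x hx =>
    rcases hx with rfl | rfl
    · exact ⟨p.ξ i, fun h hh => by simpa [X] using p.hx i h hh⟩
    · exact ⟨p.η i, fun h hh => by simpa [Y] using p.hy i h hh⟩
  | algebraMap a =>
    exact ⟨a • LinearMap.id, fun h _ => by rw [← Algebra.smul_def, map_smul]; rfl⟩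
  | add x y _ _ hx hy =>
    obtain ⟨T, hT⟩ := hx
    obtain ⟨U, hU⟩ := hy
    exact ⟨T + U, fun h hh => by rw [add_mul, map_add, hT h hh, hU h hh]; rfl⟩
  | mul x y _ hy' hx hy =>
    obtain ⟨T, hT⟩ := hx
    obtain ⟨U, hU⟩ := hy
    exact ⟨T ∘ₗ U, fun h hh => by rw [mul_assoc, hT _ (mul_mem hy' hh), hU h hh]; rfl⟩

theorem ev_scal_Ineq {J : Type} [AddCommGroup J] [Module k J] {e s : ℕ} (p : c.Pts e s J)
    (i : Fin s) {g : K} (hg : g ∈ c.R e) :
    ∃ a : k, ∀ h ∈ c.R 0, p.ev i (g * h) = a • p.ev i h := by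
  induction hg using Algebra.adjoin_induction with
  | mem x hx =>
    rcases hx with rfl | rfl
    · exact ⟨_, p.hX i⟩
    · exact ⟨_, p.hY i⟩
  | algebraMap a => exact ⟨a, fun h _ => by rw [← Algebra.smul_def, map_smul]⟩
  | add x y _ _ hx hy =>
    obtain ⟨T, hT⟩ := hx
    obtain ⟨U, hU⟩ := hy
    exact ⟨T + U, fun h hh => by rw [add_mul, map_add, hT h hh, hU h hh, add_smul]⟩
  | mul x y _ hy' hx hy =>
    obtain ⟨T, hT⟩ := hx
    obtain ⟨U, hU⟩ := hy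
    exact ⟨T * U, fun h hh => by
      rw [mul_assoc, hT _ (mul_mem (c.R_le_zero e hy') hh), hU h hh, mul_smul]⟩

/-- Induction on `finrank S` with `dichotomy`.  Case (a): `m = 0`, `d' = finrank S`; compare
`growth_a` with `bd` for `N = M ι`, `D = -1` at `t = 2 ^ e * n + d` for large `n` (`genR_le`).
Case (b): `finrank S = finrank S' + 1`, the rank grows by one, `m` grows by one (`growth_b`). -/
theorem growth [Fintype ι] (e : ℕ) (S : Submodule k (ι → K)) [FiniteDimensional k S] {d : ℤ}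
    (hS : S ≤ c.M ι ⊓ c.B ι d) : ∃ d' m r' : ℕ, finrank k S = d' + m ∧
      finrank (c.F e) (c.genF e S) = r' + m ∧ (2 ^ e * d' : ℤ) ≤ r' * (d + 1) ∧
      ∀ n : ℕ, n * (r' + m) + d' ≤ finrank k ↥(c.genR e S ⊓ c.B ι (2 ^ e * n + d)) := by
  obtain ⟨n0, hn0⟩ : ∃ n0, finrank k S = n0 := ⟨_, rfl⟩
  induction n0 using Nat.strong_induction_on generalizing S with
  | _ n0 ih => ?_
  by_cases h : ∀ φ ∈ S, c.ω e • φ ∈ c.genR e S ⊔ c.genO e S
  · refine ⟨finrank k S, 0, finrank (c.F e) (c.genF e S), rfl, rfl, ?_, fun n => ?_⟩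
    · obtain ⟨n, hn⟩ := c.cmp_Ineq (c.M ι) (c.M_inf_B ι) (fun g hg φ hφ => c.smul_mem_M_Ineq hg hφ)
        e (c.genF e S) (c.fd_genF e S) d
      have h1 := c.growth_a e S hS h n
      have := c.fd_inf_Ineq ((c.genF e S).restrictScalars k) (c.M ι) (c.M_inf_B ι) (2 ^ e * n + d)
      have h2 : finrank k ↥(c.genR e S ⊓ c.B ι (2 ^ e * n + d)) ≤
          finrank k ↥((c.genF e S).restrictScalars k ⊓ c.M ι ⊓ c.B ι (2 ^ e * n + d)) :=
        Submodule.finrank_mono (inf_le_inf_right _ (c.genR_le e (hS.trans inf_le_left)))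
      have h3 := (Int.ofNat_le.2 (h1.trans h2))
      push_cast at h3
      have h4 : (0 : ℤ) ≤ 2 ^ e := by positivity
      have h5 := (mul_le_mul_of_nonneg_left h3 h4).trans hn
      linarith
    · rw [add_zero]; exact c.growth_a e S hS h n
  · obtain ⟨S', φ₀, rfl, h0⟩ := c.dichotomy e S h
    have : FiniteDimensional k S' :=
      Submodule.finiteDimensional_of_le (le_sup_left : S' ≤ S' ⊔ Submodule.span k {φ₀})
    have := c.fd_genF e S'
    have h1 : φ₀ ∉ S' := fun h => h0 (Submodule.subset_span h)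
    have h2 := finrank_sup_Ineq S' h1
    obtain ⟨d', m, r', e1, e2, e3, e4⟩ :=
      ih (finrank k S') (by omega) S' (le_sup_left.trans hS) rfl
    refine ⟨d', m + 1, r', by omega, ?_, e3, fun n => ?_⟩
    · rw [c.genF_sup_Ineq, finrank_sup_Ineq _ h0, e2, add_assoc]
    · have h3 := c.growth_b e S' φ₀ hS h0 n
      have h4 := e4 n
      have h5 : n * (r' + (m + 1)) = n * (r' + m) + n := by ring
      omega

/-- Sketch.  `N = M ι ⊓ ⨅ i, ker (ε i)` with `ε i = eps (cf i) (p.ev i)` is stable under `R 0`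
(`hx`, `hy`, adjoin induction) and `N ⊓ B D = ⊥`.  For `g ∈ R e` and `φ ∈ M ι`, `ε i (g • φ)` is a
scalar multiple of `ε i φ` (`hX`, `hY`, adjoin induction), so `ε i` maps `genR e S` into
`S.map (ε i)`.  Hence `finrank (genR ⊓ B t) ≤ ∑ rank i + finrank (genF ⊓ N ⊓ B t)`.  With `growth`
and `bd` at `t = 2 ^ e * n + d`, `n` large: `q (d' - ∑ rank) ≤ r (d - D)`, `r = r' + m`. -/
theorem rank_ineq [Fintype ι] {κ J : Type} [Fintype κ] [AddCommGroup J] [Module k J] {e s : ℕ}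
    (p : c.Pts e s J) (cf : Fin s → κ → ι → k) {D d : ℤ} (hT : Test cf p.ev (c.L 0 D))
    (S : Submodule k (ι → K)) (hS : S ≤ Submodule.pi Set.univ fun _ => c.L 0 d) :
    ∃ d' m r' : ℕ, finrank k S = d' + m ∧ (2 ^ e * d' : ℤ) ≤ r' * (d + 1) ∧
      (2 ^ e * d' : ℤ) + (r' + m) * (D - d) ≤
        2 ^ e * ∑ i, (finrank k (S.map (eps (cf i) (p.ev i))) : ℤ) := by
  have hS' : S ≤ c.M ι ⊓ c.B ι d := fun φ hφ =>
    ⟨c.mem_M.2 fun a => (hS hφ a trivial).1, c.mem_B.2 fun a => (hS hφ a trivial).2⟩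
  have := c.fd (c.M ι) (c.M_inf_B ι) d
  have : FiniteDimensional k S := Submodule.finiteDimensional_of_le hS'
  obtain ⟨d', m, r', e1, e2, e3, e4⟩ := c.growth e S hS'
  refine ⟨d', m, r', e1, e3, ?_⟩
  let N : Submodule k (ι → K) := c.M ι ⊓ ⨅ i, LinearMap.ker (eps (cf i) (p.ev i))
  have hmem : ∀ φ, φ ∈ N ↔ φ ∈ c.M ι ∧ ∀ i, eps (cf i) (p.ev i) φ = 0 := fun φ => by
    simp only [N, Submodule.mem_inf, Submodule.mem_iInf, LinearMap.mem_ker]
  have hD : N ⊓ c.B ι D = ⊥ := by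
    refine eq_bot_iff.2 fun φ hφ => ?_
    obtain ⟨h1, h2⟩ := (hmem φ).1 hφ.1
    exact hT φ (fun a => ⟨c.mem_M.1 h1 a, c.mem_B.1 hφ.2 a⟩) h2
  have hN : ∀ g ∈ c.R 0, ∀ φ ∈ N, g • φ ∈ N := fun g hg φ hφ => by
    obtain ⟨h1, h2⟩ := (hmem φ).1 hφ
    refine (hmem _).2 ⟨c.smul_mem_M_Ineq hg h1, fun i => ?_⟩
    obtain ⟨T, hT'⟩ := c.ev_lin_Ineq p i hg
    funext x
    have h3 : eps (cf i) (p.ev i) (g • φ) x = T (eps (cf i) (p.ev i) φ x) := by
      rw [eps_apply, eps_apply, map_sum]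
      refine Finset.sum_congr rfl fun a _ => ?_
      rw [map_smul, ← hT' _ (c.mem_M.1 h1 a)]
      rfl
    rw [h3, h2 i]
    exact map_zero T
  obtain ⟨n, hn⟩ := c.cmp_Ineq N hD hN e (c.genF e S) (c.fd_genF e S) d
  have hle := c.genR_le e (hS'.trans inf_le_left)
  have := c.fd_inf_Ineq ((c.genF e S).restrictScalars k) N hD (2 ^ e * n + d)
  have := c.fd_inf_Ineq ((c.genF e S).restrictScalars k) (c.M ι) (c.M_inf_B ι) (2 ^ e * n + d)
  have : FiniteDimensional k ↥(c.genR e S ⊓ c.B ι (2 ^ e * n + d)) :=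
    Submodule.finiteDimensional_of_le (inf_le_inf_right _ hle)
  have hmap : ∀ i, c.genR e S ≤ (S.map (eps (cf i) (p.ev i))).comap (eps (cf i) (p.ev i)) := by
    intro i
    refine Submodule.span_le.2 ?_
    rintro _ ⟨g, hg, φ, hφ, rfl⟩
    obtain ⟨a, ha⟩ := c.ev_scal_Ineq p i hg
    refine ⟨a • φ, S.smul_mem a hφ, ?_⟩
    rw [map_smul]
    funext x
    rw [Pi.smul_apply, eps_apply, eps_apply, Finset.smul_sum]
    refine Finset.sum_congr rfl fun b _ => ?_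
    rw [smul_comm, ← ha _ (c.mem_M.1 (hS' hφ).1 b)]
    rfl
  have h1 := finrank_le_sum_Ineq (c.genR e S ⊓ c.B ι (2 ^ e * n + d))
    ((c.genF e S).restrictScalars k ⊓ N ⊓ c.B ι (2 ^ e * n + d))
    (fun i => eps (cf i) (p.ev i)) (fun i => S.map (eps (cf i) (p.ev i)))
    (fun i x hx => hmap i hx.1)
    (fun x hx h0 => ⟨⟨(hle hx.1).1, (hmem x).2 ⟨(hle hx.1).2, h0⟩⟩, hx.2⟩)
  have h3 := Int.ofNat_le.2 ((e4 n).trans h1)
  rw [e2] at hn
  push_cast at h3 hn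
  have h4 : (0 : ℤ) ≤ 2 ^ e := by positivity
  have h5 := mul_le_mul_of_nonneg_left h3 h4
  linarith

/-- Arithmetic from `rank_ineq`: `q b Σ ≥ b q d' + (r' + m) b (D - d)`, `b (D - d) ≥ (1 - b)(d + 1)`,
`r' (d + 1) ≥ q d'`, `(1 - b) (d + 1) ≥ q`. -/
theorem main_ineq [Fintype ι] {κ J : Type} [Fintype κ] [AddCommGroup J] [Module k J] {e s : ℕ}
    (p : c.Pts e s J) (cf : Fin s → κ → ι → k) {D d : ℤ} (hT : Test cf p.ev (c.L 0 D)) {b : ℝ}
    (hb0 : 0 ≤ b) (hb1 : b ≤ 1) (h1 : (d : ℝ) + 1 ≤ b * D) (h2 : (2 : ℝ) ^ e ≤ (1 - b) * (d + 1))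
    (S : Submodule k (ι → K)) (hS : S ≤ Submodule.pi Set.univ fun _ => c.L 0 d) :
    (finrank k S : ℝ) ≤ b * ∑ i, (finrank k (S.map (eps (cf i) (p.ev i))) : ℝ) := by
  obtain ⟨d', m, r', e1, e2, e3⟩ := c.rank_ineq p cf hT S hS
  have e2' : (2 ^ e * d' : ℝ) ≤ r' * (d + 1) := by exact_mod_cast e2
  have e3' : (2 ^ e * d' : ℝ) + (r' + m) * (D - d) ≤
      2 ^ e * ∑ i, (finrank k (S.map (eps (cf i) (p.ev i))) : ℝ) := by exact_mod_cast e3
  rw [e1]
  push_cast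
  generalize ∑ i, (finrank k (S.map (eps (cf i) (p.ev i))) : ℝ) = σ at e3' ⊢
  have hq : (0 : ℝ) < 2 ^ e := by positivity
  generalize (2 : ℝ) ^ e = q at *
  have hr : (0 : ℝ) ≤ r' := Nat.cast_nonneg _
  have hm : (0 : ℝ) ≤ m := Nat.cast_nonneg _
  have a1 : (1 - b) * (d + 1) ≤ b * (D - d) := by linarith
  have a2 := mul_le_mul_of_nonneg_left e3' hb0
  have a3 := mul_le_mul_of_nonneg_left a1 (add_nonneg hr hm)
  have a4 := mul_le_mul_of_nonneg_left e2' (sub_nonneg.2 hb1)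
  have a5 := mul_le_mul_of_nonneg_left h2 hm
  refine le_of_mul_le_mul_left ?_ hq
  linarith

end Pool.Agent.P.MP_c64be1_ag.Ell.Crv
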