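import Pool.Agent.P.MP_c64be1_ag.Ell.Val

/-! Jets at points of the curve. -/

namespace Pool.Agent.P.MP_c64be1_ag.Ell.Crv

open WithZero Module Polynomial

variable {k K : Type} [Field k] [Field K] [Algebra k K] (c : Crv k K)

theorem frob_Jets {A : Type} [CommRing A] (h2 : (2 : A) = 0) (u w : A) (n : ℕ) :
    (u + w) ^ 2 ^ n = u ^ 2 ^ n + w ^ 2 ^ n := by
  induction n with
  | zero => simp
  | succ n ih =>
    rw [pow_succ 2 n, pow_mul, pow_mul, pow_mul, ih]
    linear_combination (u ^ 2 ^ n * w ^ 2 ^ n) * h2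

theorem tele_Jets {A : Type} [CommRing A] (h2 : (2 : A) = 0) (w : A) (n : ℕ) :
    (∑ j ∈ Finset.range n, w ^ 2 ^ j) ^ 2 + ∑ j ∈ Finset.range n, w ^ 2 ^ j = w ^ 2 ^ n + w := by
  induction n with
  | zero =>
    simp only [Finset.range_zero, Finset.sum_empty, pow_zero, pow_one]
    linear_combination (-w) * h2
  | succ n ih =>
    rw [Finset.sum_range_succ, pow_succ 2 n, pow_mul]
    linear_combination ih + ((∑ j ∈ Finset.range n, w ^ 2 ^ j) * w ^ 2 ^ n + w ^ 2 ^ n) * h2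

theorem jet_Jets {A : Type} [CommRing A] (h2 : (2 : A) = 0) (e : ℕ) (ε a b : A)
    (hε : ε ^ 2 ^ e = 0) (h : b ^ 2 + b = a ^ 3) :
    ∃ η : A, η ^ 2 + η = (a + ε) ^ 3 ∧ η ^ 2 ^ e = b ^ 2 ^ e := by
  have hw : ε ∣ (a + ε) ^ 3 + a ^ 3 :=
    ⟨ε ^ 2 + 3 * a * ε + 3 * a ^ 2, by linear_combination (a ^ 3) * h2⟩
  have hz : ∀ t : A, ε ∣ t → t ^ 2 ^ e = 0 := by
    rintro t ⟨u, rfl⟩
    rw [mul_pow, hε, zero_mul]
  refine ⟨b + ∑ j ∈ Finset.range e, ((a + ε) ^ 3 + a ^ 3) ^ 2 ^ j, ?_, ?_⟩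
  · have h1 := tele_Jets h2 ((a + ε) ^ 3 + a ^ 3) e
    rw [hz _ hw] at h1
    linear_combination h1 + h +
      (b * (∑ j ∈ Finset.range e, ((a + ε) ^ 3 + a ^ 3) ^ 2 ^ j) + a ^ 3) * h2
  · rw [frob_Jets h2, hz (∑ j ∈ Finset.range e, ((a + ε) ^ 3 + a ^ 3) ^ 2 ^ j)
      (Finset.dvd_sum fun j _ => dvd_pow hw (by positivity)), add_zero]

/-- The linear map `(a, b) ↦ a (u) + b (u) w`. -/
noncomputable def phi_Jets {A : Type} [CommRing A] [Algebra k A] (u w : A) :
    (k[X] × k[X]) →ₗ[k] A where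
  toFun p := aeval u p.1 + aeval u p.2 * w
  map_add' p q := by
    simp only [Prod.fst_add, Prod.snd_add, map_add]
    ring
  map_smul' r p := by
    simp only [Prod.smul_fst, Prod.smul_snd, map_smul, RingHom.id_apply, smul_add, smul_mul_assoc]

theorem phi_apply_Jets {A : Type} [CommRing A] [Algebra k A] (u w : A) (a b : k[X]) :
    phi_Jets u w (a, b) = aeval u a + aeval u b * w := rfl

theorem phi_x_Jets {A : Type} [CommRing A] [Algebra k A] (u w : A) (a b : k[X]) :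
    u * phi_Jets u w (a, b) = phi_Jets u w (Polynomial.X * a, Polynomial.X * b) := by
  simp only [phi_apply_Jets, map_mul, aeval_X]
  ring

theorem phi_y_Jets {A : Type} [CommRing A] [Algebra k A] {u w : A} (h : w ^ 2 + w = u ^ 3)
    (a b : k[X]) :
    w * phi_Jets u w (a, b) = phi_Jets u w (b * Polynomial.X ^ 3, a - b) := by
  simp only [phi_apply_Jets, map_mul, map_pow, map_sub, aeval_X]
  linear_combination (aeval u b) * h

theorem phi_norm_Jets {A : Type} [CommRing A] [Algebra k A] {u w : A} (h : w ^ 2 + w = u ^ 3)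
    (a b : k[X]) :
    aeval u (a ^ 2 - a * b - b ^ 2 * Polynomial.X ^ 3) =
      phi_Jets u w (a, b) * phi_Jets u w (a - b, -b) := by
  simp only [phi_apply_Jets, map_mul, map_pow, map_sub, map_neg, aeval_X]
  linear_combination (aeval u b) ^ 2 * h

theorem X_zero_Jets : c.X 0 = c.x := by simp [Crv.X]

theorem Y_zero_Jets : c.Y 0 = c.y := by simp [Crv.Y]

theorem v_phi_Jets (a b : k[X]) : c.v (phi_Jets c.x c.y (a, b)) =
    max (c.v (aeval c.x a)) (c.v (aeval c.x b * c.y)) := by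
  have h := c.v_add_mul 0 a b
  rw [c.X_zero_Jets, c.Y_zero_Jets] at h
  exact h

theorem v_ne_Jets {a : k[X]} (ha : a ≠ 0) : c.v (aeval c.x a) ≠ 0 := by
  have h := c.v_aeval 0 ha
  rw [c.X_zero_Jets] at h
  rw [h]
  exact exp_ne_zero

theorem phi_inj_Jets : LinearMap.ker (phi_Jets (k := k) c.x c.y) = ⊥ := by
  rw [LinearMap.ker_eq_bot']
  rintro ⟨a, b⟩ h
  have h1 := c.v_phi_Jets a b
  rw [h, map_zero] at h1
  have ha : a = 0 := by
    by_contra ha
    exact c.v_ne_Jets ha (le_zero_iff.1 (h1 ▸ le_max_left _ _))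
  have hb : b = 0 := by
    by_contra hb
    have h2 : c.v (aeval c.x b * c.y) = 0 := le_zero_iff.1 (h1 ▸ le_max_right _ _)
    rw [map_mul, c.vy] at h2
    exact mul_ne_zero (c.v_ne_Jets hb) exp_ne_zero h2
  rw [ha, hb]
  rfl

theorem mem_R_Jets {g : K} (hg : g ∈ c.R 0) : ∃ a b : k[X], g = phi_Jets c.x c.y (a, b) := by
  obtain ⟨a, b, h⟩ := c.mem_R_iff.1 hg
  rw [c.X_zero_Jets, c.Y_zero_Jets] at h
  exact ⟨a, b, h⟩

theorem v_conj_Jets (a b : k[X]) :
    c.v (phi_Jets c.x c.y (a - b, -b)) ≤ c.v (phi_Jets c.x c.y (a, b)) := by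
  rw [c.v_phi_Jets, c.v_phi_Jets]
  have h1 : c.v (aeval c.x b) ≤ c.v (aeval c.x b * c.y) := by
    rw [map_mul, c.vy]
    refine le_mul_of_one_le_right' ?_
    rw [← exp_zero]
    exact exp_le_exp.2 (by norm_num)
  refine max_le ?_ ?_
  · rw [map_sub]
    exact c.v.map_sub_le (le_max_left _ _) (h1.trans (le_max_right _ _))
  · rw [map_neg, neg_mul, Valuation.map_neg]
    exact le_max_right _ _

theorem iter_Jets {A : Type} [CommRing A] [Algebra k A] (ev : K →ₗ[k] A) {z : K} (hz : z ∈ c.R 0)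
    {u : A} (h : ∀ g ∈ c.R 0, ev (z * g) = u * ev g) (n : ℕ) :
    ∀ g ∈ c.R 0, ev (z ^ n * g) = u ^ n * ev g := by
  induction n with
  | zero => intro g _; simp
  | succ n ih =>
    intro g hg
    rw [pow_succ, mul_assoc, ih _ (mul_mem hz hg), h g hg]
    ring

/-- Sketch (`q = 2 ^ e`).  `J = AdjoinRoot (X ^ q)` has dimension `q`, `ε = root`, `ε ^ q = 0`.
Put `ξ = px i + ε`, `w = ξ ^ 3 + px i ^ 3` (a multiple of `ε`), `η = py i + ∑ j < e, w ^ 2 ^ j`;
then `η ^ 2 + η = ξ ^ 3` (telescoping, `w ^ q = 0`), `ξ ^ q = px i ^ q`, `η ^ q = py i ^ q`.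
The linear map `(a, b) ↦ a (x) + b (x) y` from `k[X] × k[X]` to `K` is injective (`v_add_mul`,
`v_aeval` at level `0`) with range `R 0` (`mem_R_iff`); compose a linear left inverse
(`LinearMap.exists_leftInverse_of_injective`) with `(a, b) ↦ a (ξ) + b (ξ) η` to get `ev i`; it
satisfies `ev (x g) = ξ ev g`, `ev (y g) = η ev g` on `R 0` (`y (a + b y) = b x ^ 3 + (a + b) y`),
and `hX`, `hY` follow by iteration.  Vanishing: for `g = a (x) + b (x) y` the norm
`N = a ^ 2 + a b + b ^ 2 X ^ 3` satisfies `N (x) = g (g + b (x))`, `v (g + b (x)) ≤ v g`, so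
`natDegree N < q s`; `N (ξ) = (a (ξ) + b (ξ) η) (..) = 0` gives `(X - C (px i)) ^ q ∣ N` for all
`i`, these are pairwise coprime, so `N = 0`, and `g = 0` or `g + b (x) = 0`, in both cases
`a = b = 0` by injectivity. -/
theorem exists_pts [CharP k 2] (e s : ℕ) (px py : Fin s → k) (hinj : Function.Injective px)
    (h : ∀ i, py i ^ 2 + py i = px i ^ 3) :
    ∃ (J : Type) (_ : AddCommGroup J) (_ : Module k J) (_ : FiniteDimensional k J)
      (p : c.Pts e s J), finrank k J = 2 ^ e ∧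
      ∀ g ∈ c.L 0 (2 ^ e * s - 1), (∀ i, p.ev i g = 0) → g = 0 := by
  have hm : (Polynomial.X ^ 2 ^ e : k[X]).Monic := monic_X_pow _
  let J : Type := AdjoinRoot (Polynomial.X ^ 2 ^ e : k[X])
  let ε : J := AdjoinRoot.root _
  have hε : ε ^ 2 ^ e = 0 := by
    have h1 : aeval ε (Polynomial.X ^ 2 ^ e : k[X]) = 0 := by
      rw [AdjoinRoot.aeval_eq, AdjoinRoot.mk_self]
    simpa using h1
  have h2 : (2 : J) = 0 := by
    have h1 : (2 : k) = 0 := CharP.cast_eq_zero k 2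
    rw [← map_ofNat (algebraMap k J) 2, h1, map_zero]
  have hJ : ∀ i, ∃ η : J, η ^ 2 + η = (algebraMap k J (px i) + ε) ^ 3 ∧
      η ^ 2 ^ e = algebraMap k J (py i) ^ 2 ^ e := fun i =>
    jet_Jets h2 e ε _ _ hε (by rw [← map_pow, ← map_add, h i, map_pow])
  choose η hη hηq using hJ
  obtain ⟨Λ, hΛ⟩ := (phi_Jets (k := k) c.x c.y).exists_leftInverse_of_injective c.phi_inj_Jets
  let ev : Fin s → K →ₗ[k] J := fun i => (phi_Jets (algebraMap k J (px i) + ε) (η i)).comp Λ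
  have hev : ∀ i (p : k[X] × k[X]), ev i (phi_Jets c.x c.y p) =
      phi_Jets (algebraMap k J (px i) + ε) (η i) p := by
    intro i p
    have h1 : Λ (phi_Jets c.x c.y p) = p := LinearMap.congr_fun hΛ p
    simp only [ev, LinearMap.comp_apply, h1]
  have hx : ∀ i, ∀ g ∈ c.R 0, ev i (c.x * g) = (algebraMap k J (px i) + ε) * ev i g := by
    intro i g hg
    obtain ⟨a, b, rfl⟩ := c.mem_R_Jets hg
    rw [phi_x_Jets, hev, hev, phi_x_Jets]
  have hy : ∀ i, ∀ g ∈ c.R 0, ev i (c.y * g) = η i * ev i g := by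
    intro i g hg
    obtain ⟨a, b, rfl⟩ := c.mem_R_Jets hg
    rw [phi_y_Jets c.eqn, hev, hev, phi_y_Jets (hη i)]
  have hxR : c.x ∈ c.R 0 := c.X_zero_Jets ▸ c.X_mem_R 0
  have hyR : c.y ∈ c.R 0 := c.Y_zero_Jets ▸ c.Y_mem_R 0
  refine ⟨J, inferInstance, inferInstance, hm.finite_adjoinRoot,
    { ev := ev
      ξ := fun i => LinearMap.mulLeft k (algebraMap k J (px i) + ε)
      η := fun i => LinearMap.mulLeft k (η i)
      χ := fun i => px i ^ 2 ^ e
      χ' := fun i => py i ^ 2 ^ e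
      hx := hx
      hy := hy
      hX := fun i g hg => ?_
      hY := fun i g hg => ?_ }, ?_, ?_⟩
  · rw [Crv.X, c.iter_Jets (ev i) hxR (hx i) _ g hg, frob_Jets h2, hε, add_zero, ← map_pow,
      Algebra.smul_def]
  · rw [Crv.Y, c.iter_Jets (ev i) hyR (hy i) _ g hg, hηq, ← map_pow, Algebra.smul_def]
  · rw [(AdjoinRoot.powerBasis' hm).finrank]
    simp [AdjoinRoot.powerBasis']
  · intro g hg hz
    obtain ⟨hR, hv⟩ := c.mem_L.1 hg
    obtain ⟨a, b, rfl⟩ := c.mem_R_Jets hR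
    have hN : a ^ 2 - a * b - b ^ 2 * Polynomial.X ^ 3 = 0 := by
      by_contra hN
      have h3 := c.v_aeval 0 hN
      rw [c.X_zero_Jets, phi_norm_Jets c.eqn, map_mul] at h3
      have h4 : c.v (phi_Jets c.x c.y (a, b)) * c.v (phi_Jets c.x c.y (a - b, -b)) ≤
          exp (2 ^ e * s - 1 : ℤ) * exp (2 ^ e * s - 1 : ℤ) :=
        mul_le_mul' hv ((c.v_conj_Jets a b).trans hv)
      rw [h3, ← exp_add, exp_le_exp] at h4
      have h5 : ∀ i, (Polynomial.X - C (px i)) ^ 2 ^ e ∣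
          a ^ 2 - a * b - b ^ 2 * Polynomial.X ^ 3 := by
        intro i
        rw [X_sub_C_pow_dvd_iff, ← AdjoinRoot.mk_eq_zero, ← AdjoinRoot.aeval_eq, aeval_comp]
        have h6 : aeval ε (Polynomial.X + C (px i)) = algebraMap k J (px i) + ε := by
          rw [map_add, aeval_X, aeval_C, add_comm]
        have h7 : ev i (phi_Jets c.x c.y (a, b)) = 0 := hz i
        rw [hev] at h7
        change aeval (aeval ε (Polynomial.X + C (px i))) _ = 0
        rw [h6, phi_norm_Jets (hη i), h7, zero_mul]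
      have h8 : (∏ i, (Polynomial.X - C (px i)) ^ 2 ^ e) ∣
          a ^ 2 - a * b - b ^ 2 * Polynomial.X ^ 3 :=
        Finset.prod_dvd_of_coprime
          (fun i _ j _ hij => (pairwise_coprime_X_sub_C hinj hij).pow) fun i _ => h5 i
      have h9 := natDegree_le_of_dvd h8 hN
      rw [natDegree_prod_of_monic _ _ fun i _ => (monic_X_sub_C _).pow _] at h9
      simp only [natDegree_pow, natDegree_X_sub_C, mul_one, Finset.sum_const, Finset.card_univ,
        Fintype.card_fin, smul_eq_mul] at h9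
      have h10 : ((s * 2 ^ e : ℕ) : ℤ) ≤
          ((a ^ 2 - a * b - b ^ 2 * Polynomial.X ^ 3).natDegree : ℤ) := by exact_mod_cast h9
      push_cast at h10
      nlinarith
    have h3 := phi_norm_Jets c.eqn a b
    rw [hN, map_zero] at h3
    rcases mul_eq_zero.1 h3.symm with h4 | h4
    · exact h4
    · have h5 : ((a - b, -b) : k[X] × k[X]) = 0 :=
        LinearMap.ker_eq_bot'.1 c.phi_inj_Jets _ h4
      have hb : b = 0 := neg_eq_zero.1 (congrArg Prod.snd h5)
      have ha : a = 0 := by simpa [hb] using congrArg Prod.fst h5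
      rw [ha, hb]
      exact map_zero _

end Pool.Agent.P.MP_c64be1_ag.Ell.Crv
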