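import Pool.Agent.P.MP_c64be1_ag.Ell.Defs

/-! Adding a tensor factor. -/

namespace Pool.Agent.P.MP_c64be1_ag.Ell

open Module

variable {F T Q I J ι κ W : Type} [Field F] [AddCommGroup T] [Module F T] [AddCommGroup Q]
  [Module F Q]

/-- Sketch.  Take a basis `σ l` of `S` and a basis `f i p` of `S.map (eps (cf i) id)`, write
`eps (cf i) id (σ l) = ∑ p, γ i l p • f i p`.  The linear map from `Fin (finrank S) → P` to
`∀ i, Fin (rank i) → Q`, `g ↦ fun i p => ∑ l, γ i l p • ev i (g l)` is injective: if `g` is in the
kernel then `φ a = ∑ l, σ l a • g l` is killed by all `eps (cf i) (ev i)`, so `φ = 0`, and `g = 0`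
by independence of `σ` (apply functionals on `T`).  Compare dimensions. -/
theorem last_ineq [Fintype ι] [Fintype κ] {s : ℕ} (cf : Fin s → κ → ι → F)
    (ev : Fin s → T →ₗ[F] Q) (P : Submodule F T) [FiniteDimensional F P] [FiniteDimensional F Q]
    (h : Test cf ev P) (S : Submodule F (ι → F)) :
    finrank F P * finrank F S ≤
      finrank F Q * ∑ i, finrank F (S.map (eps (cf i) (LinearMap.id : F →ₗ[F] F))) := by
  classical
  let U : Fin s → Submodule F (κ → F) := fun i =>
    S.map (eps (cf i) (LinearMap.id : F →ₗ[F] F))
  let σ := Module.finBasis F S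
  let f : ∀ i, Basis (Fin (finrank F (U i))) F (U i) := fun i => Module.finBasis F (U i)
  let w : ∀ i, Fin (finrank F S) → U i := fun i l =>
    ⟨eps (cf i) (LinearMap.id : F →ₗ[F] F) (σ l : ι → F), Submodule.mem_map_of_mem (σ l).2⟩
  let γ : ∀ i, Fin (finrank F S) → Fin (finrank F (U i)) → F := fun i l p => (f i).repr (w i l) p
  have hw : ∀ i l e, ∑ a, cf i e a * (σ l : ι → F) a = ∑ p, γ i l p * (f i p : κ → F) e := by
    intro i l e
    have h1 := congrArg (fun z : U i => (z : κ → F) e) ((f i).sum_repr (w i l))
    simp only [Submodule.coe_sum, Submodule.coe_smul, Finset.sum_apply, Pi.smul_apply,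
      smul_eq_mul] at h1
    rw [h1]
    simp [w, eps_apply]
  let Φ : (Fin (finrank F S) → P) →ₗ[F] (∀ i, Fin (finrank F (U i)) → Q) :=
    { toFun := fun g i p => ∑ l, γ i l p • ev i (g l : T)
      map_add' := by
        intro g g'
        funext i p
        simp [Finset.sum_add_distrib]
      map_smul' := by
        intro b g
        funext i p
        simp only [Pi.smul_apply, Submodule.coe_smul, map_smul, RingHom.id_apply,
          Finset.smul_sum]
        exact Finset.sum_congr rfl fun l _ => smul_comm _ _ _ }
  have hΦ : Function.Injective Φ := by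
    rw [injective_iff_map_eq_zero]
    intro g hg
    have hg' : ∀ i p, ∑ l, γ i l p • ev i (g l : T) = 0 := fun i p =>
      congrFun (congrFun hg i) p
    have hφ := h (fun a => ∑ l, (σ l : ι → F) a • (g l : T))
      (fun a => P.sum_mem fun l _ => P.smul_mem _ (g l).2) (by
        intro i
        funext e
        rw [eps_apply]
        simp only [map_sum, map_smul, Finset.smul_sum, smul_smul, Pi.zero_apply]
        rw [Finset.sum_comm]
        simp only [← Finset.sum_smul, hw]
        simp only [Finset.sum_smul]
        rw [Finset.sum_comm]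
        refine Finset.sum_eq_zero fun p _ => ?_
        have := congrArg (fun z => (f i p : κ → F) e • z) (hg' i p)
        simp only [Finset.smul_sum, smul_smul, smul_zero] at this
        rw [← this]
        exact Finset.sum_congr rfl fun l _ => by rw [mul_comm])
    funext l
    apply Subtype.ext
    change (g l : T) = 0
    rw [← Module.forall_dual_apply_eq_zero_iff F]
    intro lam
    have hli := Fintype.linearIndependent_iff.1 σ.linearIndependent
      (fun l => lam (g l : T)) (by
        apply Subtype.ext
        funext a
        have := congrArg lam (congrFun hφ a)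
        simp only [map_sum, map_smul, smul_eq_mul, Pi.zero_apply, map_zero] at this
        simp only [Submodule.coe_sum, Submodule.coe_smul, Finset.sum_apply, Pi.smul_apply,
          smul_eq_mul, Submodule.coe_zero, Pi.zero_apply]
        rw [← this]
        exact Finset.sum_congr rfl fun l _ => mul_comm _ _)
    exact hli l
  have hle := LinearMap.finrank_le_finrank_of_injective hΦ
  rw [Module.finrank_pi_fintype, Module.finrank_pi_fintype] at hle
  simp only [Module.finrank_pi_fintype, Finset.sum_const, Finset.card_univ, Fintype.card_fin,
    smul_eq_mul] at hle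
  rw [mul_comm, Finset.mul_sum]
  refine hle.trans (le_of_eq ?_)
  exact Finset.sum_congr rfl fun i _ => mul_comm _ _

end Pool.Agent.P.MP_c64be1_ag.Ell
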