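import Pool.Agent.P.MP_c64be1_ag.Ell.Defs

/-! Existence of the valued field, and of finite fields with many points of the curve. -/

namespace Pool.Agent.P.MP_c64be1_ag.Ell

theorem root_Laurent (k : Type) [Field k] :
    ∃ g : PowerSeries k, (PowerSeries.X * g) ^ 2 + PowerSeries.X * g = PowerSeries.X ^ 3 := by
  obtain ⟨b, hb, hb'⟩ := HenselianRing.is_henselian (R := PowerSeries k)
    (I := Ideal.span {PowerSeries.X})
    (Polynomial.X ^ 2 + (Polynomial.X - Polynomial.C (PowerSeries.X ^ 3)))
    (Polynomial.monic_X_pow_add (by rw [Polynomial.degree_X_sub_C]; decide)) 0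
    (by
      simp only [Polynomial.eval_add, Polynomial.eval_sub, Polynomial.eval_pow, Polynomial.eval_X,
        Polynomial.eval_C]
      exact Ideal.mem_span_singleton.2 ⟨-PowerSeries.X ^ 2, by ring⟩)
    (by simp [-map_pow, Polynomial.derivative_C])
  rw [sub_zero] at hb'
  obtain ⟨g, rfl⟩ := Ideal.mem_span_singleton.1 hb'
  refine ⟨g, ?_⟩
  simp only [Polynomial.IsRoot.def, Polynomial.eval_add, Polynomial.eval_sub, Polynomial.eval_pow,
    Polynomial.eval_X, Polynomial.eval_C] at hb
  linear_combination hb

theorem le_one_Laurent {k : Type} [Field k] (F : PowerSeries k) :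
    Valued.v (HahnSeries.ofPowerSeries ℤ k F : LaurentSeries k) ≤
      (1 : WithZero (Multiplicative ℤ)) :=
  (LaurentSeries.val_le_one_iff_eq_coe k _).2 ⟨F, rfl⟩

theorem vX_Laurent {k : Type} [Field k] :
    Valued.v (HahnSeries.ofPowerSeries ℤ k PowerSeries.X : LaurentSeries k) =
      WithZero.exp (-1 : ℤ) := by
  have := LaurentSeries.valuation_X_pow k 1
  rwa [pow_one] at this

theorem lt_one_Laurent {k : Type} [Field k] (F : PowerSeries k) :
    Valued.v (HahnSeries.ofPowerSeries ℤ k (PowerSeries.X * F) : LaurentSeries k) <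
      (1 : WithZero (Multiplicative ℤ)) := by
  rw [map_mul, map_mul, vX_Laurent]
  refine lt_of_le_of_lt (mul_le_of_le_one_right' (le_one_Laurent F)) ?_
  rw [← WithZero.exp_zero, WithZero.exp_lt_exp]
  decide

theorem alg_Laurent {k : Type} [Field k] (a : k) :
    algebraMap k (LaurentSeries k) a = HahnSeries.ofPowerSeries ℤ k (PowerSeries.C a) := by
  rw [LaurentSeries.algebraMap_apply]
  exact (PowerSeries.coe_C a).symm

/-- Sketch: `K = LaurentSeries k` with its valuation (`v u = exp (-1)` for the variable `u`).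
Let `b` be a power series without constant term with `b ^ 2 + b = u ^ 3` (coefficient `1` at the
exponents `3 * 2 ^ j`, or a recursion on coefficients, or Hensel).  Put `x = (1 + b) / u ^ 2`,
`y = (1 + b) / u ^ 3`.  For `res` subtract the constant coefficient. -/
theorem exists_crv (k : Type) [Field k] [CharP k 2] :
    ∃ (K : Type) (_ : Field K) (_ : Algebra k K), Nonempty (Crv k K) := by
  obtain ⟨g, hg⟩ := root_Laurent k
  set φ := HahnSeries.ofPowerSeries ℤ k with hφ
  set u : LaurentSeries k := φ PowerSeries.X with hu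
  set b : LaurentSeries k := φ (PowerSeries.X * g) with hb
  have vu : Valued.v u = WithZero.exp (-1 : ℤ) := vX_Laurent
  have u0 : u ≠ 0 := fun h => by
    rw [h, map_zero] at vu
    exact WithZero.exp_ne_zero vu.symm
  have v1 : Valued.v (1 + b) = (1 : WithZero (Multiplicative ℤ)) :=
    Valuation.map_one_add_of_lt _ (lt_one_Laurent g)
  have e : b ^ 2 + b = u ^ 3 := by rw [hb, hu, ← map_pow, ← map_pow, ← map_add, hg]
  refine ⟨LaurentSeries k, inferInstance, inferInstance,
    ⟨⟨Valued.v, (1 + b) / u ^ 2, (1 + b) / u ^ 3, ?_, ?_, ?_, ?_, ?_, ?_⟩⟩⟩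
  · rw [map_div₀, v1, map_pow, vu, ← WithZero.exp_nsmul, one_div, ← WithZero.exp_neg]
    rfl
  · rw [map_div₀, v1, map_pow, vu, ← WithZero.exp_nsmul, one_div, ← WithZero.exp_neg]
    rfl
  · field_simp
    linear_combination (-(1 + b)) * e
  · have h2 : (2 : k) = 0 := CharP.cast_eq_zero k 2
    rw [← map_ofNat (algebraMap k (LaurentSeries k)) 2, h2, map_zero]
  · intro a ha
    have h1 := le_one_Laurent (PowerSeries.C a)
    have h2 := le_one_Laurent (PowerSeries.C a⁻¹)
    rw [← alg_Laurent] at h1 h2
    rw [map_inv₀, map_inv₀] at h2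
    have h3 : Valued.v (algebraMap k (LaurentSeries k) a) ≠ (0 : WithZero (Multiplicative ℤ)) := by
      rw [Valuation.ne_zero_iff]
      exact (map_ne_zero _).2 ha
    exact le_antisymm h1 ((inv_le_one₀ (zero_lt_iff.2 h3)).1 h2)
  · intro z hz
    obtain ⟨F, rfl⟩ := (LaurentSeries.val_le_one_iff_eq_coe k z).1 hz
    obtain ⟨G, hG⟩ : PowerSeries.X ∣ F - PowerSeries.C (PowerSeries.constantCoeff F) := by
      rw [PowerSeries.X_dvd_iff]
      simp
    refine ⟨PowerSeries.constantCoeff F, ?_⟩
    rw [alg_Laurent, ← map_sub, hG]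
    exact lt_one_Laurent G

/-- Sketch: in `AlgebraicClosure (ZMod 2)` (infinite) take `s` distinct elements `x i` and roots
`y i` of `Y ^ 2 + Y - x i ^ 3`; let `k` be the intermediate field generated by these finitely many
algebraic elements (`IntermediateField.finiteDimensional_adjoin`, `Module.finite_of_finite`). -/
theorem exists_field (s : ℕ) : ∃ (k : Type) (_ : Field k) (_ : Finite k) (_ : CharP k 2)
    (px py : Fin s → k), Function.Injective px ∧ ∀ i, py i ^ 2 + py i = px i ^ 3 := by
  classical
  let E := AlgebraicClosure (ZMod 2)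
  let x : Fin s → E := fun i => Infinite.natEmbedding E i
  have hx : Function.Injective x := fun i j h =>
    Fin.ext ((Infinite.natEmbedding E).injective h)
  have hy : ∀ i, ∃ y : E, y ^ 2 + y = x i ^ 3 := fun i => by
    obtain ⟨y, hy⟩ := IsAlgClosed.exists_root
      (Polynomial.X ^ 2 + (Polynomial.X - Polynomial.C (x i ^ 3)) : Polynomial E) (by
        rw [Polynomial.degree_add_eq_left_of_degree_lt
          (by rw [Polynomial.degree_X_sub_C, Polynomial.degree_X_pow]; decide),
          Polynomial.degree_X_pow]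
        decide)
    simp only [Polynomial.IsRoot.def, Polynomial.eval_add, Polynomial.eval_sub, Polynomial.eval_pow,
      Polynomial.eval_X, Polynomial.eval_C] at hy
    exact ⟨y, by linear_combination hy⟩
  choose y hy using hy
  let S : Set E := Set.range x ∪ Set.range y
  have : Finite S := ((Set.finite_range x).union (Set.finite_range y)).to_subtype
  let L := IntermediateField.adjoin (ZMod 2) S
  have : FiniteDimensional (ZMod 2) L :=
    IntermediateField.finiteDimensional_adjoin fun z _ => Algebra.IsIntegral.isIntegral z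
  refine ⟨L, inferInstance, Module.finite_of_finite (ZMod 2), inferInstance,
    fun i => ⟨x i, IntermediateField.subset_adjoin _ _ (Or.inl ⟨i, rfl⟩)⟩,
    fun i => ⟨y i, IntermediateField.subset_adjoin _ _ (Or.inr ⟨i, rfl⟩)⟩,
    fun i j h => hx (congrArg Subtype.val h), fun i => Subtype.ext (hy i)⟩

end Pool.Agent.P.MP_c64be1_ag.Ell
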