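import Pool.Agent.P.MP_c64be1_ag.Ell.Defs2

/-! From tensors to polynomials; projection; the tangent criterion. -/

namespace Pool.Agent.P.MP_c64be1_ag.Ell

open MvPolynomial Module

theorem lin_isHomogeneous {Bl ι : Type} [Fintype ι] (b : Bl) (u : ι → ℂ) :
    (lin b u).IsHomogeneous 1 := by
  refine IsHomogeneous.sum _ _ _ fun a _ => ?_
  exact (isHomogeneous_X ℂ (b, a)).C_mul _

theorem lin_single {Bl ι : Type} [Fintype ι] [DecidableEq ι] (b : Bl) (a : ι) :
    lin b (Pi.single a 1 : ι → ℂ) = X (b, a) := by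
  unfold lin
  rw [Finset.sum_eq_single a]
  · simp
  · intro c _ hc
    simp [Pi.single_eq_of_ne hc]
  · intro h
    exact absurd (Finset.mem_univ a) h

/-- If the monomial is not in `W`, take a functional `λ` that kills `W` but not the monomial
(`Submodule.exists_le_ker_of_notMem` or similar) and apply `h` to
`ψ a = λ (∏ t, X (β t, a t))`; expand with `Finset.prod_univ_sum`. -/
theorem mono_mem {Bl I J ι : Type} [Fintype J] [DecidableEq J] [Fintype ι] {u : I → J → ι → ℂ}
    (h : PFill u) (β : J → Bl) (W : Submodule ℂ (MvPolynomial (Bl × ι) ℂ))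
    (hW : ∀ i, ∏ t, lin (β t) (u i t) ∈ W) (a : J → ι) : ∏ t, X (β t, a t) ∈ W := by
  by_contra hx
  obtain ⟨f, hf, hf'⟩ := W.exists_dual_map_eq_bot_of_notMem hx inferInstance
  have h0 := h (fun c => f (∏ t, X (β t, c t))) fun i => by
    have h1 : f (∏ t, lin (β t) (u i t)) = 0 := by
      have : f (∏ t, lin (β t) (u i t)) ∈ W.map f := Submodule.mem_map_of_mem (hW i)
      rw [hf'] at this
      exact (Submodule.mem_bot ℂ).mp this
    rw [← h1]
    unfold lin
    rw [Finset.prod_univ_sum, Fintype.piFinset_univ, map_sum]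
    refine Finset.sum_congr rfl fun c _ => ?_
    rw [Finset.prod_mul_distrib, ← map_prod C, ← smul_eq_C_mul, map_smul, smul_eq_mul]
  exact hf (congrFun h0 a)

/-- `homogeneousSubmodule_one_pow`, `homogeneousSubmodule_one_eq_span_X`, `Submodule.span_pow`,
`Set.mem_pow` (or induction on `k`). -/
theorem hom_le_of_mono {σ : Type} {k : ℕ} (W : Submodule ℂ (MvPolynomial σ ℂ))
    (h : ∀ p : Fin k → σ, ∏ t, X (p t) ∈ W) : homogeneousSubmodule σ ℂ k ≤ W := by
  rw [← homogeneousSubmodule_one_pow, homogeneousSubmodule_one_eq_span_X, Submodule.span_pow,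
    Submodule.span_le]
  intro q hq
  obtain ⟨g, rfl⟩ := Set.mem_pow.mp hq
  choose p hp using fun t => (g t).2
  have := h p
  rw [List.prod_ofFn]
  simpa [hp] using this

theorem prod_mem_pow {A : Type} [CommRing A] [Algebra ℂ A] (U : Submodule ℂ A) {k : ℕ}
    (f : Fin k → A) (hf : ∀ t, f t ∈ U) : ∏ t, f t ∈ U ^ k := by
  induction k with
  | zero =>
    rw [pow_zero, Fin.prod_univ_zero]
    exact Submodule.one_le.mp le_rfl
  | succ k ih =>
    rw [Fin.prod_univ_castSucc, pow_succ]
    exact Submodule.mul_mem_mul (ih _ fun t => hf _) (hf _)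

/-- Sketch: `killCompl` along `f` (or `aeval` sending the variables outside the range to zero) is an
algebra map `π` with `π (rename f G) = G`; it maps `sums σ k r s` into `sums σ' k r s`
(`mem_subCone_of_le`, `Submodule.map_pow`), and `coeff m (π G) = coeff (m.mapDomain f) G`.  Given
`P'` vanishing on `sums σ'`, apply density to `rename (Finsupp.mapDomain f) P'` and `rename f G`.
Compare `secantFills_rename`. -/
theorem secantFills_proj {σ σ' : Type} [Fintype σ] [Fintype σ'] {k r s : ℕ}
    (hc : Fintype.card σ' ≤ Fintype.card σ) (hr : r ≤ Fintype.card σ') (h : SecantFills σ k r s) :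
    SecantFills σ' k r s := by
  classical
  obtain ⟨f⟩ := Function.Embedding.nonempty_of_card_le hc
  intro P hP F hF
  have hev : ∀ G : MvPolynomial σ ℂ,
      eval (fun m => coeff m G) (rename (fun m => Finsupp.mapDomain f m) P)
        = eval (fun m => coeff m (killCompl f.injective G)) P := by
    intro G
    rw [eval_rename]
    congr 2
    funext m
    simp [coeff_killCompl]
  have hπ : ∀ (n : ℕ) (G : MvPolynomial σ ℂ), G.IsHomogeneous n →
      (killCompl f.injective G).IsHomogeneous n := by
    intro n G hG m hm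
    rw [coeff_killCompl] at hm
    have := hG hm
    rw [← this]
    simp only [Finsupp.weight_apply, Pi.one_apply, smul_eq_mul, mul_one]
    rw [Finsupp.sum_mapDomain_index (fun _ => rfl) (fun _ _ _ => rfl)]
  have h1 := h (rename (fun m => Finsupp.mapDomain f m) P) (fun G hG => by
    rw [hev]
    apply hP
    obtain ⟨H, hH, rfl⟩ := hG
    refine ⟨fun i => killCompl f.injective (H i), fun i => ?_, by simp⟩
    obtain ⟨U, hU, hUr, hm⟩ := hH i
    have : FiniteDimensional ℂ U := Submodule.finiteDimensional_of_le hU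
    refine mem_subCone_of_le hr (U := U.map
      (killCompl f.injective : MvPolynomial σ ℂ →ₐ[ℂ] MvPolynomial σ' ℂ).toLinearMap) ?_ ?_ ?_
    · rintro _ ⟨p, hp, rfl⟩
      exact hπ 1 p (hU hp)
    · rw [← hUr]
      exact Submodule.finrank_map_le _ _
    · rw [← Submodule.map_pow]
      exact ⟨_, hm, rfl⟩) (rename f F) hF.rename_isHomogeneous
  rw [hev, killCompl_rename_app] at h1
  exact h1

/-- `secantFills_of_tangent` with `F = 0`, `a = 0` (`Submodule.mem_iSup_iff_exists_finsupp` or
`iSup_induction`), then `secantFills_mono`. -/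
theorem fills_of_le {σ I : Type} [Fintype σ] [Fintype I] {k r s : ℕ} (hs : Fintype.card I ≤ s)
    (hr : r ≤ Fintype.card σ) (U : I → Submodule ℂ (MvPolynomial σ ℂ))
    (hU : ∀ i, U i ≤ homogeneousSubmodule σ ℂ 1) (hUr : ∀ i, finrank ℂ (U i) ≤ r)
    (h : homogeneousSubmodule σ ℂ k ≤ ⨆ i, U i ^ k) : SecantFills σ k r s := by
  classical
  refine secantFills_mono hr hs (secantFills_of_tangent rfl hr U hU hUr (fun _ => 0)
    (fun i => Submodule.zero_mem _) fun τ hτ => ?_)
  obtain ⟨w, hw, rfl⟩ := (Submodule.mem_iSup_iff_exists_finsupp _ _).mp (h hτ)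
  refine ⟨fun i => w i, fun _ _ => 0, hw, fun _ _ => isHomogeneous_zero _ _ _, ?_⟩
  rw [Finsupp.sum_fintype _ _ (fun _ => rfl)]
  simp

end Pool.Agent.P.MP_c64be1_ag.Ell
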