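import Pool.Agent.P.MP_c64be1_ag.Ell.NumM

/-! Arithmetic for small `r / n`. -/

namespace Pool.Agent.P.MP_c64be1_ag.Ell

open Nat

theorem E_le_NumS (K n : ℕ) {r : ℕ} (hr : K ≤ r) :
    (K ! : ℝ) * r * n + ((r : ℝ) + K) ^ K ≤ (K ! : ℝ) * r * n + 2 ^ K * (r : ℝ) ^ K := by
  have : (K : ℝ) ≤ r := by exact_mod_cast hr
  rw [← mul_pow]
  gcongr
  linarith

theorem eta_NumS (K : ℕ) (B : ℝ) {ε : ℝ} (hε : 0 < ε) : ∃ η : ℝ, 0 < η ∧ η ≤ 1 ∧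
    (1 + 3 * η) * (1 + η) ^ K ≤ (1 + ε / 2) * (1 - η) ^ K ∧ η * B ≤ ε / 4 := by
  have h1 : ∀ᶠ η : ℝ in nhds 0, (1 + 3 * η) * (1 + η) ^ K < (1 + ε / 2) * (1 - η) ^ K :=
    ContinuousAt.eventually_lt (by fun_prop) (by fun_prop) (by simpa using hε)
  have h2 : ∀ᶠ η : ℝ in nhds 0, η * B < ε / 4 :=
    ContinuousAt.eventually_lt (f := fun η : ℝ => η * B) (g := fun _ => ε / 4) (by fun_prop)
      (by fun_prop) (by simpa using hε)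
  have h3 : ∀ᶠ η : ℝ in nhds 0, η < 1 := eventually_lt_nhds one_pos
  have h4 : ∀ᶠ η : ℝ in nhdsWithin 0 (Set.Ioi 0), 0 < η := self_mem_nhdsWithin
  obtain ⟨η, a, b, c, d⟩ := (h4.and ((h3.and (h1.and h2)).filter_mono nhdsWithin_le_nhds)).exists
  exact ⟨η, a, b.le, c.le, d.le⟩

/-- Sketch (`K = k + 1`, `l = k h`, `N = l w`, `u = M - K`).  `π = s / l`, `μ = s u c / (h w ^ k)`.
`(K h μ + π) l w ^ K ≥ s (K u c N + w ^ K) - (K h + 1) l w ^ K`; the first term times `M ^ K` is at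
least `s (1 - η) ^ K (K ! r n + (r + K) ^ K) ≥ (1 + 3 η) (M N) ^ K`, and
`(K h + 1) l ≤ 3 l ^ 2 ≤ 3 η l ^ K`. -/
theorem num_main {k M u c h w n r s : ℕ} (hk : 2 ≤ k) {η θ : ℝ} (hη : 0 < η) (hη1 : η ≤ 1)
    (hθ : (1 + 3 * η) * (1 + η) ^ (k + 1) ≤ θ * (1 - η) ^ (k + 1)) (hM : 0 < M) (hh : 0 < h)
    (hw : 0 < w) (h1 : n ≤ M * (k * h * w)) (h2 : (M * (k * h * w) : ℝ) ≤ (1 + η) * n)
    (h3 : (1 - η) * ((r : ℝ) + (k + 1 : ℕ)) ≤ M * w)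
    (h4 : (1 - η) * ((k + 1)! : ℝ) * r ≤ (k + 1) * u * c * (M : ℝ) ^ k) (h5 : 1 ≤ η * (k * h))
    (hs : θ * (n : ℝ) ^ (k + 1) ≤ s * (((k + 1)! : ℝ) * r * n + ((r : ℝ) + (k + 1 : ℕ)) ^ (k + 1))) :
    ∃ π μ : ℕ, (k * h) ^ k ≤ (k + 1) * h * μ + π ∧ k * h * π ≤ s ∧ h * μ * w ^ k ≤ s * u * c := by
  have hl : 0 < k * h := Nat.mul_pos (by omega) hh
  have hd : 0 < h * w ^ k := Nat.mul_pos hh (Nat.pow_pos hw)
  refine ⟨s / (k * h), s * u * c / (h * w ^ k), ?_, Nat.mul_div_le _ _, ?_⟩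
  swap
  · rw [mul_right_comm]; exact Nat.mul_div_le _ _
  have e1 : (s : ℝ) ≤ (k * h) * (s / (k * h) : ℕ) + k * h := by
    have := Nat.lt_mul_div_succ s hl
    rw [Nat.mul_succ] at this
    exact_mod_cast this.le
  have e2 : (s * u * c : ℝ) ≤ (h * w ^ k) * (s * u * c / (h * w ^ k) : ℕ) + h * w ^ k := by
    have := Nat.lt_mul_div_succ (s * u * c) hd
    rw [Nat.mul_succ] at this
    exact_mod_cast this.le
  generalize s / (k * h) = π at e1 ⊢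
  generalize s * u * c / (h * w ^ k) = μ at e2 ⊢
  have hl1 : (1 : ℝ) ≤ k * h := by exact_mod_cast hl
  have hhl : (h : ℝ) ≤ k * h := by exact_mod_cast Nat.le_mul_of_pos_left h (by omega : 0 < k)
  have h1' : (n : ℝ) ≤ M * (k * h * w) := by exact_mod_cast h1
  have hw' : (0 : ℝ) < w := by exact_mod_cast hw
  have hM' : (0 : ℝ) < M := by exact_mod_cast hM
  have goal : ((k : ℝ) * h) ^ k ≤ (k + 1) * h * μ + π := by
    set l : ℝ := k * h with hldef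
    have hη0 : 0 ≤ 1 - η := sub_nonneg.2 hη1
    have a1 : (1 - η) ^ (k + 1) * (((k + 1)! : ℝ) * r * n) ≤
        (k + 1) * u * c * (M : ℝ) ^ k * (M * (l * w)) := by
      have b1 : (1 - η) ^ (k + 1) ≤ 1 - η := by
        rw [pow_succ]
        exact mul_le_of_le_one_left hη0 (pow_le_one₀ hη0 (by linarith))
      calc (1 - η) ^ (k + 1) * (((k + 1)! : ℝ) * r * n)
          ≤ (1 - η) * (((k + 1)! : ℝ) * r * n) := by gcongr
        _ = ((1 - η) * ((k + 1)! : ℝ) * r) * n := by ring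
        _ ≤ _ := mul_le_mul h4 h1' (by positivity) (by positivity)
    have a2 : (1 - η) ^ (k + 1) * ((r : ℝ) + (k + 1 : ℕ)) ^ (k + 1) ≤ ((M : ℝ) * w) ^ (k + 1) := by
      rw [← mul_pow]
      exact pow_le_pow_left₀ (by positivity) h3 _
    have a3 : (1 + 3 * η) * ((M : ℝ) * (l * w)) ^ (k + 1) ≤
        (1 - η) ^ (k + 1) * (θ * (n : ℝ) ^ (k + 1)) := by
      calc (1 + 3 * η) * ((M : ℝ) * (l * w)) ^ (k + 1)
          ≤ (1 + 3 * η) * ((1 + η) * n) ^ (k + 1) := by gcongr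
        _ = ((1 + 3 * η) * (1 + η) ^ (k + 1)) * (n : ℝ) ^ (k + 1) := by rw [mul_pow]; ring
        _ ≤ (θ * (1 - η) ^ (k + 1)) * (n : ℝ) ^ (k + 1) := by gcongr
        _ = _ := by ring
    have a4 : (1 + 3 * η) * (l * w) ^ (k + 1) ≤
        s * ((k + 1) * u * c * (l * w) + (w : ℝ) ^ (k + 1)) := by
      refine le_of_mul_le_mul_left ?_ (pow_pos hM' (k + 1))
      calc (M : ℝ) ^ (k + 1) * ((1 + 3 * η) * (l * w) ^ (k + 1))
          = (1 + 3 * η) * ((M : ℝ) * (l * w)) ^ (k + 1) := by rw [mul_pow (M : ℝ)]; ring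
        _ ≤ (1 - η) ^ (k + 1) * (θ * (n : ℝ) ^ (k + 1)) := a3
        _ ≤ (1 - η) ^ (k + 1) * (s * (((k + 1)! : ℝ) * r * n +
            ((r : ℝ) + (k + 1 : ℕ)) ^ (k + 1))) := by gcongr
        _ = s * ((1 - η) ^ (k + 1) * (((k + 1)! : ℝ) * r * n) +
            (1 - η) ^ (k + 1) * ((r : ℝ) + (k + 1 : ℕ)) ^ (k + 1)) := by ring
        _ ≤ s * ((k + 1) * u * c * (M : ℝ) ^ k * (M * (l * w)) + ((M : ℝ) * w) ^ (k + 1)) := by
            gcongr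
        _ = _ := by rw [mul_pow (M : ℝ)]; ring
    have a5 : ((k + 1) * h + 1) * l ≤ 3 * η * l ^ (k + 1) := by
      have b1 : l ^ 3 ≤ l ^ (k + 1) := pow_le_pow_right₀ hl1 (by omega)
      have b2 : ((k : ℝ) + 1) * h + 1 ≤ 3 * l := by rw [hldef] at *; linarith
      calc ((k + 1) * h + 1) * l ≤ 3 * l * l := by gcongr
        _ = 3 * l ^ 2 * 1 := by ring
        _ ≤ 3 * l ^ 2 * (η * l) := by gcongr
        _ = 3 * η * l ^ 3 := by ring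
        _ ≤ _ := by gcongr
    have hp : 0 < l * (w : ℝ) ^ (k + 1) := by positivity
    refine le_of_mul_le_mul_right ?_ hp
    have c1 := mul_le_mul_of_nonneg_right e2 (by positivity : (0 : ℝ) ≤ (k + 1) * (l * w))
    have c2 := mul_le_mul_of_nonneg_right e1 (by positivity : (0 : ℝ) ≤ (w : ℝ) ^ (k + 1))
    have c3 := mul_le_mul_of_nonneg_right a5 (by positivity : (0 : ℝ) ≤ (w : ℝ) ^ (k + 1))
    rw [mul_pow] at a4
    simp only [pow_succ] at a4 c1 c2 c3 ⊢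
    nlinarith [a4, c1, c2, c3]
  exact_mod_cast goal

/-- Sketch (`K = k + 1`, `E = K ! r n + (r + K) ^ K ≤ K ! r n + 2 ^ K r ^ K`).  If `n ≤ r ^ k` then
`E ≤ (K ! + 2 ^ K) r ^ K`; take `H = N / g + 1`, so `M H r ≤ (4 K + 1) n`.  Otherwise
`E ≤ (K ! + 2 ^ K) r n` and `a₂ N ^ k ≤ η (2 n) ^ k`, `r ≤ 2 K g`. -/
theorem num_cover {k M g N n r s a₁ a₂ : ℕ} {η θ : ℝ} (hη : 0 < η)
    (hθ : η * (4 * (k + 1) + 1) ^ (k + 1) * ((k + 1)! + 2 ^ (k + 1)) ≤ θ) (hr : k + 1 ≤ r)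
    (hM : M * r ≤ n) (hn : r ≤ n) (h1 : M * N ≤ 2 * n) (h2 : r ≤ 2 * (k + 1) * g)
    (ha₁ : (a₁ : ℝ) ≤ η * (M : ℝ) ^ (k + 1)) (ha₂ : (a₂ : ℝ) ≤ η * (M : ℝ) ^ k)
    (hs : θ * (n : ℝ) ^ (k + 1) ≤ s * (((k + 1)! : ℝ) * r * n + ((r : ℝ) + (k + 1 : ℕ)) ^ (k + 1))) :
    (∃ H, N ≤ H * g ∧ a₁ * H ^ (k + 1) ≤ s) ∨ a₂ * N ^ k ≤ s * g := by
  have hr0 : 0 < r := by omega
  have hg : 0 < g := Nat.pos_of_ne_zero fun e => by rw [e, mul_zero] at h2; omega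
  have hr' : (0 : ℝ) < r := by exact_mod_cast hr0
  have hn' : (0 : ℝ) < n := by exact_mod_cast hr0.trans_le hn
  have hF : (0 : ℝ) < ((k + 1)! : ℝ) + 2 ^ (k + 1) := by positivity
  have hE := E_le_NumS (k + 1) n hr
  have hs' : η * (4 * (k + 1) + 1) ^ (k + 1) * ((k + 1)! + 2 ^ (k + 1)) * (n : ℝ) ^ (k + 1) ≤
      s * (((k + 1)! : ℝ) * r * n + 2 ^ (k + 1) * (r : ℝ) ^ (k + 1)) :=
    (mul_le_mul_of_nonneg_right hθ (by positivity)).trans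
      (hs.trans (mul_le_mul_of_nonneg_left hE (by positivity)))
  rcases le_total n (r ^ k) with hc | hc
  · refine Or.inl ⟨N / g + 1, by rw [mul_comm]; exact (Nat.lt_mul_div_succ N hg).le, ?_⟩
    have b1 : M * (N / g + 1) * r ≤ (4 * (k + 1) + 1) * n := by
      have c1 : M * (N / g) * r ≤ M * (N / g) * (2 * (k + 1) * g) := Nat.mul_le_mul_left _ h2
      have c2 : 2 * (k + 1) * (M * (N / g * g)) ≤ 2 * (k + 1) * (M * N) :=
        Nat.mul_le_mul_left _ (Nat.mul_le_mul_left _ (Nat.div_mul_le_self N g))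
      have c3 : 2 * (k + 1) * (M * N) ≤ 2 * (k + 1) * (2 * n) := Nat.mul_le_mul_left _ h1
      calc M * (N / g + 1) * r = M * (N / g) * r + M * r := by ring
        _ ≤ M * (N / g) * (2 * (k + 1) * g) + n := Nat.add_le_add c1 hM
        _ = 2 * (k + 1) * (M * (N / g * g)) + n := by ring
        _ ≤ 2 * (k + 1) * (2 * n) + n := Nat.add_le_add_right (c2.trans c3) _
        _ = _ := by ring
    generalize N / g + 1 = H at b1 ⊢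
    have b2 : (M : ℝ) * H * r ≤ (4 * (k + 1) + 1) * n := by exact_mod_cast b1
    have hc' : (n : ℝ) ≤ (r : ℝ) ^ k := by exact_mod_cast hc
    have goal : (a₁ : ℝ) * (H : ℝ) ^ (k + 1) ≤ s := by
      refine le_of_mul_le_mul_right ?_ (mul_pos hF (pow_pos hr' (k + 1)))
      calc (a₁ : ℝ) * (H : ℝ) ^ (k + 1) * ((((k + 1)! : ℝ) + 2 ^ (k + 1)) * (r : ℝ) ^ (k + 1))
          ≤ η * (M : ℝ) ^ (k + 1) * (H : ℝ) ^ (k + 1) *
            ((((k + 1)! : ℝ) + 2 ^ (k + 1)) * (r : ℝ) ^ (k + 1)) := by gcongr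
        _ = η * ((M : ℝ) * H * r) ^ (k + 1) * (((k + 1)! : ℝ) + 2 ^ (k + 1)) := by
            rw [mul_pow, mul_pow]; ring
        _ ≤ η * ((4 * (k + 1) + 1) * (n : ℝ)) ^ (k + 1) * (((k + 1)! : ℝ) + 2 ^ (k + 1)) := by
            gcongr
        _ = η * (4 * (k + 1) + 1) ^ (k + 1) * ((k + 1)! + 2 ^ (k + 1)) * (n : ℝ) ^ (k + 1) := by
            rw [mul_pow]; ring
        _ ≤ _ := hs'
        _ ≤ s * (((k + 1)! : ℝ) * r * (r : ℝ) ^ k + 2 ^ (k + 1) * (r : ℝ) ^ (k + 1)) := by gcongr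
        _ = _ := by ring
    exact_mod_cast goal
  · right
    have hc' : (r : ℝ) ^ k ≤ n := by exact_mod_cast hc
    have h1' : (M : ℝ) * N ≤ 2 * n := by exact_mod_cast h1
    have h2' : (r : ℝ) ≤ 2 * (k + 1) * g := by exact_mod_cast h2
    have b1 : 2 * ((k : ℝ) + 1) * 2 ^ k ≤ (4 * (k + 1) + 1) ^ (k + 1) := by
      have hk0 : (0 : ℝ) ≤ k := Nat.cast_nonneg k
      rw [_root_.pow_succ']
      exact mul_le_mul (by linarith) (pow_le_pow_left₀ (by norm_num) (by linarith) k)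
        (by positivity) (by positivity)
    have goal : (a₂ : ℝ) * (N : ℝ) ^ k ≤ s * g := by
      refine le_of_mul_le_mul_right ?_ (mul_pos hF (by positivity : (0 : ℝ) < 2 * (k + 1) * n))
      calc (a₂ : ℝ) * (N : ℝ) ^ k * ((((k + 1)! : ℝ) + 2 ^ (k + 1)) * (2 * (k + 1) * n))
          ≤ η * (M : ℝ) ^ k * (N : ℝ) ^ k *
            ((((k + 1)! : ℝ) + 2 ^ (k + 1)) * (2 * (k + 1) * n)) := by gcongr
        _ = η * ((M : ℝ) * N) ^ k * ((((k + 1)! : ℝ) + 2 ^ (k + 1)) * (2 * (k + 1) * n)) := by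
            rw [mul_pow]; ring
        _ ≤ η * (2 * (n : ℝ)) ^ k * ((((k + 1)! : ℝ) + 2 ^ (k + 1)) * (2 * (k + 1) * n)) := by
            gcongr
        _ = η * (2 * ((k : ℝ) + 1) * 2 ^ k) * ((k + 1)! + 2 ^ (k + 1)) * (n : ℝ) ^ (k + 1) := by
            rw [mul_pow]; ring
        _ ≤ η * (4 * (k + 1) + 1) ^ (k + 1) * ((k + 1)! + 2 ^ (k + 1)) * (n : ℝ) ^ (k + 1) := by
            gcongr
        _ ≤ _ := hs'
        _ = s * (((k + 1)! : ℝ) * r * n + 2 ^ (k + 1) * (r * (r : ℝ) ^ k)) := by ring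
        _ ≤ s * (((k + 1)! : ℝ) * (2 * (k + 1) * g) * n +
            2 ^ (k + 1) * (2 * (k + 1) * g * n)) := by gcongr
        _ = _ := by ring
    exact_mod_cast goal

/-- Sketch.  Choose `η` by continuity for `num_main` with `θ = 1 + ε / 2` and `num_cover` with
`θ = ε / 4`, then `exists_par` with `C ≥ 8 (K ! + 2 ^ K) / ε`.  With `E` as above put
`s₁ = ⌈(1 + ε / 2) n ^ K / E⌉`, `s₂ = ⌈(ε / 4) n ^ K / E⌉`; `n ^ K / E ≥ A / (K ! + 2 ^ K) ≥ 8 / ε`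
gives `s₁ + s₂ ≤ (1 + ε) n ^ K / E ≤ s` by `hyp_pow`. -/
theorem num_small (k : ℕ) (hk : 2 ≤ k) {ε : ℝ} (hε : 0 < ε) : ∃ R A : ℕ, 1 ≤ A ∧ ∀ n r s : ℕ,
    R ≤ r → A * r ≤ n → (1 + ε) * ((n + (k + 1) - 1).choose (k + 1) : ℝ) ≤
      s * ((r * (n - r) + (r + (k + 1) - 1).choose (k + 1) : ℕ) : ℝ) →
    ∃ M c h w π μ s₁ s₂ : ℕ, 0 < h ∧ 0 < w ∧ (k * h) ^ k ≤ (k + 1) * h * μ + π ∧
      k * h * π ≤ s₁ ∧ w ≤ (M - (k + 1)).choose k * c ∧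
      h * μ * w ^ k ≤ s₁ * (M - (k + 1)) * c ∧ n ≤ M * (k * h * w) ∧
      (k + 1) * (M.choose (k + 1) * c) ≤ r ∧ s₁ + s₂ ≤ s ∧
      ((∃ H, k * h * w ≤ H * (M.choose (k + 1) * c) ∧ NI (k + 1) M * H ^ (k + 1) ≤ s₂) ∨
        NI k M * (k * h * w) ^ k ≤ s₂ * (M.choose (k + 1) * c)) := by
  obtain ⟨η, hη, hη1, hθ1, hθ2⟩ := eta_NumS (k + 1)
    ((4 * (k + 1) + 1) ^ (k + 1) * ((k + 1)! + 2 ^ (k + 1))) hε
  rw [← mul_assoc] at hθ2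
  obtain ⟨M, R, A, hN1, hN2, hM, hMA, hCA, hR, H⟩ := exists_par k hk hη hη1
    ⌈8 * (((k + 1)! : ℝ) + 2 ^ (k + 1)) / ε⌉₊
  refine ⟨R, A, hM.trans_le hMA, fun n r s hr hn hs => ?_⟩
  obtain ⟨c, h, w, hh, hw, p1, p2, p3, p4, p5, p6, p7, p8⟩ := H n r hr hn
  have hKr : k + 1 ≤ r := hR.trans hr
  have hA : 1 ≤ A := hM.trans_le hMA
  have hrn : r ≤ n := (Nat.le_mul_of_pos_left r hA).trans hn
  have hs' := hyp_pow (by positivity : 0 ≤ 1 + ε) hs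
  have hE := E_le_NumS (k + 1) n hKr
  set E : ℝ := ((k + 1)! : ℝ) * r * n + ((r : ℝ) + (k + 1 : ℕ)) ^ (k + 1) with hEdef
  have hE0 : 0 < E := by positivity
  have hF : (0 : ℝ) < ((k + 1)! : ℝ) + 2 ^ (k + 1) := by positivity
  have hX : 8 ≤ ε * ((n : ℝ) ^ (k + 1) / E) := by
    have hA' : (1 : ℝ) ≤ A := by exact_mod_cast hA
    have hn' : (A : ℝ) * r ≤ n := by exact_mod_cast hn
    have hn1 : (1 : ℝ) ≤ n := by exact_mod_cast (by omega : 1 ≤ n)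
    have b1 : (A : ℝ) * r * n ≤ (n : ℝ) ^ (k + 1) :=
      calc (A : ℝ) * r * n ≤ n * n := by gcongr
        _ = (n : ℝ) ^ 2 := by ring
        _ ≤ _ := pow_le_pow_right₀ hn1 (by omega)
    have b2 : (A : ℝ) * (r : ℝ) ^ (k + 1) ≤ (n : ℝ) ^ (k + 1) :=
      calc (A : ℝ) * (r : ℝ) ^ (k + 1) ≤ (A : ℝ) ^ (k + 1) * (r : ℝ) ^ (k + 1) := by
            gcongr; exact le_self_pow₀ hA' (Nat.succ_ne_zero k)
        _ = ((A : ℝ) * r) ^ (k + 1) := (mul_pow _ _ _).symm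
        _ ≤ _ := by gcongr
    have b3 : 8 * (((k + 1)! : ℝ) + 2 ^ (k + 1)) ≤ A * ε :=
      (div_le_iff₀ hε).1 (Nat.ceil_le.1 hCA)
    have b4 : (A : ℝ) * E ≤ (((k + 1)! : ℝ) + 2 ^ (k + 1)) * (n : ℝ) ^ (k + 1) :=
      calc (A : ℝ) * E ≤ A * (((k + 1)! : ℝ) * r * n + 2 ^ (k + 1) * (r : ℝ) ^ (k + 1)) := by gcongr
        _ = ((k + 1)! : ℝ) * (A * r * n) + 2 ^ (k + 1) * (A * (r : ℝ) ^ (k + 1)) := by ring
        _ ≤ ((k + 1)! : ℝ) * (n : ℝ) ^ (k + 1) + 2 ^ (k + 1) * (n : ℝ) ^ (k + 1) := by gcongr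
        _ = _ := by ring
    rw [← mul_div_assoc, le_div_iff₀ hE0]
    refine le_of_mul_le_mul_left ?_ hF
    calc (((k + 1)! : ℝ) + 2 ^ (k + 1)) * (8 * E) = 8 * (((k + 1)! : ℝ) + 2 ^ (k + 1)) * E := by ring
      _ ≤ A * ε * E := by gcongr
      _ = ε * (A * E) := by ring
      _ ≤ ε * ((((k + 1)! : ℝ) + 2 ^ (k + 1)) * (n : ℝ) ^ (k + 1)) := by gcongr
      _ = _ := by ring
  have hc : ∀ θ : ℝ, θ * (n : ℝ) ^ (k + 1) ≤ (⌈θ * ((n : ℝ) ^ (k + 1) / E)⌉₊ : ℕ) * E := fun θ => by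
    rw [← div_le_iff₀ hE0, mul_div_assoc]
    exact Nat.le_ceil _
  obtain ⟨π, μ, q1, q2, q3⟩ := num_main hk hη hη1 hθ1 hM hh hw p2 p5 p6 p7 p8 (hc _)
  have hMN : M * (k * h * w) ≤ 2 * n := by
    have : (M * (k * h * w) : ℝ) ≤ 2 * n :=
      p5.trans (mul_le_mul_of_nonneg_right (by linarith) (Nat.cast_nonneg n))
    exact_mod_cast this
  refine ⟨M, c, h, w, π, μ, _, _, hh, hw, q1, q2, p1, q3, p2, p3, ?_,
    num_cover hη hθ2 hKr ((Nat.mul_le_mul_right r hMA).trans hn) hrn hMN p4 hN1 hN2 (hc _)⟩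
  have hX0 : 0 ≤ (n : ℝ) ^ (k + 1) / E := by positivity
  have hsX : (1 + ε) * ((n : ℝ) ^ (k + 1) / E) ≤ s := by
    rw [← mul_div_assoc, div_le_iff₀ hE0]; exact hs'
  generalize (n : ℝ) ^ (k + 1) / E = X at hX hX0 hsX ⊢
  have d1 := Nat.ceil_lt_add_one (by positivity : 0 ≤ (1 + ε / 2) * X)
  have d2 := Nat.ceil_lt_add_one (by positivity : 0 ≤ ε / 4 * X)
  have : ((⌈(1 + ε / 2) * X⌉₊ + ⌈ε / 4 * X⌉₊ : ℕ) : ℝ) ≤ s := by
    push_cast; linarith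
  exact_mod_cast this

end Pool.Agent.P.MP_c64be1_ag.Ell
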