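import Pool.Agent.P.MP_c64be1_ag.Ell.Sym

/-! From tensor filling to symmetric filling for a bounded number of summands. -/

namespace Pool.Agent.P.MP_c64be1_ag.Ell

open MvPolynomial Module

/-- `gen_tfill`, `sym_fill` with `U i` the span of the two families, `fills_of_le`.  If `s = 0`
then `TFill v` is impossible (`ψ = 1`). -/
theorem fills_blocks {κ ι : Type} [Fintype ι] [Nonempty ι] [Fintype κ] {k s : ℕ}
    {v : Fin s → Fin k → κ → ι → ℂ} (h : TFill v) (M : ℕ) {r : ℕ}
    (h1 : M * Fintype.card κ + (k - 1) * Fintype.card ι ≤ r) (h2 : r ≤ M * Fintype.card ι) :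
    SecantFills (Fin M × ι) k r s := by
  have hs : Nonempty (Fin s) := by
    by_contra hn
    have h0 := h (fun _ => 1) fun p => absurd ⟨p.1⟩ hn
    exact one_ne_zero (congrFun h0 fun _ => Classical.arbitrary ι)
  obtain ⟨z, hz⟩ := gen_tfill h M
  let g : Fin s → (Fin M × κ) ⊕ (Fin (k - 1) × ι) → MvPolynomial (Fin M × ι) ℂ := fun i =>
    Sum.elim (fun p => lin p.1 (z i p.1 p.2))
      (fun p => ∑ b : Fin M, C (((b : ℕ) : ℂ) ^ (p.1 : ℕ)) * X (b, p.2))
  refine fills_of_le (I := Fin s) (by simp) (by simpa using h2)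
    (fun i => Submodule.span ℂ (Set.range (g i))) (fun i => ?_) (fun i => ?_) ?_
  · rw [Submodule.span_le]
    rintro _ ⟨p | p, rfl⟩
    · exact lin_isHomogeneous _ _
    · exact IsHomogeneous.sum _ _ _ fun b _ => isHomogeneous_C_mul_X _ _
  · refine (finrank_range_le_card (g i)).trans ?_
    simpa using h1
  · exact sym_fill z hz (fun i => Submodule.span ℂ (Set.range (g i)))
      (fun i b e => Submodule.subset_span (Set.mem_range_self (f := g i) (.inl (b, e))))
      (fun i l a => Submodule.subset_span (Set.mem_range_self (f := g i) (.inr (l, a)))) k le_rfl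

/-- Sketch.  Choose `M` with `k / M ≤ δ / 2`.  For large `n` put `w = ⌈n / (M * card ι)⌉`, inflate
by `Fin w` (`tfill_infl`), apply `fills_blocks` and `secantFills_proj`:
`w (M card κ + (k - 1) card ι) ≤ (n / (M card ι) + 1) (..) ≤ (α / β + δ / 2) n + const`. -/
theorem regimeB {κ ι : Type} [Fintype ι] [Nonempty ι] [Fintype κ] {k s : ℕ}
    {v : Fin s → Fin k → κ → ι → ℂ} (h : TFill v) {δ : ℝ} (hδ : 0 < δ) :
    ∃ n₀ : ℕ, ∀ n ≥ n₀, ∀ r ≤ n, ((Fintype.card κ : ℝ) / Fintype.card ι + δ) * n ≤ r →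
      SecantFills (Fin n) k r s := by
  obtain ⟨M, hM⟩ := exists_nat_gt (2 * (k : ℝ) / δ)
  have hk0 : (0 : ℝ) ≤ k := Nat.cast_nonneg k
  have hM0 : (0 : ℝ) < M := lt_of_le_of_lt (by positivity) hM
  have hM1 : 0 < M := by exact_mod_cast hM0
  have hβ1 : 0 < Fintype.card ι := Fintype.card_pos
  set α := Fintype.card κ with hα
  set β := Fintype.card ι with hβ
  have hβ0 : (0 : ℝ) < β := by exact_mod_cast hβ1
  have hα0 : (0 : ℝ) ≤ α := Nat.cast_nonneg α
  obtain ⟨n₀, hn₀⟩ := exists_nat_gt (2 * ((M : ℝ) * α + k * β) / δ)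
  refine ⟨n₀, fun n hn r hr hδr => ?_⟩
  set w := n / (M * β) + 1 with hw
  have hMβ : 0 < M * β := Nat.mul_pos hM1 hβ1
  have hw1 : n ≤ M * (β * w) := by
    rw [← mul_assoc]
    exact (Nat.lt_mul_div_succ n hMβ).le
  have hw2 : (w : ℝ) ≤ n / (M * β) + 1 := by
    rw [hw]
    push_cast
    have := Nat.cast_div_le (α := ℝ) (m := n) (n := M * β)
    push_cast at this
    linarith
  have : Nonempty (Fin w) := ⟨⟨0, Nat.succ_pos _⟩⟩
  have hn0 : (0 : ℝ) ≤ n := Nat.cast_nonneg n
  have hnn : (n₀ : ℝ) ≤ n := by exact_mod_cast hn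
  have e1 : (M : ℝ) * α + k * β ≤ δ / 2 * n := by
    rw [div_lt_iff₀ hδ] at hn₀
    nlinarith
  have e2 : (k : ℝ) / M ≤ δ / 2 := by
    rw [div_lt_iff₀ hδ] at hM
    rw [div_le_iff₀ hM0]
    linarith
  have e3 : (n / (M * β) : ℝ) * (M * α + k * β) = (α / β + k / M) * n := by
    field_simp
  have e4 : (w : ℝ) * (M * α + k * β) ≤ r := by
    have a1 : (w : ℝ) * (M * α + k * β) ≤ (n / (M * β) + 1) * (M * α + k * β) :=
      mul_le_mul_of_nonneg_right hw2 (by positivity)
    have a2 : (k : ℝ) / M * n ≤ δ / 2 * n := mul_le_mul_of_nonneg_right e2 hn0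
    nlinarith
  have e5 : w * (M * α + k * β) ≤ r := by exact_mod_cast e4
  refine secantFills_proj (σ := Fin M × (ι × Fin w)) (by simpa using hw1) (by simpa using hr)
    (fills_blocks (tfill_infl (W := Fin w) h) M ?_ ?_)
  · simp only [Fintype.card_prod, Fintype.card_fin]
    refine le_trans ?_ e5
    have : (k - 1) * (β * w) ≤ k * (β * w) := Nat.mul_le_mul_right _ (Nat.sub_le k 1)
    calc M * (α * w) + (k - 1) * (β * w) ≤ M * (α * w) + k * (β * w) := by omega
      _ = w * (M * α + k * β) := by ring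
  · simp only [Fintype.card_prod, Fintype.card_fin]
    exact hr.trans hw1

end Pool.Agent.P.MP_c64be1_ag.Ell
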