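import Pool.Agent.P.MP_c64be1_ag.Ell.TF
import Pool.Agent.P.MP_c64be1_ag.Ell.RegB
import Pool.Agent.P.MP_c64be1_ag.Ell.DPoint
import Pool.Agent.P.MP_c64be1_ag.Ell.Design
import Pool.Agent.P.MP_c64be1_ag.Ell.Cover
import Pool.Agent.P.MP_c64be1_ag.Ell.Chow
import Pool.Agent.P.MP_c64be1_ag.Ell.NumS
import Pool.Agent.P.MP_c64be1_ag.Asy.Main

/-! Assembly. -/

namespace Pool.Agent.P.MP_c64be1_ag.Ell

open MvPolynomial

theorem small_fills (k : ℕ) (hk : 2 ≤ k) {ε : ℝ} (hε : 0 < ε) : ∃ R A : ℕ, ∀ n r s : ℕ,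
    R ≤ r → A * r ≤ n → (1 + ε) * ((n + (k + 1) - 1).choose (k + 1) : ℝ) ≤
      s * ((r * (n - r) + (r + (k + 1) - 1).choose (k + 1) : ℕ) : ℝ) →
    SecantFills (Fin n) (k + 1) r s := by
  classical
  obtain ⟨R, A, hA, H⟩ := num_small k hk hε
  refine ⟨R, A, fun n r s hR hAn hs => ?_⟩
  obtain ⟨M, c, h, w, π, μ, s₁, s₂, hh, hw, h1, h2, h3, h4, h5, h6, h7, h8⟩ := H n r s hR hAn hs
  have hrn : r ≤ n := le_trans (Nat.le_mul_of_pos_left r hA) hAn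
  have : Nonempty (Fin w) := ⟨⟨0, hw⟩⟩
  obtain ⟨y, Y, hy⟩ := mix_one k h μ π (by omega) hh h1
  obtain ⟨y', Y', hy'⟩ := mix_infl (W := Fin w) hy
  have hc : Fintype.card ((Fin k × Fin h) × Fin w) = k * h * w := by simp
  obtain ⟨z, hz, hz'⟩ := design (M := M) (c := c) (s := s₁) fun β hβ =>
    design_point (by omega) hy' (by simpa using h2) (by simpa using h3)
      (by simpa [Fintype.card_pi] using h4) β hβ
  have hcov : ∃ z : Fin s₂ → Fin (M.choose (k + 1) * c) → Fin (k + 1) →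
      MvPolynomial (Fin M × (Fin k × Fin h) × Fin w) ℂ, (∀ i g t, (z i g t).IsHomogeneous 1) ∧
      ∀ p : Fin (k + 1) → Fin M × (Fin k × Fin h) × Fin w,
        ¬ Function.Injective (fun t => (p t).1) → ∏ t, X (p t) ∈ Tan z := by
    rcases h8 with ⟨H, k1, k2⟩ | k1
    · exact cover1 (hc ▸ k1) k2
    · exact cover2 hk (hc ▸ k1)
  obtain ⟨z₂, hz₂, hz₂'⟩ := hcov
  have hn : n ≤ Fintype.card (Fin M × (Fin k × Fin h) × Fin w) := by simpa using h5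
  refine secantFills_proj (σ := Fin M × (Fin k × Fin h) × Fin w) (by simpa using hn)
    (by simpa using hrn) (chow_fills (by simpa using h7) (hrn.trans hn) (by simpa using h6)
      (Sum.elim z z₂) ?_ (hom_le_of_mono _ fun p => ?_))
  · rintro (i | i) g t
    · exact hz i g t
    · exact hz₂ i g t
  · by_cases hp : Function.Injective fun t => (p t).1
    · exact Tan_le_left z z₂ (hz' p hp)
    · exact Tan_le_right z z₂ (hz₂' p hp)

theorem fills_ratio {k s α β : ℕ} (hk : 1 ≤ k) (hβ : 0 < β)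
    (h : (2 * α ≤ β ∧ β ^ k < s * α ^ k) ∨ (α = 1 ∧ β = 2 ∧ s = 2 ^ k)) {δ : ℝ} (hδ : 0 < δ) :
    ∃ n₀ : ℕ, ∀ n ≥ n₀, ∀ r ≤ n, ((α : ℝ) / β + δ) * n ≤ r → SecantFills (Fin n) k r s := by
  rcases h with ⟨h1, h2⟩ | ⟨rfl, rfl, rfl⟩
  · obtain ⟨k, rfl⟩ : ∃ j, k = j + 1 := ⟨k - 1, by omega⟩
    obtain ⟨ι, κ, _, _, _, v, hc, hv⟩ := tf s k α β hβ h1 h2
    have : (Fintype.card κ : ℝ) / Fintype.card ι = (α : ℝ) / β := by
      rw [div_eq_div_iff (by exact_mod_cast Fintype.card_ne_zero) (by exact_mod_cast hβ.ne')]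
      exact_mod_cast hc.trans (mul_comm _ _)
    exact this ▸ regimeB hv hδ
  · obtain ⟨v, hv⟩ := tf_two k
    simpa using regimeB hv hδ

theorem big_one {k : ℕ} (hk : 1 ≤ k) {θ : ℝ} (hθ : 1 < θ) (s : ℕ) :
    ∃ n₀ : ℕ, ∀ n ≥ n₀, ∀ r ≤ n, 2 ^ k ≤ s → θ * (n : ℝ) ^ k ≤ s * (r : ℝ) ^ k →
      SecantFills (Fin n) k r s := by
  by_cases hs : 2 ^ k ≤ s
  · obtain ⟨α, β, δ, hβ, hδ, h, h'⟩ := num_big2 hk hs hθ
    obtain ⟨n₀, H⟩ := fills_ratio hk hβ h hδ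
    refine ⟨n₀ + 1, fun n hn r hr _ h1 => H n (by omega) r hr ?_⟩
    have hn0 : (0 : ℝ) < n := by exact_mod_cast (show 0 < n by omega)
    rw [← le_div_iff₀ hn0]
    refine h' _ (by positivity) ?_
    rw [div_pow, ← mul_div_assoc, le_div_iff₀ (by positivity)]
    exact h1
  · exact ⟨0, fun _ _ _ _ h => absurd h hs⟩

theorem big_fills {k : ℕ} (hk : 3 ≤ k) {ε : ℝ} (hε : 0 < ε) (A : ℕ) : ∃ n₀ : ℕ, ∀ n ≥ n₀,
    ∀ r s : ℕ, 1 ≤ r → r ≤ n → n ≤ A * r → (2 ^ k - 1) * r ^ k ≤ n ^ k →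
      (1 + ε) * ((n + k - 1).choose k : ℝ) ≤ s * ((r * (n - r) + (r + k - 1).choose k : ℕ) : ℝ) →
      SecantFills (Fin n) k r s := by
  obtain ⟨n₁, H₁⟩ := num_big1 hk hε A
  choose N HN using big_one (k := k) (by omega) (θ := 1 + ε / 2) (by linarith)
  obtain ⟨n₂, H₂⟩ := big_one (k := k) (by omega) (θ := 2) (by norm_num) (2 * A ^ k + 2 ^ k)
  refine ⟨n₁ + n₂ + (Finset.range (2 * A ^ k + 2 ^ k)).sup N, fun n hn r s hr hrn hA h2 hs => ?_⟩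
  by_cases hb : 2 * A ^ k + 2 ^ k ≤ s
  · refine secantFills_mono (by simpa using hrn) hb (H₂ n (by omega) r hrn (by omega) ?_)
    have h3 : n ^ k ≤ A ^ k * r ^ k := mul_pow A r k ▸ Nat.pow_le_pow_left hA k
    have h4 : 2 * n ^ k ≤ (2 * A ^ k + 2 ^ k) * r ^ k := by nlinarith [Nat.zero_le (2 ^ k * r ^ k)]
    exact_mod_cast h4
  · have h3 := H₁ n (by omega) r s hA hs
    have h4 : N s ≤ (Finset.range (2 * A ^ k + 2 ^ k)).sup N :=
      Finset.le_sup (f := N) (Finset.mem_range.2 (by omega))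
    refine HN s n (by omega) r hrn ?_ h3
    by_contra h5
    have h6 : s * r ^ k ≤ n ^ k := le_trans (Nat.mul_le_mul_right _ (by omega)) h2
    have h7 : (s : ℝ) * (r : ℝ) ^ k ≤ (n : ℝ) ^ k := by exact_mod_cast h6
    have h8 : (0 : ℝ) < (n : ℝ) ^ k := pow_pos (by exact_mod_cast (show 0 < n by omega)) k
    nlinarith

theorem fills {k : ℕ} (hk : 3 ≤ k) {ε : ℝ} (hε : 0 < ε) : ∃ n₀ : ℕ, ∀ n ≥ n₀,
    ∀ r s : ℕ, 1 ≤ r → r ≤ n → (2 ^ k - 1) * r ^ k ≤ n ^ k →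
      (1 + ε) * ((n + k - 1).choose k : ℝ) ≤ s * ((r * (n - r) + (r + k - 1).choose k : ℕ) : ℝ) →
      SecantFills (Fin n) k r s := by
  obtain ⟨j, rfl⟩ : ∃ j, k = j + 1 := ⟨k - 1, by omega⟩
  obtain ⟨R, A, H₁⟩ := small_fills j (by omega) hε
  obtain ⟨n₀, H₂⟩ := big_fills hk hε A
  refine ⟨n₀ + (10 ^ 5 * ((j + 1) * (R + 1)) ^ 3 + 100 * (R + (j + 1) - 1).choose (j + 1)),
    fun n hn r s hr hrn h2 hs => ?_⟩
  by_cases hR : R ≤ r
  · rcases le_total (A * r) n with hA | hA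
    · exact H₁ n r s hR hA hs
    · exact H₂ n (by omega) r s hr hrn hA h2 hs
  · have h1 : ((j + 1) * (r + 1)) ^ 3 ≤ ((j + 1) * (R + 1)) ^ 3 :=
      Nat.pow_le_pow_left (Nat.mul_le_mul_left _ (by omega)) 3
    have h3 : (r + (j + 1) - 1).choose (j + 1) ≤ (R + (j + 1) - 1).choose (j + 1) :=
      Nat.choose_le_choose _ (by omega)
    have h4 := (Asy.isLeast_asymptotic n (j + 1) r hk hr (by omega)).1
    refine secantFills_mono (by simpa using hrn) ?_ h4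
    have hδ : 0 < r * (n - r) + (r + (j + 1) - 1).choose (j + 1) :=
      Nat.add_pos_right _ (Nat.choose_pos (by omega))
    rw [ceilDiv_le_iff_le_mul hδ, mul_comm]
    have h5 : (0 : ℝ) ≤ ((n + (j + 1) - 1).choose (j + 1) : ℝ) := Nat.cast_nonneg _
    have h6 : ((n + (j + 1) - 1).choose (j + 1) : ℝ) ≤
        s * ((r * (n - r) + (r + (j + 1) - 1).choose (j + 1) : ℕ) : ℝ) := by nlinarith
    exact_mod_cast h6

theorem asymptotic (k : ℕ) (hk : 3 ≤ k) (ε : ℝ) (hε : 0 < ε) : ∃ n₀ : ℕ, ∀ n ≥ n₀, ∀ r : ℕ,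
    1 ≤ r → (2 ^ k - 1) * r ^ k ≤ n ^ k → ∃ g : ℕ, IsLeast {s : ℕ | SecantFills (Fin n) k r s} g ∧
      ((n + k - 1).choose k : ℝ) / (r * (n - r) + (r + k - 1).choose k) ≤ g ∧
      g < (1 + ε) * (((n + k - 1).choose k : ℝ) / (r * (n - r) + (r + k - 1).choose k)) + 1 := by
  classical
  obtain ⟨n₀, H⟩ := fills hk hε
  refine ⟨n₀, fun n hn r hr h2 => ?_⟩
  have hrn : r ≤ n := by
    have h1 : 1 < 2 ^ k := Nat.one_lt_two_pow (by omega)
    have h3 : r ^ k ≤ n ^ k := le_trans (Nat.le_mul_of_pos_left _ (by omega)) h2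
    exact (Nat.pow_le_pow_iff_left (by omega)).1 h3
  have hδ : 0 < r * (n - r) + (r + k - 1).choose k := Nat.add_pos_right _ (Nat.choose_pos (by omega))
  have hc : (r : ℝ) * (n - r) + (r + k - 1).choose k =
      ((r * (n - r) + (r + k - 1).choose k : ℕ) : ℝ) := by
    push_cast [Nat.cast_sub hrn]
    ring
  rw [hc]
  have hδ' : (0 : ℝ) < ((r * (n - r) + (r + k - 1).choose k : ℕ) : ℝ) := by exact_mod_cast hδ
  set D : ℝ := ((n + k - 1).choose k : ℝ) / ((r * (n - r) + (r + k - 1).choose k : ℕ) : ℝ) with hD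
  have hD0 : 0 ≤ (1 + ε) * D := by positivity
  have h1 : SecantFills (Fin n) k r ⌈(1 + ε) * D⌉₊ := by
    refine H n hn r _ hr hrn h2 ?_
    rw [← div_le_iff₀ hδ', mul_div_assoc]
    exact Nat.le_ceil _
  have hex : ∃ s, SecantFills (Fin n) k r s := ⟨_, h1⟩
  refine ⟨Nat.find hex, ⟨Nat.find_spec hex, fun s hs => Nat.find_min' hex hs⟩, ?_, ?_⟩
  · rw [hD, div_le_iff₀ hδ']
    by_contra hlt
    refine Asy.not_secantFills_of_lt hrn ?_ (Nat.find_spec hex)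
    have h3 := not_le.1 hlt
    exact_mod_cast h3
  · exact lt_of_le_of_lt (Nat.cast_le.2 (Nat.find_min' hex h1)) (Nat.ceil_lt_add_one hD0)

end Pool.Agent.P.MP_c64be1_ag.Ell
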