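import Pool.Agent.P.MP_c64be1_ag.Ell.Defs2

/-! Choice of the parameters. -/

namespace Pool.Agent.P.MP_c64be1_ag.Ell

open Nat

/-- `Nat.ascFactorial_eq_factorial_mul_choose'`, `Nat.pow_succ_le_ascFactorial`,
`Nat.ascFactorial_le_pow_add`. -/
theorem hyp_pow {k n r s : ℕ} {θ : ℝ} (hθ : 0 ≤ θ)
    (h : θ * ((n + k - 1).choose k : ℝ) ≤ s * ((r * (n - r) + (r + k - 1).choose k : ℕ) : ℝ)) :
    θ * (n : ℝ) ^ k ≤ s * ((k ! : ℝ) * r * n + ((r : ℝ) + k) ^ k) := by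
  have h1 : n ^ k ≤ k ! * (n + k - 1).choose k := by
    rw [← Nat.ascFactorial_eq_factorial_mul_choose']
    exact Nat.pow_succ_le_ascFactorial n k
  have h2 : k ! * (r + k - 1).choose k ≤ (r + k) ^ k := by
    refine le_trans (Nat.mul_le_mul_left _ (Nat.choose_le_choose k (Nat.sub_le _ 1))) ?_
    rw [← Nat.ascFactorial_eq_factorial_mul_choose]
    exact Nat.ascFactorial_le_pow_add r k
  have h3 : k ! * (r * (n - r) + (r + k - 1).choose k) ≤ k ! * r * n + (r + k) ^ k := by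
    rw [mul_add, ← mul_assoc]
    exact Nat.add_le_add (Nat.mul_le_mul_left _ (Nat.sub_le _ _)) h2
  have h1' : (n : ℝ) ^ k ≤ (k ! : ℝ) * ((n + k - 1).choose k : ℝ) := by exact_mod_cast h1
  have h3' : (k ! : ℝ) * ((r * (n - r) + (r + k - 1).choose k : ℕ) : ℝ) ≤
      (k ! : ℝ) * r * n + ((r : ℝ) + k) ^ k := by exact_mod_cast h3
  calc θ * (n : ℝ) ^ k ≤ θ * ((k ! : ℝ) * ((n + k - 1).choose k : ℝ)) :=
        mul_le_mul_of_nonneg_left h1' hθ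
    _ = (k ! : ℝ) * (θ * ((n + k - 1).choose k : ℝ)) := by ring
    _ ≤ (k ! : ℝ) * (s * ((r * (n - r) + (r + k - 1).choose k : ℕ) : ℝ)) :=
        mul_le_mul_of_nonneg_left h (by positivity)
    _ = s * ((k ! : ℝ) * ((r * (n - r) + (r + k - 1).choose k : ℕ) : ℝ)) := by ring
    _ ≤ _ := mul_le_mul_of_nonneg_left h3' (by positivity)

theorem large_NumB {k : ℕ} (hk : 3 ≤ k) {η : ℝ} (hη : 1 < η) (A : ℕ) : ∃ r₀ : ℕ, ∀ r ≥ r₀,
    (k ! : ℝ) * A * (r : ℝ) ^ 2 + ((r : ℝ) + k) ^ k ≤ η * (r : ℝ) ^ k := by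
  obtain ⟨j, rfl⟩ : ∃ j, k = j + 3 := ⟨k - 3, by omega⟩
  have hc : Continuous fun t : ℝ =>
      ((j + 3)! : ℝ) * A * t ^ (j + 1) + (1 + ((j + 3 : ℕ) : ℝ) * t) ^ (j + 3) := by fun_prop
  have h1 := (hc.tendsto 0).comp (tendsto_inv_atTop_nhds_zero_nat (𝕜 := ℝ))
  simp only [ne_eq, Nat.add_eq_zero_iff, one_ne_zero, and_false, not_false_eq_true, zero_pow,
    mul_zero, add_zero, one_pow, zero_add] at h1
  obtain ⟨r₀, hr⟩ := Filter.eventually_atTop.1 (h1.eventually (gt_mem_nhds hη))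
  refine ⟨r₀ + 1, fun r hr1 => ?_⟩
  have h2 := hr r (by omega)
  have h3 : (0 : ℝ) < r := by exact_mod_cast (show 0 < r by omega)
  simp only [Function.comp_apply] at h2
  have h4 := mul_le_mul_of_nonneg_right h2.le (pow_pos h3 (j + 3)).le
  refine le_trans (le_of_eq ?_) h4
  rw [add_mul, ← mul_pow, inv_pow]
  field_simp
  ring

/-- For `n ≤ A r` and `n` large, `k ! r n + (r + k) ^ k ≤ (1 + η) r ^ k`; use `hyp_pow`. -/
theorem num_big1 {k : ℕ} (hk : 3 ≤ k) {ε : ℝ} (hε : 0 < ε) (A : ℕ) : ∃ n₀ : ℕ, ∀ n ≥ n₀,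
    ∀ r s : ℕ, n ≤ A * r → (1 + ε) * ((n + k - 1).choose k : ℝ) ≤
      s * ((r * (n - r) + (r + k - 1).choose k : ℕ) : ℝ) →
    (1 + ε / 2) * (n : ℝ) ^ k ≤ s * (r : ℝ) ^ k := by
  have h0 : 0 < 1 + ε / 2 := by positivity
  obtain ⟨r₀, hr⟩ := large_NumB hk (η := (1 + ε) / (1 + ε / 2))
    ((one_lt_div h0).2 (by linarith)) A
  refine ⟨A * r₀ + 1, fun n hn r s hA h => ?_⟩
  have h1 := hyp_pow (by positivity) h
  have h2 : r₀ ≤ r := by
    by_contra hc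
    have := Nat.mul_le_mul_left A (show r ≤ r₀ by omega)
    omega
  have h3 : (n : ℝ) ≤ A * r := by exact_mod_cast hA
  have h4 : (k ! : ℝ) * r * n ≤ (k ! : ℝ) * A * (r : ℝ) ^ 2 :=
    (mul_le_mul_of_nonneg_left h3 (by positivity)).trans (le_of_eq (by ring))
  have h5 := mul_le_mul_of_nonneg_left ((add_le_add h4 le_rfl).trans (hr r h2))
    (Nat.cast_nonneg (α := ℝ) s)
  have h6 := h1.trans h5
  have h7 : (1 + ε) * ((1 + ε / 2) * (n : ℝ) ^ k) ≤ (1 + ε) * (s * (r : ℝ) ^ k) := by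
    have := mul_le_mul_of_nonneg_left h6 h0.le
    refine le_trans (le_of_eq (by ring)) (this.trans (le_of_eq ?_))
    field_simp
  exact le_of_mul_le_mul_left h7 (by positivity)

theorem root_NumB {k : ℕ} (hk : 1 ≤ k) {x : ℝ} (hx : 0 < x) : ∃ ρ : ℝ, 0 < ρ ∧ ρ ^ k = x :=
  ⟨x ^ ((k : ℝ)⁻¹), Real.rpow_pos_of_pos hx _, Real.rpow_inv_natCast_pow hx.le (by omega)⟩

/-- Let `ρ₁ = (1 / s) ^ (1 / k) ≤ 1 / 2` and `ρ₂ = (θ / s) ^ (1 / k) > ρ₁`.  If `s = 2 ^ k` take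
`α / β = 1 / 2 = ρ₁`, otherwise a rational number strictly between `ρ₁` and `min ρ₂ (1 / 2)`;
`δ = ρ₂ - α / β`. -/
theorem num_big2 {k s : ℕ} (hk : 1 ≤ k) (hs : 2 ^ k ≤ s) {θ : ℝ} (hθ : 1 < θ) :
    ∃ (α β : ℕ) (δ : ℝ), 0 < β ∧ 0 < δ ∧
      ((2 * α ≤ β ∧ β ^ k < s * α ^ k) ∨ (α = 1 ∧ β = 2 ∧ s = 2 ^ k)) ∧
      ∀ ρ : ℝ, 0 ≤ ρ → θ ≤ s * ρ ^ k → (α : ℝ) / β + δ ≤ ρ := by
  have hs' : (2 : ℝ) ^ k ≤ s := by exact_mod_cast hs
  have hs0 : (0 : ℝ) < s := lt_of_lt_of_le (by positivity) hs'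
  obtain ⟨ρ₂, p2, e2⟩ := root_NumB hk (x := θ / s) (by positivity)
  have key : ∀ ρ : ℝ, 0 ≤ ρ → θ ≤ s * ρ ^ k → ρ₂ ≤ ρ := fun ρ h0 h => by
    refine le_of_pow_le_pow_left₀ (n := k) (by omega) h0 ?_
    rw [e2, div_le_iff₀' hs0]
    exact h
  rcases hs.eq_or_lt with he | hl
  · refine ⟨1, 2, ρ₂ - 1 / 2, two_pos, ?_, Or.inr ⟨rfl, rfl, he.symm⟩, fun ρ h0 h => ?_⟩
    · refine sub_pos.2 (lt_of_pow_lt_pow_left₀ k p2.le ?_)
      rw [e2, ← he, div_pow, one_pow]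
      push_cast
      exact div_lt_div_of_pos_right hθ (by positivity)
    · have := key ρ h0 h
      push_cast
      linarith
  · have hl' : (2 : ℝ) ^ k < s := by exact_mod_cast hl
    obtain ⟨ρ₁, p1, e1⟩ := root_NumB hk (x := 1 / s) (by positivity)
    have a1 : ρ₁ < ρ₂ := lt_of_pow_lt_pow_left₀ k p2.le (by
      rw [e1, e2]; exact div_lt_div_of_pos_right hθ hs0)
    have a2 : ρ₁ < 1 / 2 := lt_of_pow_lt_pow_left₀ k (by norm_num) (by
      rw [e1, div_pow, one_pow]; exact one_div_lt_one_div_of_lt (by positivity) hl')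
    obtain ⟨q, q1, q2⟩ := exists_rat_btwn (lt_min a1 a2)
    have q0 : 0 < q := by exact_mod_cast p1.trans q1
    obtain ⟨α, hα⟩ := Int.eq_ofNat_of_zero_le (Rat.num_nonneg.2 q0.le)
    have hq : (q : ℝ) = (α : ℝ) / q.den := by
      rw [Rat.cast_def, hα, Int.cast_natCast]
    have d0 : (0 : ℝ) < q.den := by exact_mod_cast q.den_pos
    refine ⟨α, q.den, ρ₂ - q, q.den_pos, sub_pos.2 (q2.trans_le (min_le_left _ _)),
      Or.inl ⟨?_, ?_⟩, fun ρ h0 h => ?_⟩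
    · have := q2.trans_le (min_le_right _ _)
      rw [hq, div_lt_div_iff₀ d0 two_pos] at this
      have h' : (2 : ℝ) * α ≤ q.den := by linarith
      exact_mod_cast h'
    · have := pow_lt_pow_left₀ q1 p1.le (show k ≠ 0 by omega)
      rw [e1, hq, div_pow, div_lt_div_iff₀ hs0 (by positivity)] at this
      have h' : (q.den : ℝ) ^ k < s * (α : ℝ) ^ k := by linarith
      exact_mod_cast h'
    · have := key ρ h0 h
      rw [← hq]
      linarith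

end Pool.Agent.P.MP_c64be1_ag.Ell
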