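import Pool.Agent.P.MP_c64be1_ag.Ell.NumB

/-! Choice of the parameters. -/

namespace Pool.Agent.P.MP_c64be1_ag.Ell

open Nat

theorem bern_NumM {η : ℝ} {M D j : ℕ} (hD : D ≤ M) (hM : 0 < M) (h : (j : ℝ) * D ≤ η * M) :
    (1 - η) * (M : ℝ) ^ j ≤ ((M - D : ℕ) : ℝ) ^ j := by
  have hM' : (0 : ℝ) < M := by exact_mod_cast hM
  have hD' : (D : ℝ) ≤ M := by exact_mod_cast hD
  have h1 : (D : ℝ) / M ≤ 1 := (div_le_one hM').2 hD'
  have h2 := one_add_mul_le_pow (a := -((D : ℝ) / M)) (by linarith) j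
  have h3 : ((M - D : ℕ) : ℝ) = (1 + -((D : ℝ) / M)) * M := by
    rw [Nat.cast_sub hD]; field_simp; ring
  have h4 : (j : ℝ) * ((D : ℝ) / M) ≤ η := by
    rw [← mul_div_assoc, div_le_iff₀ hM']; exact h
  rw [h3, mul_pow]
  exact mul_le_mul_of_nonneg_right (by linarith) (by positivity)

theorem ni_NumM {η : ℝ} {M P j : ℕ} (hP : P ≤ M + 1 - j)
    (h : (1 - η) * (M : ℝ) ^ j ≤ (P : ℝ) ^ j) : (NI j M : ℝ) ≤ η * (M : ℝ) ^ j := by
  have h1 : P ^ j ≤ M.descFactorial j :=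
    (Nat.pow_le_pow_left hP j).trans (Nat.pow_sub_le_descFactorial M j)
  have h2 : ((P : ℝ)) ^ j ≤ (M.descFactorial j : ℝ) := by exact_mod_cast h1
  rw [NI, Nat.cast_sub (Nat.descFactorial_le_pow M j), Nat.cast_pow]
  linarith

/-- `Nat.pow_sub_le_descFactorial`, `Nat.descFactorial_le_pow`, `Nat.pow_le_choose`,
`Nat.choose_le_pow_div`, `Nat.succ_mul_choose_eq`, and `((M - C) / M) ^ j → 1`. -/
theorem exists_M (k : ℕ) {η : ℝ} (hη : 0 < η) : ∃ M : ℕ, 2 * (k + 1) ≤ M ∧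
    (NI (k + 1) M : ℝ) ≤ η * (M : ℝ) ^ (k + 1) ∧ (NI k M : ℝ) ≤ η * (M : ℝ) ^ k ∧
    (1 - η) * ((k + 1) * M.choose (k + 1) : ℕ) ≤ (M * (M - (k + 1)).choose k : ℕ) ∧
    (1 - η) * M ≤ (M - (k + 1) : ℕ) := by
  obtain ⟨N, hN⟩ := exists_nat_ge (((k + 1 : ℕ) : ℝ) * (2 * (k + 1) : ℕ) / η)
  have hD : 2 * (k + 1) ≤ N + 2 * (k + 1) := Nat.le_add_left _ _
  generalize hM : N + 2 * (k + 1) = M at hD
  have hM0 : 0 < M := by omega
  have hM' : (0 : ℝ) < M := by exact_mod_cast hM0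
  have hNM : (N : ℝ) ≤ M := by exact_mod_cast (by omega : N ≤ M)
  have hb : ∀ j : ℕ, j ≤ k + 1 →
      (1 - η) * (M : ℝ) ^ j ≤ ((M - 2 * (k + 1) : ℕ) : ℝ) ^ j := by
    intro j hj
    refine bern_NumM hD hM0 ?_
    have h1 : (j : ℝ) ≤ (k + 1 : ℕ) := by exact_mod_cast hj
    rw [div_le_iff₀ hη] at hN
    have h2 : (j : ℝ) * (2 * (k + 1) : ℕ) ≤ ((k + 1 : ℕ) : ℝ) * (2 * (k + 1) : ℕ) :=
      mul_le_mul_of_nonneg_right h1 (Nat.cast_nonneg _)
    nlinarith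
  refine ⟨M, hD, ni_NumM (by omega) (hb _ le_rfl), ni_NumM (by omega) (hb _ (by omega)), ?_, ?_⟩
  · rcases le_total (1 - η) 0 with h0 | h0
    · exact (mul_nonpos_of_nonpos_of_nonneg h0 (Nat.cast_nonneg _)).trans (Nat.cast_nonneg _)
    have hf : (0 : ℝ) < (k ! : ℕ) := by exact_mod_cast Nat.factorial_pos k
    have h1 : k ! * ((k + 1) * M.choose (k + 1)) ≤ M ^ (k + 1) := by
      have := Nat.descFactorial_le_pow M (k + 1)
      rw [Nat.descFactorial_eq_factorial_mul_choose, Nat.factorial_succ] at this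
      calc k ! * ((k + 1) * M.choose (k + 1)) = (k + 1) * k ! * M.choose (k + 1) := by ring
        _ ≤ _ := this
    have h2 : (M - 2 * (k + 1)) ^ k ≤ k ! * (M - (k + 1)).choose k := by
      rw [← Nat.descFactorial_eq_factorial_mul_choose]
      exact (Nat.pow_le_pow_left (by omega) k).trans (Nat.pow_sub_le_descFactorial _ k)
    have h1' : ((k ! : ℕ) : ℝ) * ((k + 1) * M.choose (k + 1) : ℕ) ≤ (M : ℝ) ^ (k + 1) := by
      exact_mod_cast h1
    have h2' : ((M - 2 * (k + 1) : ℕ) : ℝ) ^ k ≤ ((k ! : ℕ) : ℝ) * ((M - (k + 1)).choose k : ℕ) := by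
      exact_mod_cast h2
    have h3 := hb k (by omega)
    refine le_of_mul_le_mul_left ?_ hf
    calc ((k ! : ℕ) : ℝ) * ((1 - η) * ((k + 1) * M.choose (k + 1) : ℕ))
        = (1 - η) * (((k ! : ℕ) : ℝ) * ((k + 1) * M.choose (k + 1) : ℕ)) := by ring
      _ ≤ (1 - η) * (M : ℝ) ^ (k + 1) := mul_le_mul_of_nonneg_left h1' h0
      _ = M * ((1 - η) * (M : ℝ) ^ k) := by ring
      _ ≤ M * (((k ! : ℕ) : ℝ) * ((M - (k + 1)).choose k : ℕ)) :=
        mul_le_mul_of_nonneg_left (h3.trans h2') hM'.le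
      _ = _ := by rw [Nat.cast_mul]; ring
  · have h1 := hb 1 (by omega)
    rw [pow_one, pow_one] at h1
    exact h1.trans (by exact_mod_cast (by omega : M - 2 * (k + 1) ≤ M - (k + 1)))

/-- Sketch (`K = k + 1`, `M` from `exists_M` for `η / 4`).  `c = r / (K * M.choose K)`,
`w = (M - K).choose k * c`, `h = ⌈n / (M k w)⌉`.  Then `K * M.choose K * c ≥ (1 - η / 4) r` for
large `R`, `M w ≤ M * (M - 1).choose k * c = K * M.choose K * c ≤ r`, `M k h w ≤ n + k r`,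
`k h ≥ n / r ≥ A`, `K ! * M.choose K ≤ M ^ K`. -/
theorem exists_par (k : ℕ) (hk : 2 ≤ k) {η : ℝ} (hη : 0 < η) (hη1 : η ≤ 1) (C : ℕ) :
    ∃ M R A : ℕ, (NI (k + 1) M : ℝ) ≤ η * (M : ℝ) ^ (k + 1) ∧ (NI k M : ℝ) ≤ η * (M : ℝ) ^ k ∧
      0 < M ∧ M ≤ A ∧ C ≤ A ∧ k + 1 ≤ R ∧ ∀ n r : ℕ, R ≤ r → A * r ≤ n → ∃ c h w : ℕ,
        0 < h ∧ 0 < w ∧ w ≤ (M - (k + 1)).choose k * c ∧ n ≤ M * (k * h * w) ∧
        (k + 1) * (M.choose (k + 1) * c) ≤ r ∧ r ≤ 2 * (k + 1) * (M.choose (k + 1) * c) ∧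
        (M * (k * h * w) : ℝ) ≤ (1 + η) * n ∧ (1 - η) * ((r : ℝ) + (k + 1 : ℕ)) ≤ M * w ∧
        (1 - η) * ((k + 1)! : ℝ) * r ≤ (k + 1) * (M - (k + 1) : ℕ) * c * (M : ℝ) ^ k ∧
        1 ≤ η * (k * h) := by
  obtain ⟨M, hM, n1, n2, n3, n4⟩ := exists_M k (η := η / 4) (by positivity)
  have hM0 : 0 < M := by omega
  have hM' : (0 : ℝ) < M := by exact_mod_cast hM0
  have hW : 0 < (M - (k + 1)).choose k := Nat.choose_pos (by omega)
  have hC : 0 < M.choose (k + 1) := Nat.choose_pos (by omega)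
  have hMW : M * (M - (k + 1)).choose k ≤ (k + 1) * M.choose (k + 1) := by
    obtain ⟨M', rfl⟩ : ∃ M', M = M' + 1 := ⟨M - 1, by omega⟩
    rw [mul_comm (k + 1), ← Nat.add_one_mul_choose_eq]
    exact Nat.mul_le_mul_left _ (Nat.choose_le_choose k (by omega))
  have hF : (k + 1)! * M.choose (k + 1) ≤ M ^ (k + 1) := by
    rw [← Nat.descFactorial_eq_factorial_mul_choose]
    exact Nat.descFactorial_le_pow _ _
  generalize hWe : (M - (k + 1)).choose k = W at hW hMW n3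
  generalize hCe : M.choose (k + 1) = Cc at hC hMW hF n3
  have hB : 0 < (k + 1) * Cc := by positivity
  obtain ⟨N, hN⟩ := exists_nat_ge ((((k + 1) * Cc : ℕ) : ℝ) / (η / 4))
  obtain ⟨N', hN'⟩ := exists_nat_ge ((k : ℝ) / η)
  rw [div_le_iff₀ (by positivity)] at hN hN'
  have hKB : k + 1 ≤ (k + 1) * Cc := Nat.le_mul_of_pos_right _ hC
  refine ⟨M, N + (k + 1) * Cc, M + C + N', n1.trans ?_, n2.trans ?_, hM0, by omega, by omega,
    by omega, fun n r hr hn => ?_⟩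
  · exact mul_le_mul_of_nonneg_right (by linarith) (by positivity)
  · exact mul_le_mul_of_nonneg_right (by linarith) (by positivity)
  rw [hWe, hCe]
  have hc : 0 < r / ((k + 1) * Cc) := Nat.div_pos (by omega) hB
  have c1 : (k + 1) * Cc * (r / ((k + 1) * Cc)) ≤ r := Nat.mul_div_le _ _
  have c2 : r < (k + 1) * Cc * (r / ((k + 1) * Cc) + 1) := Nat.lt_mul_div_succ r hB
  generalize r / ((k + 1) * Cc) = c at hc c1 c2
  have hQ : 0 < M * k * (W * c) := by positivity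
  have d1 : M * k * (W * c) * (n / (M * k * (W * c))) ≤ n := Nat.mul_div_le _ _
  have d2 : n < M * k * (W * c) * (n / (M * k * (W * c)) + 1) := Nat.lt_mul_div_succ n hQ
  generalize n / (M * k * (W * c)) = g at d1 d2
  have e1 : M * (W * c) ≤ r := by
    calc M * (W * c) = M * W * c := by ring
      _ ≤ (k + 1) * Cc * c := Nat.mul_le_mul_right _ hMW
      _ ≤ r := c1
  have e2 : n ≤ M * (k * (g + 1) * (W * c)) := by
    calc n ≤ M * k * (W * c) * (g + 1) := d2.le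
      _ = _ := by ring
  have e3 : M * (k * (g + 1) * (W * c)) ≤ n + k * r := by
    calc M * (k * (g + 1) * (W * c)) = M * k * (W * c) * g + k * (M * (W * c)) := by ring
      _ ≤ n + k * r := Nat.add_le_add d1 (Nat.mul_le_mul_left _ e1)
  have hr0 : 0 < r := by omega
  have e4 : N' ≤ k * (g + 1) := by
    refine Nat.le_of_mul_le_mul_right ?_ hr0
    calc N' * r ≤ (M + C + N') * r := Nat.mul_le_mul_right _ (by omega)
      _ ≤ M * (k * (g + 1) * (W * c)) := hn.trans e2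
      _ = k * (g + 1) * (M * (W * c)) := by ring
      _ ≤ _ := Nat.mul_le_mul_left _ e1
  have hr' : (0 : ℝ) < r := by exact_mod_cast hr0
  have hNr : (N : ℝ) ≤ r := by exact_mod_cast (by omega : N ≤ r)
  have hc' : (0 : ℝ) < c := by exact_mod_cast hc
  have f0 : (((k + 1) * Cc : ℕ) : ℝ) ≤ η / 4 * r := by nlinarith
  have f1 : (1 - η / 4) * r ≤ (((k + 1) * Cc : ℕ) : ℝ) * c := by
    have : (r : ℝ) ≤ (((k + 1) * Cc : ℕ) : ℝ) * (c + 1) := by exact_mod_cast c2.le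
    linarith
  have f2 : (0 : ℝ) ≤ 1 - η / 4 := by linarith
  refine ⟨c, g + 1, W * c, Nat.succ_pos _, by positivity, le_rfl, e2, by rwa [← mul_assoc], ?_, ?_,
    ?_, ?_, ?_⟩
  · calc r ≤ (k + 1) * Cc * (c + 1) := c2.le
      _ ≤ (k + 1) * Cc * (2 * c) := Nat.mul_le_mul_left _ (by omega)
      _ = _ := by ring
  · have h1 : (M : ℝ) * (k * (g + 1 : ℕ) * (W * c : ℕ)) ≤ n + k * r := by exact_mod_cast e3
    have h2 : (N' : ℝ) * r ≤ n := by
      exact_mod_cast (Nat.mul_le_mul_right r (by omega : N' ≤ M + C + N')).trans hn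
    have h3 : (k : ℝ) * r ≤ N' * η * r := mul_le_mul_of_nonneg_right hN' hr'.le
    have h4 : η * (N' * r) ≤ η * n := mul_le_mul_of_nonneg_left h2 hη.le
    linarith
  · have h1 : ((k + 1 : ℕ) : ℝ) ≤ η / 4 * r := le_trans (by exact_mod_cast hKB) f0
    have h2 : (1 - η / 4) * (((k + 1) * Cc : ℕ) : ℝ) * c ≤ ((M * W : ℕ) : ℝ) * c :=
      mul_le_mul_of_nonneg_right n3 hc'.le
    have h3 : (1 - η / 4) * ((1 - η / 4) * r) ≤ (1 - η / 4) * ((((k + 1) * Cc : ℕ) : ℝ) * c) :=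
      mul_le_mul_of_nonneg_left f1 f2
    have h4 : (1 - η) * ((r : ℝ) + (k + 1 : ℕ)) ≤ (1 - η) * (r + η / 4 * r) :=
      mul_le_mul_of_nonneg_left (by linarith) (by linarith)
    have h5 : (M : ℝ) * (W * c : ℕ) = ((M * W : ℕ) : ℝ) * c := by push_cast; ring
    have h6 : 0 ≤ η * r := by positivity
    have h7 : 0 ≤ η * η * r := by positivity
    rw [h5]
    nlinarith
  · have hf : (0 : ℝ) ≤ ((k + 1)! : ℕ) := Nat.cast_nonneg _
    have hF' : (((k + 1)! : ℕ) : ℝ) * Cc ≤ (M : ℝ) ^ (k + 1) := by exact_mod_cast hF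
    have h1 : (1 - η) * r ≤ (1 - η / 4) * ((((k + 1) * Cc : ℕ) : ℝ) * c) := by
      have h3 : (1 - η / 4) * ((1 - η / 4) * r) ≤ (1 - η / 4) * ((((k + 1) * Cc : ℕ) : ℝ) * c) :=
        mul_le_mul_of_nonneg_left f1 f2
      have h6 : 0 ≤ η * r := by positivity
      have h7 : 0 ≤ η * η * r := by positivity
      nlinarith
    calc (1 - η) * (((k + 1)! : ℕ) : ℝ) * r = (((k + 1)! : ℕ) : ℝ) * ((1 - η) * r) := by ring
      _ ≤ (((k + 1)! : ℕ) : ℝ) * ((1 - η / 4) * ((((k + 1) * Cc : ℕ) : ℝ) * c)) :=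
        mul_le_mul_of_nonneg_left h1 hf
      _ = (1 - η / 4) * ((k + 1) * c) * ((((k + 1)! : ℕ) : ℝ) * Cc) := by push_cast; ring
      _ ≤ (1 - η / 4) * ((k + 1) * c) * (M : ℝ) ^ (k + 1) :=
        mul_le_mul_of_nonneg_left hF' (by positivity)
      _ = ((1 - η / 4) * M) * ((k + 1) * c * (M : ℝ) ^ k) := by ring
      _ ≤ (M - (k + 1) : ℕ) * ((k + 1) * c * (M : ℝ) ^ k) :=
        mul_le_mul_of_nonneg_right n4 (by positivity)
      _ = _ := by ring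
  · have h1 : (N' : ℝ) ≤ k * (g + 1 : ℕ) := by exact_mod_cast e4
    have h2 : (1 : ℝ) ≤ k := by exact_mod_cast (by omega : 1 ≤ k)
    have h3 : η * N' ≤ η * (k * (g + 1 : ℕ)) := mul_le_mul_of_nonneg_left h1 hη.le
    linarith

end Pool.Agent.P.MP_c64be1_ag.Ell
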