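import Pool.Agent.P.MP_c64be1_ag.Ell.Defs

/-! The tensor filling theorem. -/

namespace Pool.Agent.P.MP_c64be1_ag.Ell

open Module

theorem exists_b_NumT (s k : ℕ) {a : ℝ} (ha : 0 < a) (hs : 1 < s * a ^ (k + 1)) :
    ∃ b : ℝ, 0 < b ∧ b < a ∧ 1 < s * b ^ (k + 1) := by
  have hc : Continuous fun t : ℝ => (s : ℝ) * t ^ (k + 1) := by fun_prop
  have h1 : ∀ᶠ t in nhds a, 1 < (s : ℝ) * t ^ (k + 1) :=
    hc.continuousAt.eventually (lt_mem_nhds hs)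
  have h2 : ∀ᶠ t in nhds a, 0 < t := lt_mem_nhds ha
  have h3 : ∀ᶠ t in nhdsWithin a (Set.Iio a), t < a := self_mem_nhdsWithin
  obtain ⟨b, ⟨hb1, hb2⟩, hb3⟩ := (((h1.and h2).filter_mono nhdsWithin_le_nhds).and h3).exists
  exact ⟨b, hb2, hb3, hb1⟩

/-- the sequence of degrees -/
noncomputable def seq_NumT (b : ℝ) (d : ℤ) : ℕ → ℤ
  | 0 => d
  | j + 1 => ⌊b * seq_NumT b d j⌋ - 1

theorem seq_ge_NumT {b : ℝ} (h0 : 0 ≤ b) (h1 : b ≤ 1) (d : ℤ) (j : ℕ) :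
    b ^ j * (d + 1) - (2 * j + 1) ≤ seq_NumT b d j := by
  induction j with
  | zero => simp [seq_NumT]
  | succ j ih =>
    rw [seq_NumT]
    push_cast
    have h2 := Int.lt_floor_add_one (b * seq_NumT b d j)
    have h3 := mul_le_mul_of_nonneg_left ih h0
    have h4 : b * (2 * j + 1) ≤ 2 * j + 1 := mul_le_of_le_one_left (by positivity) h1
    rw [pow_succ]
    nlinarith

/-- Sketch.  By continuity choose `0 < b < α / β` with `1 < s * b ^ (k + 1)`; then `b ≤ 1 / 2`.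
Put `D 0 = q s - 1`, `D (j + 1) = ⌊b * D j⌋ - 1`; then `D j ≥ b ^ j q s - 2 j - 1`.  Choose
`q = 2 ^ e` with `q (s b ^ (k + 1) - 1) > 2 k + 1`. -/
theorem num_tf (s k α β : ℕ) (hβ : 0 < β) (h2 : 2 * α ≤ β) (hs : β ^ (k + 1) < s * α ^ (k + 1)) :
    ∃ (b : ℝ) (e : ℕ) (D : ℕ → ℤ), 0 ≤ b ∧ b ≤ 1 ∧ b * β < α ∧ D 0 = 2 ^ e * s - 1 ∧
      (∀ j < k, (D (j + 1) : ℝ) + 1 ≤ b * D j ∧ (2 : ℝ) ^ e ≤ (1 - b) * (D (j + 1) + 1)) ∧
      (2 : ℤ) ^ e * β < α * D k := by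
  have hβ' : (0 : ℝ) < β := by exact_mod_cast hβ
  have hα : 0 < α := by
    rcases Nat.eq_zero_or_pos α with h | h
    · rw [h, zero_pow (Nat.succ_ne_zero k), mul_zero] at hs
      exact absurd hs (Nat.not_lt_zero _)
    · exact h
  have hα' : (0 : ℝ) < α := by exact_mod_cast hα
  have hs' : (1 : ℝ) < s * ((α : ℝ) / β) ^ (k + 1) := by
    rw [div_pow, ← mul_div_assoc, one_lt_div (by positivity)]
    exact_mod_cast hs
  obtain ⟨b, hb0, hba, hb1⟩ := exists_b_NumT s k (div_pos hα' hβ') hs'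
  have hbβ : b * β < α := (lt_div_iff₀ hβ').1 hba
  have h2' : (2 : ℝ) * α ≤ β := by exact_mod_cast h2
  have hbh : b ≤ 1 / 2 := by
    by_contra h
    have h := not_le.1 h
    nlinarith
  have hb1' : b ≤ 1 := by linarith
  obtain ⟨e, he⟩ := pow_unbounded_of_one_lt ((2 * k + 1 : ℝ) / (s * b ^ (k + 1) - 1))
    (one_lt_two (α := ℝ))
  rw [div_lt_iff₀ (by linarith)] at he
  have hq : (0 : ℝ) < 2 ^ e := by positivity
  have hD : ∀ j, j ≤ k → b ^ k * (2 ^ e * s) - (2 * k + 1) ≤ seq_NumT b (2 ^ e * s - 1) j := by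
    intro j hj
    have h1 := seq_ge_NumT hb0.le hb1' (2 ^ e * s - 1) j
    push_cast at h1
    rw [sub_add_cancel] at h1
    have h3 : b ^ k ≤ b ^ j := pow_le_pow_of_le_one hb0.le hb1' hj
    have h4 : b ^ k * (2 ^ e * s) ≤ b ^ j * (2 ^ e * s) :=
      mul_le_mul_of_nonneg_right h3 (by positivity)
    have h5 : (j : ℝ) ≤ k := by exact_mod_cast hj
    linarith
  have hE : ∀ j, j ≤ k → (2 : ℝ) ^ e < b * seq_NumT b (2 ^ e * s - 1) j := by
    intro j hj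
    have h1 := mul_le_mul_of_nonneg_left (hD j hj) hb0.le
    have h4 : b * (2 * k + 1) ≤ 2 * k + 1 := mul_le_of_le_one_left (by positivity) hb1'
    rw [pow_succ] at he
    nlinarith
  have hP : ∀ j, j ≤ k → (0 : ℝ) < seq_NumT b (2 ^ e * s - 1) j := fun j hj =>
    (pos_iff_pos_of_mul_pos (hq.trans (hE j hj))).1 hb0
  refine ⟨b, e, seq_NumT b (2 ^ e * s - 1), hb0.le, hb1', hbβ, rfl, fun j hj => ⟨?_, ?_⟩, ?_⟩
  · rw [seq_NumT]
    push_cast
    rw [sub_add_cancel]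
    exact Int.floor_le _
  · have h1 := hE (j + 1) hj
    have h3 := hP (j + 1) hj
    nlinarith
  · have h1 := hE k le_rfl
    have h3 := hP k le_rfl
    have h4 : (2 : ℝ) ^ e * β < α * seq_NumT b (2 ^ e * s - 1) k := by nlinarith
    exact_mod_cast h4

end Pool.Agent.P.MP_c64be1_ag.Ell
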