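import Pool.Agent.P.MP_c64be1_ag.Ell.Fld

/-! The tower of function fields. -/

namespace Pool.Agent.P.MP_c64be1_ag.Ell.Crv

open WithZero Module Polynomial

variable {k K : Type} [Field k] [Field K] [Algebra k K] (c : Crv k K)

theorem tower_Split {E L : IntermediateField k K} (h : E ≤ L) {ι : Type}
    (U : Submodule L (ι → K)) (U' : Submodule E (ι → K)) (hU : ∀ v, v ∈ U' ↔ v ∈ U)
    [FiniteDimensional E U'] {y : K} (hyL : y ∈ L) (hyE : y ∉ E) :
    FiniteDimensional L U ∧ 2 * finrank L U ≤ finrank E U' := by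
  classical
  have hfin : FiniteDimensional L U := by
    obtain ⟨S, hS⟩ := (Submodule.fg_iff_finiteDimensional U').2 inferInstance
    refine (Submodule.fg_iff_finiteDimensional U).1 ⟨S, le_antisymm ?_ ?_⟩
    · rw [Submodule.span_le]
      intro v hv
      exact (hU v).1 (hS ▸ Submodule.subset_span hv)
    · intro v hv
      have hv' : v ∈ Submodule.span E (S : Set (ι → K)) := hS ▸ (hU v).2 hv
      clear hv
      induction hv' using Submodule.span_induction with
      | mem w hw => exact Submodule.subset_span hw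
      | zero => exact zero_mem _
      | add w w' _ _ h1 h2 => exact add_mem h1 h2
      | smul a w _ h1 => exact Submodule.smul_mem _ (⟨a.1, h a.2⟩ : L) h1
  refine ⟨hfin, ?_⟩
  let b := Module.finBasis L U
  have hb : LinearIndependent L fun j => ((b j : U) : ι → K) :=
    b.linearIndependent.map' U.subtype U.ker_subtype
  let w : Fin (finrank L U) ⊕ Fin (finrank L U) → U' := Sum.elim
    (fun j => ⟨(b j : U), (hU _).2 (b j).2⟩)
    (fun j => ⟨y • ((b j : U) : ι → K), (hU _).2 (U.smul_mem (⟨y, hyL⟩ : L) (b j).2)⟩)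
  have hw : LinearIndependent E w := by
    rw [Fintype.linearIndependent_iff]
    intro g hg
    have hg' := congrArg Subtype.val hg
    rw [Fintype.sum_sum_type] at hg'
    simp only [Submodule.coe_add, Submodule.coe_sum, Submodule.coe_smul, w, Sum.elim_inl,
      Sum.elim_inr, Submodule.coe_zero] at hg'
    rw [Fintype.linearIndependent_iff] at hb
    have key := hb (fun j => (⟨(g (Sum.inl j) : K) + (g (Sum.inr j) : K) * y,
      add_mem (h (g _).2) (mul_mem (h (g _).2) hyL)⟩ : L)) (by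
        rw [← hg', ← Finset.sum_add_distrib]
        refine Finset.sum_congr rfl fun j _ => ?_
        change ((g (Sum.inl j) : K) + (g (Sum.inr j) : K) * y) • ((b j : U) : ι → K) =
          (g (Sum.inl j) : K) • ((b j : U) : ι → K) +
            (g (Sum.inr j) : K) • y • ((b j : U) : ι → K)
        rw [add_smul, mul_smul])
    have key' : ∀ j, (g (Sum.inl j) : K) + (g (Sum.inr j) : K) * y = 0 := fun j =>
      congrArg Subtype.val (key j)
    have hr : ∀ j, (g (Sum.inr j) : K) = 0 := by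
      intro j
      by_contra hne
      apply hyE
      have : y = -(g (Sum.inl j) : K) / (g (Sum.inr j) : K) := by
        rw [eq_div_iff hne]
        linear_combination key' j
      rw [this]
      exact div_mem (neg_mem (g _).2) (g _).2
    intro i
    apply Subtype.ext
    cases i with
    | inl j => simpa [hr j] using key' j
    | inr j => exact hr j
  have := hw.fintype_card_le_finrank
  simp only [Fintype.card_sum, Fintype.card_fin] at this
  omega

/-- An `E`-subspace that is stable under `x` is an `L`-subspace. -/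
def ext_Split {E L : IntermediateField k K} {ι : Type} {x : K}
    (hd : ∀ z ∈ L, ∃ a ∈ E, ∃ b ∈ E, z = a + x * b) (U : Submodule E (ι → K))
    (hU : ∀ v ∈ U, x • v ∈ U) : Submodule L (ι → K) where
  carrier := {v | v ∈ U}
  add_mem' := fun ha hb => U.add_mem ha hb
  zero_mem' := U.zero_mem
  smul_mem' := fun z v hv => by
    obtain ⟨a, ha, b, hb, hz⟩ := hd z.1 z.2
    have h1 : a • v ∈ U := U.smul_mem (⟨a, ha⟩ : E) hv
    have h2 : b • v ∈ U := U.smul_mem (⟨b, hb⟩ : E) hv
    change (z : K) • v ∈ U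
    rw [hz, add_smul, mul_smul]
    exact add_mem h1 (hU _ h2)

theorem abs_Split {E L : IntermediateField k K} (h : E ≤ L) {ι : Type} {x y : K} (hx : x ≠ 0)
    (hx2 : x ^ 2 ∈ E) (hd : ∀ z ∈ L, ∃ a ∈ E, ∃ b ∈ E, z = a + x * b) (hyL : y ∈ L)
    (hyE : y ∉ E) (W : Submodule E (ι → K)) [FiniteDimensional E W] :
    ∃ W₀ W₁ : Submodule L (ι → K),
      FiniteDimensional L W₀ ∧ FiniteDimensional L W₁ ∧
      finrank L W₀ + finrank L W₁ ≤ finrank E W ∧
      (∀ φ ∈ W, ∀ ψ ∈ W, φ + x • ψ ∈ W₀) ∧ ∀ ψ ∈ W, x • ψ ∈ W → ψ ∈ W₁ := by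
  let T : (ι → K) ≃ₗ[E] (ι → K) :=
    { toFun := fun v => x • v
      invFun := fun v => x⁻¹ • v
      map_add' := fun v w => smul_add _ _ _
      map_smul' := fun a v => smul_comm x (a : K) v
      left_inv := fun v => by simp [smul_smul, inv_mul_cancel₀ hx]
      right_inv := fun v => by simp [smul_smul, mul_inv_cancel₀ hx] }
  have hT : ∀ v, T v = x • v := fun v => rfl
  have hsq : ∀ v ∈ W, x • x • v ∈ W := fun v hv => by
    rw [smul_smul, ← sq]
    exact W.smul_mem (⟨x ^ 2, hx2⟩ : E) hv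
  let XW : Submodule E (ι → K) := W.map (T : (ι → K) →ₗ[E] (ι → K))
  have hXW : ∀ v, v ∈ XW ↔ ∃ u ∈ W, x • u = v := fun v => Submodule.mem_map
  have h0 : ∀ v ∈ W ⊔ XW, x • v ∈ W ⊔ XW := by
    intro v hv
    obtain ⟨a, ha, b, hb, rfl⟩ := Submodule.mem_sup.1 hv
    obtain ⟨u, hu, rfl⟩ := (hXW b).1 hb
    rw [smul_add]
    exact add_mem (Submodule.mem_sup_right ((hXW _).2 ⟨a, ha, rfl⟩))
      (Submodule.mem_sup_left (hsq u hu))
  have h1 : ∀ v ∈ W ⊓ XW, x • v ∈ W ⊓ XW := by
    intro v hv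
    obtain ⟨u, hu, rfl⟩ := (hXW v).1 hv.2
    exact ⟨hsq u hu, (hXW _).2 ⟨_, hv.1, rfl⟩⟩
  have : FiniteDimensional E (W ⊓ XW : Submodule E (ι → K)) :=
    Submodule.finiteDimensional_inf_left W XW
  obtain ⟨f0, r0⟩ := tower_Split h (ext_Split hd _ h0) (W ⊔ XW) (fun _ => Iff.rfl) hyL hyE
  obtain ⟨f1, r1⟩ := tower_Split h (ext_Split hd _ h1) (W ⊓ XW) (fun _ => Iff.rfl) hyL hyE
  have hsum := Submodule.finrank_sup_add_finrank_inf_eq W XW
  have hmap : finrank E XW = finrank E W := LinearEquiv.finrank_map_eq T W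
  refine ⟨ext_Split hd _ h0, ext_Split hd _ h1, f0, f1, by omega, ?_, ?_⟩
  · intro φ hφ ψ hψ
    change φ + x • ψ ∈ W ⊔ XW
    exact add_mem (Submodule.mem_sup_left hφ) (Submodule.mem_sup_right ((hXW _).2 ⟨ψ, hψ, rfl⟩))
  · intro ψ hψ hxψ
    change ψ ∈ W ⊓ XW
    refine ⟨hψ, (hXW _).2 ⟨x⁻¹ • ψ, ?_, ?_⟩⟩
    · have : x⁻¹ • ψ = (x ^ 2)⁻¹ • x • ψ := by
        rw [smul_smul]
        congr 1
        field_simp
      rw [this]
      exact W.smul_mem (⟨(x ^ 2)⁻¹, inv_mem hx2⟩ : E) hxψ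
    · simp [smul_smul, mul_inv_cancel₀ hx]

/-- Sketch: as `F (e+1)`-spaces put `W₀ = W + X W` and `W₁ = {ψ ∈ W | X ψ ∈ W}`; both are stable
under `X e` (since `X e ^ 2 ∈ F (e+1)`), hence are `F e`-subspaces by `F_decomp`.
`dim W₀ + dim (W ⊓ X W) = 2 dim W` over `F (e+1)` and `W ⊓ X W = X W₁`.  For an `F e`-space `U`
one has `2 dim_{F e} U ≤ dim_{F (e+1)} U`: if `w j` is independent over `F e` then `w j, Y w j` is
independent over `F (e+1)` by `Y_notMem`; finite dimensionality over `F e` follows from a finite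
spanning set over the smaller field. -/
theorem rank_split (e : ℕ) {ι : Type} (W : Submodule (c.F (e + 1)) (ι → K))
    [FiniteDimensional (c.F (e + 1)) W] : ∃ W₀ W₁ : Submodule (c.F e) (ι → K),
      FiniteDimensional (c.F e) W₀ ∧ FiniteDimensional (c.F e) W₁ ∧
      finrank (c.F e) W₀ + finrank (c.F e) W₁ ≤ finrank (c.F (e + 1)) W ∧
      (∀ φ ∈ W, ∀ ψ ∈ W, φ + c.X e • ψ ∈ W₀) ∧ ∀ ψ ∈ W, c.X e • ψ ∈ W → ψ ∈ W₁ := by
  have hx : c.X e ≠ 0 := by
    intro h0
    have := c.vX e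
    rw [h0, map_zero] at this
    exact exp_ne_zero this.symm
  refine abs_Split (c.F_succ_le e) hx ?_ (fun z hz => c.F_decomp hz) (c.R_le_F (c.Y_mem_R e))
    (c.Y_notMem e) W
  rw [← c.X_succ]
  exact c.R_le_F (c.X_mem_R (e + 1))

end Pool.Agent.P.MP_c64be1_ag.Ell.Crv
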