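import Pool.Agent.P.MP_c64be1_ag.Ell.Lin
import Pool.Agent.P.MP_c64be1_ag.Ell.Tens

/-! From tensor filling to symmetric filling for a bounded number of summands. -/

namespace Pool.Agent.P.MP_c64be1_ag.Ell

open MvPolynomial Module

theorem tails_Sym {I κ ι : Type} [Fintype ι] [Nonempty ι] (k : ℕ) :
    ∀ v : I → Fin k → κ → ι → ℂ, TFill v → ∀ j ≤ k, ∃ v' : I → Fin j → κ → ι → ℂ, TFill v' := by
  induction k with
  | zero =>
    intro v h j hj
    obtain rfl : j = 0 := by omega
    exact ⟨v, h⟩
  | succ k ih =>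
    intro v h j hj
    rcases Nat.eq_or_lt_of_le hj with rfl | hj
    · exact ⟨v, h⟩
    · exact ih _ (tfill_tail h) j (by omega)

theorem gen_one_Sym {I κ ι : Type} [Fintype ι] {j M : ℕ} {v : I → Fin j → κ → ι → ℂ}
    (h : TFill v) (β : Fin j → Fin M) (hβ : Function.Injective β) :
    ∀ᶠ x in Sh.gen (I × Fin M × κ × ι), TFill fun i t e a => x (i, β t, e, a) := by
  refine Sh.gen_inj (S := I × (Fin j → κ)) (B := Fin j → ι)
    (fun s a x => ∏ t, x (s.1, β t, s.2 t, a t))
    (fun s a => Sh.PF_prod _ fun t _ => Sh.PF_coord _)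
    (x₀ := fun q => Function.extend β (fun t => v q.1 t q.2.2.1 q.2.2.2) 0 q.2.1) ?_
  intro f hf
  refine h f fun s => ?_
  have h1 := hf s
  simpa only [hβ.extend_apply] using h1

/-- Sketch.  By `tfill_tail` there are fillings with `j` factors for all `j ≤ k`.  Parameters:
`x : I × Fin M × κ × ι → ℂ`.  For each `j ≤ k` and injective `β` the property holds at the point
`x (i, b, e, a) = v_j i (β⁻¹ b) e a` (`Function.extend β`), hence generically (`Sh.gen_inj`,
`Sh.PF_prod`, `Sh.PF_coord`); intersect finitely many generic sets (`Filter.eventually_all`). -/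
theorem gen_tfill {I κ ι : Type} [Fintype ι] [Nonempty ι] {k : ℕ} {v : I → Fin k → κ → ι → ℂ}
    (h : TFill v) (M : ℕ) : ∃ z : I → Fin M → κ → ι → ℂ, ∀ j ≤ k, ∀ β : Fin j → Fin M,
      Function.Injective β → TFill fun i t => z i (β t) := by
  have h1 : ∀ᶠ x in Sh.gen (I × Fin M × κ × ι), ∀ (j : Fin (k + 1)) (β : Fin j → Fin M),
      Function.Injective β → TFill fun i t e a => x (i, β t, e, a) := by
    refine Filter.eventually_all.2 fun j => Filter.eventually_all.2 fun β => ?_
    by_cases hβ : Function.Injective β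
    · obtain ⟨v', hv'⟩ := tails_Sym k v h j (Nat.lt_succ_iff.1 j.2)
      filter_upwards [gen_one_Sym hv' β hβ] with x hx _ using hx
    · exact Filter.Eventually.of_forall fun x h' => absurd h' hβ
  obtain ⟨x, hx⟩ := h1.exists
  exact ⟨fun i b e a => x (i, b, e, a), fun j hj β hβ => hx ⟨j, Nat.lt_succ_of_le hj⟩ β hβ⟩

/-- A polynomial of degree less than `d` with a prescribed simple pattern of values: for
`b₀ ∈ S`, `S.card ≤ d`, take `∏ b ∈ S.erase b₀, (X - b) / (b₀ - b)` and its coefficients. -/
theorem exists_vander {M d : ℕ} (S : Finset (Fin M)) (hS : S.card ≤ d) {b₀ : Fin M}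
    (hb : b₀ ∈ S) : ∃ y : Fin d → ℂ, (∑ l, y l * ((b₀ : ℕ) : ℂ) ^ (l : ℕ) = 1) ∧
      ∀ b ∈ S, b ≠ b₀ → ∑ l, y l * ((b : ℕ) : ℂ) ^ (l : ℕ) = 0 := by
  have hinj : Set.InjOn (fun b : Fin M => ((b : ℕ) : ℂ)) S := fun a _ b _ h =>
    Fin.ext (Nat.cast_injective (R := ℂ) h)
  set P : Polynomial ℂ := Lagrange.basis S (fun b : Fin M => ((b : ℕ) : ℂ)) b₀ with hP
  have hd : P.natDegree < d := by
    rw [hP, Lagrange.natDegree_basis hinj hb]
    have := Finset.card_pos.2 ⟨b₀, hb⟩
    omega
  have hev : ∀ x : ℂ, ∑ l : Fin d, P.coeff l * x ^ (l : ℕ) = P.eval x := fun x => by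
    rw [Polynomial.eval_eq_sum_range' hd, Finset.sum_range]
  refine ⟨fun l => P.coeff l, ?_, fun b hbS hne => ?_⟩
  · rw [hev]
    exact Lagrange.eval_basis_self hinj hb
  · rw [hev]
    exact Lagrange.eval_basis_of_ne (v := fun b : Fin M => ((b : ℕ) : ℂ)) (Ne.symm hne) hbS

theorem mul_mem_Sym {A I : Type} [CommRing A] [Algebra ℂ A] (U : I → Submodule ℂ A) {j : ℕ}
    {E R : A} (hE : ∀ i, E ∈ U i) (hR : R ∈ ⨆ i, U i ^ j) : E * R ∈ ⨆ i, U i ^ (j + 1) := by
  refine Submodule.iSup_induction (motive := fun R => E * R ∈ ⨆ i, U i ^ (j + 1)) _ hR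
    (fun i R hR => ?_) (by simp) fun x y hx hy => ?_
  · refine Submodule.mem_iSup_of_mem i ?_
    rw [pow_succ']
    exact Submodule.mul_mem_mul (hE i) hR
  · rw [mul_add]
    exact add_mem hx hy

theorem prod_update_Sym {σ : Type} {j : ℕ} (p : Fin (j + 1) → σ) (t₁ : Fin (j + 1)) (q : σ) :
    ∏ t, (X (Function.update p t₁ q t) : MvPolynomial σ ℂ) =
      X q * ∏ t : Fin j, X (p (t₁.succAbove t)) := by
  rw [Fin.prod_univ_succAbove _ t₁, Function.update_self]
  congr 1
  exact Finset.prod_congr rfl fun t _ => by rw [Function.update_of_ne (Fin.succAbove_ne t₁ t)]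

/-- Sketch.  Induction on `j ≤ k`; `j = 0` is trivial as `I` is nonempty.  For `j + 1` use
`hom_le_of_mono` and descending induction on the number of blocks that occur in `p`.  If all blocks
are different use `mono_mem` and `prod_mem_pow`.  Otherwise two positions `t₁ ≠ t₂` share the block
`b₀`, the set `S` of blocks has at most `j ≤ k - 1` elements, and `exists_vander` gives an element
`E = X (b₀, a) + ∑ b ∉ S, c b * X (b, a)` of every `U i` (`a` the second component of `p t₁`).
`E * ∏ t ≠ t₁, X (p t)` lies in `⨆ U i ^ (j + 1)` by the induction hypothesis for `j`, and the terms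
with `b ∉ S` have one more block. -/
theorem sym_fill {I κ ι : Type} [Nonempty I] [Fintype ι] {k M : ℕ}
    (z : I → Fin M → κ → ι → ℂ)
    (hz : ∀ j ≤ k, ∀ β : Fin j → Fin M, Function.Injective β → TFill fun i t => z i (β t))
    (U : I → Submodule ℂ (MvPolynomial (Fin M × ι) ℂ)) (h1 : ∀ i b e, lin b (z i b e) ∈ U i)
    (h2 : ∀ i (l : Fin (k - 1)) (a : ι),
      ∑ b : Fin M, C (((b : ℕ) : ℂ) ^ (l : ℕ)) * X (b, a) ∈ U i) :
    ∀ j ≤ k, homogeneousSubmodule (Fin M × ι) ℂ j ≤ ⨆ i, U i ^ j := by
  suffices H : ∀ j ≤ k, ∀ p : Fin j → Fin M × ι,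
      ∏ t, (X (p t) : MvPolynomial (Fin M × ι) ℂ) ∈ ⨆ i, U i ^ j from
    fun j hj => hom_le_of_mono _ (H j hj)
  intro j
  induction j with
  | zero =>
    intro _ p
    obtain ⟨i⟩ := ‹Nonempty I›
    exact Submodule.mem_iSup_of_mem i (prod_mem_pow (U i) _ fun t => t.elim0)
  | succ j ih =>
    intro hj
    have hinj : ∀ p : Fin (j + 1) → Fin M × ι, Function.Injective (fun t => (p t).1) →
        ∏ t, (X (p t) : MvPolynomial (Fin M × ι) ℂ) ∈ ⨆ i, U i ^ (j + 1) := fun p hp =>
      mono_mem (hz (j + 1) hj (fun t => (p t).1) hp) (fun t => (p t).1) _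
        (fun q => Submodule.mem_iSup_of_mem q.1 (prod_mem_pow (U q.1) _ fun t => h1 _ _ _))
        fun t => (p t).2
    have hcard : ∀ p : Fin (j + 1) → Fin M × ι, ¬Function.Injective (fun t => (p t).1) →
        (Finset.univ.image fun t => (p t).1).card ≤ j := fun p hp => by
      have h3 : (Finset.univ.image fun t => (p t).1).card ≤ j + 1 :=
        Finset.card_image_le.trans (by simp)
      by_contra hn
      refine hp (Set.injOn_univ.1 ?_)
      rw [← Finset.coe_univ]
      exact Finset.card_image_iff.1 (by simp only [Finset.card_univ, Fintype.card_fin]; omega)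
    suffices H : ∀ n : ℕ, ∀ p : Fin (j + 1) → Fin M × ι,
        j + 1 ≤ (Finset.univ.image fun t => (p t).1).card + n →
        ∏ t, (X (p t) : MvPolynomial (Fin M × ι) ℂ) ∈ ⨆ i, U i ^ (j + 1) from
      fun p => H (j + 1) p (by omega)
    intro n
    induction n with
    | zero =>
      intro p hp
      refine hinj p ?_
      by_contra hn
      have := hcard p hn
      omega
    | succ n ihn =>
      intro p hp
      by_cases hn : Function.Injective (fun t => (p t).1)
      · exact hinj p hn
      have hc := hcard p hn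
      obtain ⟨t₁, t₂, ht, hne⟩ := Function.not_injective_iff.1 hn
      set S := Finset.univ.image fun t => (p t).1 with hS
      have hb : (p t₁).1 ∈ S := Finset.mem_image_of_mem _ (Finset.mem_univ _)
      obtain ⟨y, hy1, hy2⟩ := exists_vander (d := k - 1) S (by omega) hb
      set c : Fin M → ℂ := fun b => ∑ l, y l * ((b : ℕ) : ℂ) ^ (l : ℕ) with hcdef
      set R : MvPolynomial (Fin M × ι) ℂ := ∏ t : Fin j, X (p (t₁.succAbove t)) with hR
      have hE : ∀ i, ∑ b : Fin M, c b • (X (b, (p t₁).2) : MvPolynomial (Fin M × ι) ℂ) ∈ U i := by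
        intro i
        have h3 : ∑ l, y l • ∑ b : Fin M, C (((b : ℕ) : ℂ) ^ (l : ℕ)) * X (b, (p t₁).2) ∈ U i :=
          sum_mem fun l _ => Submodule.smul_mem _ _ (h2 i l _)
        convert h3 using 1
        simp only [hcdef, Finset.sum_smul, Finset.smul_sum, ← smul_eq_C_mul, smul_smul]
        exact Finset.sum_comm
      have h3 := mul_mem_Sym U hE (ih (by omega) fun t => p (t₁.succAbove t))
      rw [← hR, Finset.sum_mul, ← Finset.add_sum_erase _ _ (Finset.mem_univ (p t₁).1)] at h3
      have h4 : ∑ b ∈ Finset.univ.erase (p t₁).1,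
          c b • (X (b, (p t₁).2) : MvPolynomial (Fin M × ι) ℂ) * R ∈ ⨆ i, U i ^ (j + 1) := by
        refine sum_mem fun b hb' => ?_
        by_cases hbS : b ∈ S
        · rw [show c b = 0 from hy2 b hbS (Finset.ne_of_mem_erase hb')]
          simp
        · rw [smul_mul_assoc, hR, ← prod_update_Sym]
          refine Submodule.smul_mem _ _ (ihn _ ?_)
          have h5 : insert b S ⊆
              Finset.univ.image fun t => (Function.update p t₁ (b, (p t₁).2) t).1 := by
            intro b' hb'
            rw [Finset.mem_image]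
            rcases Finset.mem_insert.1 hb' with rfl | hb'
            · exact ⟨t₁, Finset.mem_univ _, by simp⟩
            · obtain ⟨t, -, rfl⟩ := Finset.mem_image.1 hb'
              by_cases htt : t = t₁
              · refine ⟨t₂, Finset.mem_univ _, ?_⟩
                rw [Function.update_of_ne (Ne.symm hne), htt]
                exact ht.symm
              · exact ⟨t, Finset.mem_univ _, by rw [Function.update_of_ne htt]⟩
          have h6 := Finset.card_le_card h5
          rw [Finset.card_insert_of_notMem hbS] at h6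
          omega
      have h5 := sub_mem h3 h4
      rw [add_sub_cancel_right, show c (p t₁).1 = 1 from hy1, one_smul] at h5
      rw [Fin.prod_univ_succAbove _ t₁]
      exact h5

end Pool.Agent.P.MP_c64be1_ag.Ell
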