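import Pool.Agent.P.MP_c64be1_ag.Ell.Defs

/-! The tensor filling theorem. -/

namespace Pool.Agent.P.MP_c64be1_ag.Ell

open Module

open MvPolynomial in
/-- The generic determinant and its values. -/
theorem det_eval_Transfer {R I J κ ι : Type} [CommRing R] [Fintype I] [Fintype J] [DecidableEq J]
    [Fintype κ] [Fintype ι] [DecidableEq ι]
    (x : (I × J × κ × ι) ⊕ ((J → ι) × (I × (J → κ))) → R) :
    eval₂Hom (Int.castRingHom R) x
      (Matrix.det (Matrix.of fun (b b' : J → ι) => ∑ p : I × (J → κ),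
        (X (Sum.inr (b, p)) * ∏ t, X (Sum.inl (p.1, t, p.2 t, b' t)) :
          MvPolynomial ((I × J × κ × ι) ⊕ ((J → ι) × (I × (J → κ)))) ℤ))) =
    Matrix.det ((Matrix.of fun (b : J → ι) (p : I × (J → κ)) => x (Sum.inr (b, p))) *
      (Matrix.of fun (p : I × (J → κ)) (b' : J → ι) => ∏ t, x (Sum.inl (p.1, t, p.2 t, b' t)))) := by
  rw [RingHom.map_det]
  congr 1
  ext b b'
  simp [Matrix.mul_apply]

/-- Sketch.  As in `Sh.gen_inj`: the rows span, so there is a matrix `cf` over `F` with
`∑ p, cf b p * row p b' = 1` (identity matrix).  The determinant of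
`∑ p, X (inr (b, p)) * ∏ t, X (inl (p.1, t, p.2 t, b' t))` is an element of `MvPolynomial _ ℤ` whose
evaluation in `F` is `1`, so it is nonzero, its image over `ℂ` is nonzero
(`MvPolynomial.map_injective`), and it has a nonzero value (`MvPolynomial.funext`). -/
theorem transfer {F I J κ ι : Type} [Field F] [Fintype I] [Fintype J] [DecidableEq J] [Fintype κ]
    [Fintype ι] {v : I → J → κ → ι → F} (h : TFill v) : ∃ v' : I → J → κ → ι → ℂ, TFill v' := by
  classical
  let A : Matrix (I × (J → κ)) (J → ι) F := Matrix.of fun p a => ∏ t, v p.1 t (p.2 t) (a t)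
  have hA : LinearMap.ker (Matrix.toLin' A) = ⊥ := by
    rw [LinearMap.ker_eq_bot']
    intro ψ hψ
    refine h ψ fun p => ?_
    have := congrFun hψ p
    simpa [A, Matrix.toLin'_apply, Matrix.mulVec, dotProduct] using this
  obtain ⟨g, hg⟩ := LinearMap.exists_leftInverse_of_injective _ hA
  have hcf : LinearMap.toMatrix' g * A = 1 := by
    have := congrArg LinearMap.toMatrix' hg
    rwa [LinearMap.toMatrix'_comp, LinearMap.toMatrix'_toLin', LinearMap.toMatrix'_id] at this
  set D : MvPolynomial ((I × J × κ × ι) ⊕ ((J → ι) × (I × (J → κ)))) ℤ :=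
    Matrix.det (Matrix.of fun (b b' : J → ι) => ∑ p : I × (J → κ),
      (MvPolynomial.X (Sum.inr (b, p)) * ∏ t, MvPolynomial.X (Sum.inl (p.1, t, p.2 t, b' t)) :
        MvPolynomial ((I × J × κ × ι) ⊕ ((J → ι) × (I × (J → κ)))) ℤ)) with hD
  have hD0 : D ≠ 0 := by
    intro h0
    have e := det_eval_Transfer (R := F) (Sum.elim (fun q : I × J × κ × ι => v q.1 q.2.1 q.2.2.1 q.2.2.2)
      (fun q : (J → ι) × (I × (J → κ)) => LinearMap.toMatrix' g q.1 q.2))
    rw [← hD, h0, map_zero] at e
    have e2 : Matrix.det (LinearMap.toMatrix' g * A) = 0 := e.symm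
    rw [hcf, Matrix.det_one] at e2
    exact one_ne_zero e2
  have hD1 : MvPolynomial.map (Int.castRingHom ℂ) D ≠ 0 := fun h0 =>
    hD0 (MvPolynomial.map_injective (Int.castRingHom ℂ) Int.cast_injective (by rw [h0, map_zero]))
  have hx : ∃ x, MvPolynomial.eval x (MvPolynomial.map (Int.castRingHom ℂ) D) ≠ 0 := by
    by_contra hne
    push Not at hne
    exact hD1 (MvPolynomial.funext fun x => by rw [hne x, map_zero])
  obtain ⟨x, hx⟩ := hx
  rw [MvPolynomial.eval_map, ← MvPolynomial.coe_eval₂Hom, hD, det_eval_Transfer] at hx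
  refine ⟨fun i t e a => x (Sum.inl (i, t, e, a)), fun ψ hψ => ?_⟩
  refine Matrix.eq_zero_of_mulVec_eq_zero hx ?_
  rw [← Matrix.mulVec_mulVec]
  have e : (Matrix.of fun (p : I × (J → κ)) (b' : J → ι) =>
      ∏ t, x (Sum.inl (p.1, t, p.2 t, b' t))).mulVec ψ = 0 := by
    funext p
    have := hψ p
    simpa [Matrix.mulVec, dotProduct] using this
  rw [e, Matrix.mulVec_zero]

/-- The monomial case: `v i t () = e_{i t}` for `i : Fin k → Fin 2` (`finFunctionFinEquiv`). -/
theorem tf_two (k : ℕ) : ∃ v : Fin (2 ^ k) → Fin k → Unit → Fin 2 → ℂ, TFill v := by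
  refine ⟨fun i t _ a => if a = finFunctionFinEquiv.symm i t then 1 else 0, fun ψ hψ => ?_⟩
  funext b
  have := hψ (finFunctionFinEquiv b, fun _ => ())
  simp only [Equiv.symm_apply_apply] at this
  rw [Finset.sum_eq_single b] at this
  · simpa using this
  · intro a _ hab
    obtain ⟨t, ht⟩ := Function.ne_iff.1 hab
    rw [Finset.prod_eq_zero (Finset.mem_univ t) (if_neg ht), zero_mul]
  · intro hb
    exact absurd (Finset.mem_univ b) hb

end Pool.Agent.P.MP_c64be1_ag.Ell
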