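import Pool.Agent.P.MP_c64be1_ag.Ell.Tens
import Pool.Agent.P.MP_c64be1_ag.Ell.Last
import Pool.Agent.P.MP_c64be1_ag.Ell.Ineq
import Pool.Agent.P.MP_c64be1_ag.Ell.Jets
import Pool.Agent.P.MP_c64be1_ag.Ell.Laurent
import Pool.Agent.P.MP_c64be1_ag.Ell.NumT
import Pool.Agent.P.MP_c64be1_ag.Ell.Transfer

/-! The tensor filling theorem. -/

namespace Pool.Agent.P.MP_c64be1_ag.Ell

open Module

theorem pos_TF {F T ι : Type} [Field F] [AddCommGroup T] [Module F T] [Fintype ι]
    (P : Submodule F T) [FiniteDimensional F P] (S : Submodule F (ι → T))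
    (hS : S ≤ Submodule.pi Set.univ fun _ => P) (h0 : S ≠ ⊥) : 0 < finrank F S := by
  have hP : P.FG := Module.Finite.iff_fg.mp inferInstance
  have hfg : (Submodule.pi Set.univ fun _ : ι => P).FG := Submodule.fg_pi fun _ => hP
  have : FiniteDimensional F (Submodule.pi Set.univ fun _ : ι => P) :=
    Module.Finite.iff_fg.mpr hfg
  have : FiniteDimensional F S := Submodule.finiteDimensional_of_le hS
  rcases Nat.eq_zero_or_pos (finrank F S) with h | h
  · exact absurd (Submodule.finrank_eq_zero.mp h) h0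
  · exact h

theorem card_TF {ι κ : Type} [Fintype ι] [Fintype κ] {α β : ℕ} (n : ℕ)
    (h : Fintype.card κ * β = Fintype.card ι * α) :
    Fintype.card (κ × Fin (n + 1)) * β = Fintype.card (ι × Fin (n + 1)) * α := by
  rw [Fintype.card_prod, Fintype.card_prod, mul_right_comm, h, mul_right_comm]

theorem ar_TF {a c α β r t : ℕ} {b : ℝ} (ha : 0 < a) (hr : 0 < r)
    (h : c * β = a * α) (_hb0 : 0 ≤ b) (hb : b * β < α) (hrt : (r : ℝ) ≤ b * t) : a * r < c * t := by
  have hr' : (0 : ℝ) < r := by exact_mod_cast hr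
  have ha' : (0 : ℝ) < a := by exact_mod_cast ha
  have ht : (0 : ℝ) < t := by
    rcases Nat.eq_zero_or_pos t with h0 | h0
    · subst h0
      simp only [Nat.cast_zero, mul_zero] at hrt
      linarith
    · exact_mod_cast h0
  have h' : (c : ℝ) * β = a * α := by exact_mod_cast h
  have hβ : (0 : ℝ) ≤ β := Nat.cast_nonneg β
  have key : ((a * r : ℕ) : ℝ) * β < ((c * t : ℕ) : ℝ) * β := by
    push_cast
    calc (a : ℝ) * r * β ≤ a * (b * t) * β :=
          mul_le_mul_of_nonneg_right (mul_le_mul_of_nonneg_left hrt ha'.le) hβ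
      _ = (a * t) * (b * β) := by ring
      _ < (a * t) * α := mul_lt_mul_of_pos_left hb (mul_pos ha' ht)
      _ = (a * α) * t := by ring
      _ = c * t * β := by rw [← h']; ring
  exact_mod_cast lt_of_mul_lt_mul_right key hβ

theorem ar2_TF {a c α β r t q n m : ℕ} (ha : 0 < a) (hr : 0 < r)
    (h : c * β = a * α) (hq : q * β < α * n) (hn : n ≤ m) (hm : m * r ≤ q * t) :
    a * r < c * t := by
  have key : a * r * (q * β) < c * t * (q * β) := by
    calc a * r * (q * β) < a * r * (α * n) := mul_lt_mul_of_pos_left hq (mul_pos ha hr)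
      _ = (a * α) * (n * r) := by ring
      _ ≤ (a * α) * (m * r) := Nat.mul_le_mul_left _ (Nat.mul_le_mul_right _ hn)
      _ ≤ (a * α) * (q * t) := Nat.mul_le_mul_left _ hm
      _ = c * t * (q * β) := by rw [← h]; ring
  exact lt_of_mul_lt_mul_right key (Nat.zero_le _)

/-- Sketch.  Take `b, e, D` from `num_tf`, a finite field with `s` points (`exists_field`), the
curve (`exists_crv`) and jets `p` (`exists_pts`).  Induction on `j ≤ k`: there are finite types
`ι`, `κ` with `ι` nonempty, `card κ * β = card ι * α` and `v : Fin s → Fin j → κ → ι → F` with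
`Test (prodc v) p.ev (c.L 0 (D j))`.  Start: `Fin β`, `Fin α`, `test_zero`.  Step: `main_ineq`,
`fd_L`, `step_factor`.  Last factor: `last_ineq`, `le_finrank_L` (level `0`), `step_factor` with
`T = Q = F`, `ev = id`, `P = ⊤`, then `tfill_of_test` and `transfer`. -/
theorem tf (s k α β : ℕ) (hβ : 0 < β) (h2 : 2 * α ≤ β) (hs : β ^ (k + 1) < s * α ^ (k + 1)) :
    ∃ (ι κ : Type) (_ : Fintype ι) (_ : Fintype κ) (_ : Nonempty ι)
      (v : Fin s → Fin (k + 1) → κ → ι → ℂ),
      Fintype.card κ * β = Fintype.card ι * α ∧ TFill v := by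
  obtain ⟨b, e, D, hb0, hb1, hbβ, hD0, hD, hDk⟩ := num_tf s k α β hβ h2 hs
  obtain ⟨F, _, _, _, px, py, hinj, hxy⟩ := exists_field s
  obtain ⟨K, _, _, ⟨c⟩⟩ := exists_crv F
  obtain ⟨J, _, _, _, p, hJ, hp⟩ := c.exists_pts e s px py hinj hxy
  have ind : ∀ j, j ≤ k → ∃ (ι κ : Type) (_ : Fintype ι) (_ : Fintype κ) (_ : Nonempty ι)
      (v : Fin s → Fin j → κ → ι → F),
      Fintype.card κ * β = Fintype.card ι * α ∧ Test (prodc v) p.ev (c.L 0 (D j)) := by
    intro j
    induction j with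
    | zero =>
      intro _
      refine ⟨Fin β, Fin α, inferInstance, inferInstance, ⟨⟨0, hβ⟩⟩, fun _ _ _ _ => 0, ?_, ?_⟩
      · simp [mul_comm]
      · refine test_zero _ _ _ ?_
        rw [hD0]
        exact hp
    | succ j ih =>
      intro hj
      obtain ⟨ι, κ, _, _, _, v, hc, hT⟩ := ih (Nat.le_of_succ_le hj)
      have := c.fd_L 0 (D (j + 1))
      obtain ⟨h1, h2'⟩ := hD j hj
      obtain ⟨n, v', hv'⟩ := step_factor v p.ev (c.L 0 (D (j + 1))) fun S hS h0 => by
        have hm := c.main_ineq p (prodc v) hT hb0 hb1 h1 h2' S hS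
        refine ar_TF Fintype.card_pos (pos_TF _ S hS h0) hc hb0 hbβ ?_
        push_cast
        exact hm
      exact ⟨ι × Fin (n + 1), κ × Fin (n + 1), inferInstance, inferInstance, inferInstance, v',
        card_TF n hc, hv'⟩
  obtain ⟨ι, κ, _, _, _, v, hc, hT⟩ := ind k le_rfl
  have := c.fd_L 0 (D k)
  have hpos : 0 ≤ D k := by
    by_contra hneg
    have h1 : (α : ℤ) * D k ≤ 0 :=
      mul_nonpos_of_nonneg_of_nonpos (Int.natCast_nonneg α) (not_le.mp hneg).le
    have h3 : (0 : ℤ) ≤ 2 ^ e * β := by positivity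
    linarith
  obtain ⟨n, hn⟩ := Int.eq_ofNat_of_zero_le hpos
  have hle : n ≤ finrank F (c.L 0 (D k)) := by
    have h1 := c.le_finrank_L 0 n
    rw [pow_zero, one_mul, ← hn] at h1
    exact h1
  have hq : 2 ^ e * β < α * n := by
    rw [hn] at hDk
    exact_mod_cast hDk
  obtain ⟨m, v', hv'⟩ := step_factor v (fun _ => (LinearMap.id : F →ₗ[F] F)) ⊤ fun S hS h0 => by
    have hm := last_ineq (prodc v) p.ev (c.L 0 (D k)) hT S
    rw [hJ] at hm
    exact ar2_TF Fintype.card_pos (pos_TF _ S hS h0) hc hq hle hm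
  obtain ⟨w, hw⟩ := transfer (tfill_of_test hv')
  exact ⟨ι × Fin (m + 1), κ × Fin (m + 1), inferInstance, inferInstance, inferInstance, w,
    card_TF m hc, hw⟩

end Pool.Agent.P.MP_c64be1_ag.Ell
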