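import Pool.Agent.P.MP_c64be1_ag.Ell.Defs

/-! The valuation on the coordinate rings. -/

namespace Pool.Agent.P.MP_c64be1_ag.Ell.Crv

open WithZero Module Polynomial

variable {k K : Type} [Field k] [Field K] [Algebra k K] (c : Crv k K)

theorem X_succ (e : ℕ) : c.X (e + 1) = c.X e ^ 2 := by
  rw [X, X, pow_succ, pow_mul]

theorem Y_succ (e : ℕ) : c.Y (e + 1) = c.Y e ^ 2 := by
  rw [Y, Y, pow_succ, pow_mul]

/-- Induction on `e`: square the equation, using `c.two`. -/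
theorem eqn_e (e : ℕ) : c.Y e ^ 2 + c.Y e = c.X e ^ 3 := by
  induction e with
  | zero => simpa [Crv.X, Y] using c.eqn
  | succ e ih =>
    rw [X_succ, Y_succ]
    linear_combination (c.Y e ^ 2 + c.Y e + c.X e ^ 3) * ih - c.Y e ^ 3 * c.two

theorem vX (e : ℕ) : c.v (c.X e) = exp (2 * 2 ^ e : ℤ) := by
  rw [X, map_pow, c.vx, ← exp_nsmul]
  congr 1
  rw [nsmul_eq_mul, mul_comm]
  push_cast
  rfl

theorem vY (e : ℕ) : c.v (c.Y e) = exp (3 * 2 ^ e : ℤ) := by
  rw [Y, map_pow, c.vy, ← exp_nsmul]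
  congr 1
  rw [nsmul_eq_mul, mul_comm]
  push_cast
  rfl

theorem X_mem_R (e : ℕ) : c.X e ∈ c.R e := by
  exact Algebra.subset_adjoin (Set.mem_insert _ _)

theorem Y_mem_R (e : ℕ) : c.Y e ∈ c.R e := by
  exact Algebra.subset_adjoin (Set.mem_insert_of_mem _ rfl)

theorem R_le_zero (e : ℕ) : c.R e ≤ c.R 0 := by
  refine Algebra.adjoin_le ?_
  rintro z (rfl | rfl)
  · have h : c.x ∈ c.R 0 := by simpa [Crv.X] using c.X_mem_R 0
    exact pow_mem h _
  · have h : c.y ∈ c.R 0 := by simpa [Y] using c.Y_mem_R 0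
    exact pow_mem h _

/-- The right hand side is a subalgebra because `Y ^ 2 = X ^ 3 - Y`. -/
theorem mem_R_iff {e : ℕ} {z : K} : z ∈ c.R e ↔
    ∃ a b : k[X], z = aeval (c.X e) a + aeval (c.X e) b * c.Y e := by
  constructor
  · intro hz
    induction hz using Algebra.adjoin_induction with
    | mem z hz =>
      rcases hz with rfl | rfl
      · exact ⟨Polynomial.X, 0, by simp⟩
      · exact ⟨0, 1, by simp⟩
    | algebraMap a => exact ⟨C a, 0, by simp⟩
    | add z w _ _ hz hw =>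
      obtain ⟨a, b, rfl⟩ := hz
      obtain ⟨a', b', rfl⟩ := hw
      exact ⟨a + a', b + b', by rw [map_add, map_add]; ring⟩
    | mul z w _ _ hz hw =>
      obtain ⟨a, b, rfl⟩ := hz
      obtain ⟨a', b', rfl⟩ := hw
      refine ⟨a * a' + b * b' * Polynomial.X ^ 3, a * b' + b * a' - b * b', ?_⟩
      simp only [map_add, map_sub, map_mul, map_pow, aeval_X]
      linear_combination (aeval (c.X e) b * aeval (c.X e) b') * c.eqn_e e
  · rintro ⟨a, b, rfl⟩
    have h : ∀ p : k[X], aeval (c.X e) p ∈ c.R e := fun p =>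
      Algebra.adjoin_mono (Set.singleton_subset_iff.2 (Set.mem_insert _ _))
        (aeval_mem_adjoin_singleton k (c.X e))
    exact add_mem (h a) (mul_mem (h b) (c.Y_mem_R e))

/-- The leading term dominates (`Valuation.map_add_eq_of_lt_left`, induction on the degree). -/
theorem v_aeval (e : ℕ) {a : k[X]} (ha : a ≠ 0) :
    c.v (aeval (c.X e) a) = exp (2 * 2 ^ e * a.natDegree : ℤ) := by
  induction hn : a.natDegree generalizing a with
  | zero =>
    rw [eq_C_of_natDegree_eq_zero hn] at ha ⊢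
    rw [aeval_C, c.vk _ fun h => ha (by rw [h, map_zero])]
    simp
  | succ n ih =>
    have h1 : a.divX.natDegree = n := by
      rw [natDegree_divX_eq_natDegree_tsub_one, hn, Nat.add_sub_cancel]
    have h2 : a.divX ≠ 0 := fun h => by
      rw [divX_eq_zero_iff.1 h, natDegree_C] at hn
      omega
    have h3 : c.v (aeval (c.X e) a.divX * c.X e) = exp (2 * 2 ^ e * (n + 1 : ℕ) : ℤ) := by
      rw [map_mul, ih h2 h1, vX, ← exp_add, Nat.cast_succ, mul_add_one]
    have h4 : c.v (algebraMap k K (a.coeff 0)) < c.v (aeval (c.X e) a.divX * c.X e) := by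
      have h5 := c.v_smul_le (a.coeff 0) 1
      rw [← Algebra.algebraMap_eq_smul_one, map_one] at h5
      rw [h3]
      refine h5.trans_lt ?_
      rw [← exp_zero, exp_lt_exp]
      positivity
    rw [← h3, ← c.v.map_add_eq_of_lt_left h4]
    conv_lhs => rw [← divX_mul_X_add a, map_add, map_mul, aeval_X, aeval_C]

/-- The two valuations are `exp (2 ^ e * even)` and `exp (2 ^ e * odd)`, hence different. -/
theorem v_add_mul (e : ℕ) (a b : k[X]) : c.v (aeval (c.X e) a + aeval (c.X e) b * c.Y e) =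
    max (c.v (aeval (c.X e) a)) (c.v (aeval (c.X e) b * c.Y e)) := by
  rcases eq_or_ne a 0 with rfl | ha
  · simp
  rcases eq_or_ne b 0 with rfl | hb
  · simp
  refine c.v.map_add_of_distinct_val ?_
  rw [map_mul, c.v_aeval e ha, c.v_aeval e hb, vY, ← exp_add, Ne, exp_inj]
  intro h
  have h1 : (2 : ℤ) ^ e * (2 * a.natDegree) = 2 ^ e * (2 * b.natDegree + 3) := by
    linear_combination h
  have h2 := mul_left_cancel₀ (pow_ne_zero e two_ne_zero) h1
  omega

theorem v_R {e : ℕ} {z : K} (hz : z ∈ c.R e) (h0 : z ≠ 0) :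
    ∃ j : ℕ, c.v z = exp (2 ^ e * j : ℤ) := by
  obtain ⟨a, b, rfl⟩ := c.mem_R_iff.1 hz
  have h1 : a ≠ 0 → ∃ j : ℕ, c.v (aeval (c.X e) a) = exp (2 ^ e * j : ℤ) := fun ha =>
    ⟨2 * a.natDegree, by
      rw [c.v_aeval e ha]
      congr 1
      push_cast
      ring⟩
  have h2 : b ≠ 0 → ∃ j : ℕ, c.v (aeval (c.X e) b * c.Y e) = exp (2 ^ e * j : ℤ) := fun hb =>
    ⟨2 * b.natDegree + 3, by
      rw [map_mul, c.v_aeval e hb, vY, ← exp_add]
      congr 1
      push_cast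
      ring⟩
  rcases eq_or_ne a 0 with rfl | ha
  · rw [map_zero, zero_add] at h0 ⊢
    exact h2 fun hb => h0 (by rw [hb, map_zero, zero_mul])
  rcases eq_or_ne b 0 with rfl | hb
  · rw [map_zero, zero_mul, add_zero]
    exact h1 ha
  rw [v_add_mul]
  rcases max_choice (c.v (aeval (c.X e) a)) (c.v (aeval (c.X e) b * c.Y e)) with h | h
  · rw [h]; exact h1 ha
  · rw [h]; exact h2 hb

theorem M_inf_B (ι : Type) : c.M ι ⊓ c.B ι (-1) = ⊥ := by
  refine (Submodule.eq_bot_iff _).2 fun φ hφ => funext fun a => ?_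
  by_contra h0
  obtain ⟨j, hj⟩ := c.v_R (c.mem_M.1 hφ.1 a) h0
  have h1 := c.mem_B.1 hφ.2 a
  rw [hj, exp_le_exp] at h1
  omega

/-- Apply `c.res` to `z / w`. -/
theorem exists_cancel {z w : K} (hw : w ≠ 0) (h : c.v z ≤ c.v w) :
    ∃ a : k, c.v (z - a • w) < c.v w := by
  have hw' : 0 < c.v w := c.v.pos_iff.2 hw
  obtain ⟨a, ha⟩ := c.res (z / w) (by rw [map_div₀]; exact div_le_one_of_le₀ h zero_le)
  refine ⟨a, ?_⟩
  have e : z - a • w = (z / w - algebraMap k K a) * w := by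
    rw [sub_mul, div_mul_cancel₀ _ hw, Algebra.smul_def]
  rw [e, map_mul]
  exact mul_lt_of_lt_one_left hw' ha

/-- `X ^ a` or `X ^ a * Y`. -/
theorem exists_deg (e : ℕ) {j : ℕ} (hj : j ≠ 1) :
    ∃ g ∈ c.R e, c.v g = exp (2 ^ e * j : ℤ) := by
  obtain ⟨a, rfl | rfl⟩ : ∃ a, j = 2 * a ∨ j = 2 * a + 3 := by
    rcases Nat.even_or_odd' j with ⟨a, h | h⟩
    · exact ⟨a, Or.inl h⟩
    · exact ⟨a - 1, Or.inr (by omega)⟩
  · refine ⟨c.X e ^ a, pow_mem (c.X_mem_R e) a, ?_⟩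
    rw [map_pow, vX, ← exp_nsmul]
    congr 1
    rw [nsmul_eq_mul]
    push_cast
    ring
  · refine ⟨c.X e ^ a * c.Y e, mul_mem (pow_mem (c.X_mem_R e) a) (c.Y_mem_R e), ?_⟩
    rw [map_mul, map_pow, vX, vY, ← exp_nsmul, ← exp_add]
    congr 1
    rw [nsmul_eq_mul]
    push_cast
    ring

end Pool.Agent.P.MP_c64be1_ag.Ell.Crv
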